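import Pool.Agent.Q80.SF.Qua

set_option autoImplicit false

/-! The spectrum of the moment, and the inequality of Boas and Kac. -/

namespace Q80.SF

open MeasureTheory Set Filter Topology Complex FourierTransform
open Q97.MM (Adm)
open Q97.BS (ee ee_norm fourier_ee)
open Q97.QQ (fw fw_nonneg fw_cont)

noncomputable section

/-- the full Fourier integral -/
def fF (k : ℕ) (T U ω : ℝ) : ℂ := ∫ t, ((fw k T U t : ℝ) : ℂ) * cexp (-(I * ω * t))

theorem fF_eq (k : ℕ) (T U ω : ℝ) : fF k T U ω = 𝓕 (fun y => ((fw k T U y : ℝ) : ℂ)) (ω / (2 * Real.pi)) := by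
  rw [fourier_ee]
  unfold fF
  refine integral_congr_ae (Eventually.of_forall fun t => ?_)
  show ((fw k T U t : ℝ) : ℂ) * cexp (-(I * ω * t)) =
    ee (-(t * (ω / (2 * Real.pi)))) * ((fw k T U t : ℝ) : ℂ)
  unfold Q97.BS.ee
  rw [mul_comm]
  congr 2
  have hπ : (Real.pi : ℂ) ≠ 0 := by exact_mod_cast Real.pi_ne_zero
  push_cast
  field_simp

theorem fF_tF {k : ℕ} (hk : 1 ≤ k) (D : ℕ) : ∀ᶠ T : ℝ in atTop, ∀ U : ℝ, Adm T U →
    Integrable (fw k T U) ∧ ∀ ω : ℝ, ‖fF k T U ω - tF k T U T ω‖ ≤ Real.pi / T ^ D := by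
  filter_upwards [cmp hk D, tail k D, eventually_ge_atTop 3] with T h1 h2 hT U hA
  obtain ⟨c1, -, -⟩ := h1 U hA
  refine ⟨c1, fun ω => ?_⟩
  have h3 := tF_fourier (k := k) (D := D) hT (by linarith) le_rfl c1 (h2 U hA) (ω / (2 * Real.pi))
  have e : 2 * Real.pi * (ω / (2 * Real.pi)) = ω := by
    field_simp
  rw [e, ← fF_eq] at h3
  exact h3

/-- the spectrum -/
theorem spectrum {k : ℕ} (hk : 1 ≤ k) {ε : ℝ} (hε : 0 < ε) (B : ℕ) : ∀ᶠ T : ℝ in atTop, ∀ U : ℝ,
    Adm T U → ∀ ω : ℝ, ‖fF k T U ω‖ ≤ T ^ (((k : ℝ) + 1) / 2 + ε) * Real.exp (-(|ω| / 2)) + 1 / T ^ B := by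
  have hk0 : (1 : ℝ) ≤ k := by exact_mod_cast hk
  set η : ℝ := min 1 (ε / (2 * k)) with hη
  have hη0 : 0 < η := lt_min one_pos (by positivity)
  have hη1 : η ≤ 1 := min_le_left _ _
  have hη2 : η ≤ ε / (2 * k) := min_le_right _ _
  obtain ⟨C, hC, hs⟩ := single hk (c := 1 + η) (by linarith) (by linarith) (B + 1)
  have i1 : Tendsto (fun T : ℝ => T ^ (ε / 2)) atTop atTop := tendsto_rpow_atTop (by linarith)
  have hπ := Real.pi_pos
  filter_upwards [hs, fF_tF hk (B + 1), i1.eventually_ge_atTop C, eventually_ge_atTop (1 + Real.pi)] with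
    T h1 h2 h3 hT U hA ω
  have hT0 : 0 < T := by linarith
  have hT1 : 1 ≤ T := by linarith
  obtain ⟨-, h4⟩ := h2 U hA
  have h5 := h1 U hA |ω| (abs_nonneg _)
  rw [tF_abs] at h5
  have h6 := h4 ω
  have e : fF k T U ω = (fF k T U ω - tF k T U T ω) + tF k T U T ω := by ring
  rw [e]
  refine (norm_add_le _ _).trans ((add_le_add h6 h5).trans ?_)
  have h7 : C * T ^ (k * (1 + η - 1 / 2) + 1 / 2) ≤ T ^ (((k : ℝ) + 1) / 2 + ε) := by
    have hkη : (k : ℝ) * η ≤ ε / 2 := by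
      calc (k : ℝ) * η ≤ k * (ε / (2 * k)) := by gcongr
        _ = ε / 2 := by field_simp
    calc C * T ^ (k * (1 + η - 1 / 2) + 1 / 2) ≤ T ^ (ε / 2) * T ^ (((k : ℝ) + 1) / 2 + ε / 2) := by
          refine mul_le_mul h3 (Real.rpow_le_rpow_of_exponent_le hT1 (by linarith)) (by positivity)
            (by positivity)
      _ = T ^ (((k : ℝ) + 1) / 2 + ε) := by
          rw [← Real.rpow_add hT0]
          congr 1
          ring
  have h8 : Real.exp (-(|ω| * (1 + η - 1 / 2))) ≤ Real.exp (-(|ω| / 2)) := by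
    apply Real.exp_le_exp.2
    nlinarith [abs_nonneg ω, mul_nonneg (abs_nonneg ω) hη0.le]
  have h9 : C * T ^ (k * (1 + η - 1 / 2) + 1 / 2) * Real.exp (-(|ω| * (1 + η - 1 / 2))) ≤
      T ^ (((k : ℝ) + 1) / 2 + ε) * Real.exp (-(|ω| / 2)) := by gcongr
  have h10 : Real.pi / T ^ (B + 1) + 1 / T ^ (B + 1) ≤ 1 / T ^ B := by
    rw [pow_succ]
    have : Real.pi / (T ^ B * T) + 1 / (T ^ B * T) = (1 + Real.pi) / T * (1 / T ^ B) := by
      field_simp
      ring
    rw [this]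
    have h11 : (1 + Real.pi) / T ≤ 1 := by
      rw [div_le_one hT0]
      exact hT
    have : 0 ≤ 1 / T ^ B := by positivity
    nlinarith
  linarith

/-- the nodes -/
def nd (M r : ℕ) : ℝ := (2 * r + 1) * Real.pi / M

theorem nd_cos {M r : ℕ} (hM : 2 ≤ M) (hr : r < M) : Real.cos (nd M r) ≤ Real.cos (Real.pi / M) := by
  have hπ := Real.pi_pos
  have hM0 : (2 : ℝ) ≤ M := by exact_mod_cast hM
  have hM1 : (0 : ℝ) < M := by linarith
  have hr0 : (0 : ℝ) ≤ r := Nat.cast_nonneg r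
  have hr1 : (r : ℝ) + 1 ≤ M := by exact_mod_cast hr
  have h1 : Real.pi / M ≤ nd M r := by
    unfold nd
    gcongr
    nlinarith
  have h2 : nd M r ≤ 2 * Real.pi - Real.pi / M := by
    unfold nd
    rw [div_le_iff₀ hM1, sub_mul, div_mul_cancel₀ _ hM1.ne']
    nlinarith
  rcases le_total (nd M r) Real.pi with h | h
  · exact Real.cos_le_cos_of_nonneg_of_le_pi (by positivity) h h1
  · have e : Real.cos (nd M r) = Real.cos (2 * Real.pi - nd M r) := by
      rw [Real.cos_two_pi_sub]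
    rw [e]
    exact Real.cos_le_cos_of_nonneg_of_le_pi (by positivity) (by linarith) (by linarith)

theorem nd_sum {M : ℕ} (hM : 1 ≤ M) {m : ℤ} (hm : ¬ (M : ℤ) ∣ m) :
    ∑ r ∈ Finset.range M, cexp (I * m * nd M r) = 0 := by
  have hMC : (M : ℂ) ≠ 0 := by exact_mod_cast (by omega : M ≠ 0)
  set z : ℂ := cexp (2 * Real.pi * I * (m / M)) with hz
  have e : ∀ r ∈ Finset.range M, cexp (I * m * nd M r) = cexp (I * m * (Real.pi / M)) * z ^ r := by
    intro r _
    rw [hz, ← Complex.exp_nat_mul, ← Complex.exp_add]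
    congr 1
    unfold nd
    push_cast
    field_simp
    ring
  rw [Finset.sum_congr rfl e, ← Finset.mul_sum]
  have hz1 : z ≠ 1 := by
    intro h
    rw [hz, Complex.exp_eq_one_iff] at h
    obtain ⟨n, hn⟩ := h
    apply hm
    refine ⟨n, ?_⟩
    have h2 : (2 * Real.pi * I : ℂ) ≠ 0 := Complex.two_pi_I_ne_zero
    have h3 : (m : ℂ) / M = n := by
      have h4 : (2 * Real.pi * I : ℂ) * ((m : ℂ) / M) = (2 * Real.pi * I : ℂ) * n := by
        rw [hn]; ring
      exact mul_left_cancel₀ h2 h4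
    rw [div_eq_iff hMC] at h3
    have h5 : (m : ℂ) = ((n * M : ℤ) : ℂ) := by
      rw [h3]; push_cast; ring
    have h6 : m = n * M := by exact_mod_cast h5
    rw [h6]; ring
  have hzM : z ^ M = 1 := by
    rw [hz, ← Complex.exp_nat_mul, Complex.exp_eq_one_iff]
    refine ⟨m, ?_⟩
    field_simp
  rw [geom_sum_eq hz1, hzM, sub_self, zero_div, mul_zero]

/-- the weights -/
def wr (M r : ℕ) : ℝ := (Real.cos (Real.pi / M) - Real.cos (nd M r)) / M

theorem wr_nonneg {M r : ℕ} (hM : 2 ≤ M) (hr : r < M) : 0 ≤ wr M r := by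
  unfold wr
  have := nd_cos hM hr
  apply div_nonneg (by linarith) (Nat.cast_nonneg _)

/-- the discrete Fourier coefficients of the weights -/
theorem wr_four {N : ℕ} {m : ℤ} (hm : |m| ≤ N) :
    ∑ r ∈ Finset.range (N + 2), ((wr (N + 2) r : ℝ) : ℂ) * cexp (I * m * nd (N + 2) r) =
      if m = 0 then ((Real.cos (Real.pi / (N + 2 : ℕ)) : ℝ) : ℂ) else
        if m = 1 then -(1 / 2) else if m = -1 then -(1 / 2) else 0 := by
  set M := N + 2 with hM
  have hM1 : 1 ≤ M := by omega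
  have hMC : (M : ℂ) ≠ 0 := by exact_mod_cast (by omega : M ≠ 0)
  have key : ∀ j : ℤ, |j| ≤ N + 1 → ∑ r ∈ Finset.range M, cexp (I * j * nd M r) =
      if j = 0 then (M : ℂ) else 0 := by
    intro j hj
    split_ifs with h0
    · subst h0
      simp
    · apply nd_sum hM1
      intro hd
      have h1 : (M : ℤ) ≤ |j| := Int.le_of_dvd (abs_pos.2 h0) ((dvd_abs _ _).2 hd)
      push_cast [hM] at h1
      omega
  have e : ∀ r ∈ Finset.range M, ((wr M r : ℝ) : ℂ) * cexp (I * m * nd M r) =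
      (1 / (M : ℂ)) * (((Real.cos (Real.pi / M) : ℝ) : ℂ) * cexp (I * m * nd M r) -
        1 / 2 * (cexp (I * ((m + 1 : ℤ) : ℂ) * nd M r) + cexp (I * ((m - 1 : ℤ) : ℂ) * nd M r))) := by
    intro r _
    unfold wr
    have h1 : ((Real.cos (nd M r) : ℝ) : ℂ) = (cexp (nd M r * I) + cexp (-(nd M r) * I)) / 2 := by
      rw [Complex.ofReal_cos, Complex.cos]
    have h2 : cexp (I * ((m + 1 : ℤ) : ℂ) * nd M r) = cexp (I * m * nd M r) * cexp (nd M r * I) := by
      rw [← Complex.exp_add]; congr 1; push_cast; ring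
    have h3 : cexp (I * ((m - 1 : ℤ) : ℂ) * nd M r) = cexp (I * m * nd M r) * cexp (-(nd M r) * I) := by
      rw [← Complex.exp_add]; congr 1; push_cast; ring
    rw [h2, h3]
    push_cast
    rw [← Complex.ofReal_cos (nd M r), h1]
    field_simp
  rw [Finset.sum_congr rfl e, ← Finset.mul_sum, Finset.sum_sub_distrib, ← Finset.mul_sum,
    ← Finset.mul_sum, Finset.sum_add_distrib]
  have b1 := key m (by omega)
  have b2 := key (m + 1) (by
    rw [abs_le] at hm ⊢
    constructor <;> omega)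
  have b3 := key (m - 1) (by
    rw [abs_le] at hm ⊢
    constructor <;> omega)
  rw [b1, b2, b3]
  by_cases h0 : m = 0
  · subst h0
    simp only [zero_add, zero_sub]
    norm_num
    field_simp
  · by_cases h1 : m = 1
    · subst h1
      norm_num
      field_simp
    · by_cases h2 : m = -1
      · subst h2
        norm_num
        field_simp
      · have h3 : m + 1 ≠ 0 := by omega
        have h4 : m - 1 ≠ 0 := by omega
        simp [h0, h1, h2, h3, h4]

end

end Q80.SF
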