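import Pool.Agent.Q80.SF.Bk

set_option autoImplicit false

/-! The inequality of Boas and Kac for the moment. -/

namespace Q80.SF

open MeasureTheory Set Filter Topology Complex FourierTransform
open Q97.MM (Adm)
open Q97.BS (ee ee_norm)
open Q97.QQ (fw fw_nonneg fw_cont)

noncomputable section

theorem cos_nonneg' (N : ℕ) : 0 ≤ Real.cos (Real.pi / (N + 2 : ℕ)) := by
  have hπ := Real.pi_pos
  apply Real.cos_nonneg_of_neg_pi_div_two_le_of_le
  · have : 0 ≤ Real.pi / (N + 2 : ℕ) := by positivity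
    linarith
  · apply div_le_div_of_nonneg_left hπ.le (by norm_num)
    push_cast
    have : (0 : ℝ) ≤ N := Nat.cast_nonneg N
    linarith

/-- high frequencies -/
theorem high {k : ℕ} (hk : 1 ≤ k) {K a : ℝ} (hK : 0 < K) (ha : 1 / 2 < a) (hKa : k + 1 - 2 * a < K) :
    ∃ C e1 : ℝ, 0 < C ∧ e1 < a ∧ ∀ᶠ T : ℝ in atTop, ∀ U : ℝ, Adm T U → ∀ ω : ℝ, K * Real.log T ≤ |ω| →
      ‖tF k T U T ω‖ ≤ C * T ^ e1 + 1 / T := by
  obtain ⟨c, hc, hc3, hca⟩ := choose_c hk (δ := 1 / K) (a := a) (by positivity) ha (by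
    rw [one_div_mul_eq_div, div_lt_one hK]
    exact hKa)
  rw [one_div_one_div] at hca
  obtain ⟨C, hC, hs⟩ := single hk hc hc3 1
  refine ⟨C, (k - K) * (c - 1 / 2) + 1 / 2, hC, hca, ?_⟩
  filter_upwards [hs, eventually_ge_atTop 1] with T h1 hT U hA ω hω
  have hT0 : 0 < T := by linarith
  have h2 := h1 U hA |ω| (abs_nonneg _)
  rw [tF_abs, pow_one] at h2
  refine h2.trans ?_
  have h3 : Real.exp (-(|ω| * (c - 1 / 2))) ≤ T ^ (-(K * (c - 1 / 2))) := by
    rw [Real.rpow_def_of_pos hT0]
    apply Real.exp_le_exp.2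
    have : 0 ≤ c - 1 / 2 := by linarith
    nlinarith
  have h4 : T ^ (k * (c - 1 / 2) + 1 / 2) * T ^ (-(K * (c - 1 / 2))) =
      T ^ ((k - K) * (c - 1 / 2) + 1 / 2) := by
    rw [← Real.rpow_add hT0]
    congr 1
    ring
  have h5 : C * T ^ (k * (c - 1 / 2) + 1 / 2) * Real.exp (-(|ω| * (c - 1 / 2))) ≤
      C * T ^ ((k - K) * (c - 1 / 2) + 1 / 2) := by
    rw [← h4, mul_assoc]
    gcongr
  linarith

/-- smallness of the remainder -/
theorem small {C C1 e1 a : ℝ} (he : e1 < a) (ha : 0 < a) :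
    ∀ᶠ T : ℝ in atTop, 2 * (C1 * Real.log T) * (C * T ^ e1 + 1 / T) + 5 / T ≤ T ^ a := by
  have hlog := isLittleO_log_rpow_atTop (show 0 < (a - e1) / 2 by linarith)
  have h0 := hlog.bound one_pos
  have i1 : Tendsto (fun T : ℝ => T ^ ((a - e1) / 2)) atTop atTop := tendsto_rpow_atTop (by linarith)
  have i3 : Tendsto (fun T : ℝ => T ^ a) atTop atTop := tendsto_rpow_atTop ha
  have i2 := Real.isLittleO_log_id_atTop.bound (c := 1) one_pos
  filter_upwards [h0, i1.eventually_ge_atTop (4 * |C1 * C|), i3.eventually_ge_atTop (4 * |C1| + 10), i2,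
    eventually_ge_atTop 1] with T j1 j2 j3 j4 hT
  have hT0 : 0 < T := by linarith
  have hL := Real.log_nonneg hT
  rw [Real.norm_of_nonneg hL, Real.norm_of_nonneg (by positivity), one_mul] at j1
  rw [Real.norm_of_nonneg hL, id, Real.norm_of_nonneg hT0.le, one_mul] at j4
  have k1 : 2 * (C1 * Real.log T) * (C * T ^ e1) ≤ T ^ a / 2 := by
    have e : T ^ a = T ^ ((a - e1) / 2) * T ^ ((a - e1) / 2) * T ^ e1 := by
      rw [← Real.rpow_add hT0, ← Real.rpow_add hT0]; congr 1; ring
    have hx : 0 < T ^ e1 := Real.rpow_pos_of_pos hT0 _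
    have h1 : C1 * C * Real.log T ≤ |C1 * C| * T ^ ((a - e1) / 2) := by
      refine mul_le_mul (le_abs_self _) j1 hL (abs_nonneg _)
    have h2 : |C1 * C| * T ^ ((a - e1) / 2) ≤ T ^ ((a - e1) / 2) * T ^ ((a - e1) / 2) / 4 := by
      have : 0 < T ^ ((a - e1) / 2) := Real.rpow_pos_of_pos hT0 _
      nlinarith
    rw [e]
    calc 2 * (C1 * Real.log T) * (C * T ^ e1) = 2 * (C1 * C * Real.log T) * T ^ e1 := by ring
      _ ≤ 2 * (T ^ ((a - e1) / 2) * T ^ ((a - e1) / 2) / 4) * T ^ e1 := by
          gcongr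
          exact h1.trans h2
      _ = _ := by ring
  have k2 : 2 * (C1 * Real.log T) * (1 / T) ≤ 2 * |C1| := by
    rw [mul_one_div, div_le_iff₀ hT0]
    have : C1 * Real.log T ≤ |C1| * T := mul_le_mul (le_abs_self _) j4 hL (abs_nonneg _)
    linarith
  have k3 : 5 / T ≤ 5 := div_le_self (by norm_num) hT
  rw [mul_add]
  linarith

theorem bk {k : ℕ} (hk : 1 ≤ k) {κ a : ℝ} (hκ : 0 < κ) (N : ℕ) (ha : 1 / 2 < a)
    (hκa : k + 1 - 2 * a < κ * (N + 1)) : ∀ᶠ T : ℝ in atTop, ∀ U : ℝ, Adm T U →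
      ‖fF k T U (κ * Real.log T)‖ ≤ Real.cos (Real.pi / (N + 2 : ℕ)) * (∫ y, fw k T U y) + T ^ a := by
  have hc0 := cos_nonneg' N
  have hπ := Real.pi_pos
  rcases lt_or_ge (k + 1 - 2 * a : ℝ) κ with hcase | hcase
  · obtain ⟨C, e1, hC, he1, hh⟩ := high hk hκ ha hcase
    filter_upwards [hh, fF_tF hk 1, small (C := C) (C1 := 1) he1 (by linarith),
      eventually_ge_atTop 3] with T h1 h2 h3 hT U hA
    have hT0 : 0 < T := by linarith
    have hL := hA.log
    obtain ⟨-, h4⟩ := h2 U hA
    have h5 := h4 (κ * Real.log T)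
    have h6 := h1 U hA (κ * Real.log T) (le_abs_self _)
    have h7 : 0 ≤ ∫ y, fw k T U y := integral_nonneg fun y => fw_nonneg _ _ _ _
    have e : fF k T U (κ * Real.log T) = (fF k T U (κ * Real.log T) - tF k T U T (κ * Real.log T)) +
        tF k T U T (κ * Real.log T) := by ring
    rw [e]
    refine (norm_add_le _ _).trans ((add_le_add h5 h6).trans ?_)
    rw [pow_one]
    have h8 : Real.pi / T ≤ 5 / T := by
      gcongr
      linarith [Real.pi_lt_four]
    have h9 : C * T ^ e1 + 1 / T ≤ 2 * (1 * Real.log T) * (C * T ^ e1 + 1 / T) := by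
      have : 0 ≤ C * T ^ e1 + 1 / T := by positivity
      nlinarith
    have h10 : 0 ≤ Real.cos (Real.pi / (N + 2 : ℕ)) * (∫ y, fw k T U y) := mul_nonneg hc0 h7
    linarith
  · have hN1 : 1 ≤ N := by
      by_contra hcon
      have : N = 0 := by omega
      subst this
      push_cast at hκa
      linarith
    have hK : 0 < κ * (N + 1) := by positivity
    obtain ⟨C, e1, hC, he1, hh⟩ := high hk hK ha hκa
    obtain ⟨C1, hC1k, ht⟩ := trunc hk 1
    have hC1 : 0 < C1 := lt_of_lt_of_le (by exact_mod_cast hk) hC1k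
    have hκk : κ ≤ k := by linarith
    have hlog : Tendsto (fun T : ℝ => 2 * Real.pi / κ / Real.log T) atTop (𝓝 0) :=
      Real.tendsto_log_atTop.const_div_atTop _
    filter_upwards [hh, ht, fF_tF hk 1, small (C := C) (C1 := C1) he1 (by linarith),
      hlog.eventually (gt_mem_nhds one_pos), eventually_ge_atTop 3] with T h1 h2 h3 h4 h5 hT U hA
    have hT0 : 0 < T := by linarith
    have hL : 0 < Real.log T := by linarith [hA.log]
    obtain ⟨-, h6⟩ := h3 U hA
    obtain ⟨hfi, h7⟩ := h2 T U (by linarith) le_rfl hA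
    set ω := κ * Real.log T with hω
    have hω0 : 0 < ω := by positivity
    set h : ℝ := 2 * Real.pi / ω with hh'
    have hh0 : 0 < h := by positivity
    have hh1 : h ≤ 1 := by
      rw [hh', hω, ← div_div]
      exact h5.le
    set M := N + 2 with hM
    have hM2 : 2 ≤ M := by omega
    set φ : ℝ := arg (tF k T U T ω) with hφ
    have hint : 0 ≤ ∫ y, fw k T U y := integral_nonneg fun y => fw_nonneg _ _ _ _
    set I0 : ℝ := ∫ y, fw k T U y with hI0
    have hfreq : ∀ m : ℤ, 2 * Real.pi * (m / h) = m * ω := by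
      intro m
      rw [hh']
      field_simp
    -- the points
    set θ : ℕ → ℝ := fun r => (nd M r - φ) / ω with hθ
    have hee : ∀ (m : ℤ) (r : ℕ), ee (θ r * (m / h)) = cexp (I * m * nd M r) * cexp (-(I * m * φ)) := by
      intro m r
      rw [← Complex.exp_add]
      unfold Q97.BS.ee
      congr 1
      have e1 : 2 * Real.pi * (θ r * (m / h)) = m * (nd M r - φ) := by
        have : 2 * Real.pi * (θ r * (m / h)) = θ r * (2 * Real.pi * (m / h)) := by ring
        rw [this, hfreq, hθ]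
        field_simp
      rw [e1]
      push_cast
      ring
    set D : ℕ → ℝ := fun r => h * ∑' n : ℤ, fw k T U (θ r + n * h) with hD
    have hD0 : ∀ r, 0 ≤ D r := fun r => mul_nonneg hh0.le (tsum_nonneg fun n => fw_nonneg _ _ _ _)
    have htr : ∀ r : ℕ, ‖((D r - I0 : ℝ) : ℂ) - ∑ m ∈ ix C1 T h, cexp (I * m * nd M r) *
        (cexp (-(I * m * φ)) * tF k T U T (m * ω))‖ ≤ 1 / T := by
      intro r
      have h8 := (h7 h hh0 hh1 (θ r)).2
      rw [pow_one] at h8
      refine le_trans (le_of_eq ?_) h8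
      congr 2
      refine Finset.sum_congr rfl fun m _ => ?_
      rw [hee, hfreq]
      ring
    -- the weighted sum
    set g : ℤ → ℂ := fun m => (∑ r ∈ Finset.range M, ((wr M r : ℝ) : ℂ) * cexp (I * m * nd M r)) *
      (cexp (-(I * m * φ)) * tF k T U T (m * ω)) with hg
    have hw0 : ∑ r ∈ Finset.range M, wr M r = Real.cos (Real.pi / (N + 2 : ℕ)) := by
      have h9 := wr_four (N := N) (m := 0) (by simp)
      simp only [Int.cast_zero, mul_zero, zero_mul, Complex.exp_zero, mul_one, if_true] at h9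
      have h10 : ((∑ r ∈ Finset.range M, wr M r : ℝ) : ℂ) =
          ((Real.cos (Real.pi / (N + 2 : ℕ)) : ℝ) : ℂ) := by
        rw [← h9]
        push_cast
        rfl
      exact_mod_cast h10
    set c0 := Real.cos (Real.pi / (N + 2 : ℕ)) with hc0'
    have hc1 : c0 ≤ 1 := Real.cos_le_one _
    have hwsum : ‖((∑ r ∈ Finset.range M, wr M r * (D r - I0) : ℝ) : ℂ) - ∑ m ∈ ix C1 T h, g m‖ ≤ 1 / T := by
      have e : ((∑ r ∈ Finset.range M, wr M r * (D r - I0) : ℝ) : ℂ) - ∑ m ∈ ix C1 T h, g m =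
          ∑ r ∈ Finset.range M, ((wr M r : ℝ) : ℂ) * (((D r - I0 : ℝ) : ℂ) -
            ∑ m ∈ ix C1 T h, cexp (I * m * nd M r) * (cexp (-(I * m * φ)) * tF k T U T (m * ω))) := by
        have p1 : ∑ m ∈ ix C1 T h, g m = ∑ r ∈ Finset.range M, ((wr M r : ℝ) : ℂ) *
            ∑ m ∈ ix C1 T h, cexp (I * m * nd M r) * (cexp (-(I * m * φ)) * tF k T U T (m * ω)) := by
          simp only [hg, Finset.sum_mul, Finset.mul_sum]
          rw [Finset.sum_comm]
          refine Finset.sum_congr rfl fun r _ => Finset.sum_congr rfl fun m _ => ?_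
          ring
        rw [p1, Complex.ofReal_sum, ← Finset.sum_sub_distrib]
        refine Finset.sum_congr rfl fun r _ => ?_
        rw [Complex.ofReal_mul]
        ring
      rw [e]
      calc ‖∑ r ∈ Finset.range M, ((wr M r : ℝ) : ℂ) * (((D r - I0 : ℝ) : ℂ) -
            ∑ m ∈ ix C1 T h, cexp (I * m * nd M r) * (cexp (-(I * m * φ)) * tF k T U T (m * ω)))‖
          ≤ ∑ r ∈ Finset.range M, wr M r * (1 / T) := by
            refine norm_sum_le_of_le _ fun r hr => ?_
            rw [norm_mul, Complex.norm_real, Real.norm_of_nonneg (wr_nonneg hM2 (Finset.mem_range.1 hr))]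
            exact mul_le_mul_of_nonneg_left (htr r) (wr_nonneg hM2 (Finset.mem_range.1 hr))
        _ = c0 * (1 / T) := by rw [← Finset.sum_mul, hw0]
        _ ≤ 1 * (1 / T) := by gcongr
        _ = _ := one_mul _
    have hleft : -(c0 * I0) ≤ ∑ r ∈ Finset.range M, wr M r * (D r - I0) := by
      have e : ∑ r ∈ Finset.range M, wr M r * (D r - I0) =
          (∑ r ∈ Finset.range M, wr M r * D r) - c0 * I0 := by
        rw [← hw0, Finset.sum_mul, ← Finset.sum_sub_distrib]
        refine Finset.sum_congr rfl fun r _ => ?_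
        ring
      rw [e]
      have : 0 ≤ ∑ r ∈ Finset.range M, wr M r * D r :=
        Finset.sum_nonneg fun r hr => mul_nonneg (wr_nonneg hM2 (Finset.mem_range.1 hr)) (hD0 r)
      linarith
    -- the terms
    have hNr : (1 : ℝ) ≤ N := by exact_mod_cast hN1
    have hfl : 1 ≤ ⌊C1 * Real.log T * h⌋₊ := by
      rw [Nat.one_le_floor_iff]
      have : C1 * Real.log T * h = 2 * Real.pi * (C1 / κ) := by
        rw [hh', hω]
        field_simp
      rw [this]
      have : 1 ≤ C1 / κ := by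
        rw [le_div_iff₀ hκ, one_mul]
        linarith
      nlinarith [Real.pi_gt_three]
    have hm1 : (1 : ℤ) ∈ ix C1 T h := by
      unfold ix
      rw [Finset.mem_erase, Finset.mem_Icc]
      refine ⟨by norm_num, ?_, ?_⟩ <;> omega
    have hm2 : (-1 : ℤ) ∈ (ix C1 T h).erase 1 := by
      unfold ix
      rw [Finset.mem_erase, Finset.mem_erase, Finset.mem_Icc]
      refine ⟨by norm_num, by norm_num, ?_, ?_⟩ <;> omega
    have hsplit : ∑ m ∈ ix C1 T h, g m = g 1 + (g (-1) + ∑ m ∈ ((ix C1 T h).erase 1).erase (-1), g m) := by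
      rw [← Finset.add_sum_erase _ _ hm1, ← Finset.add_sum_erase _ _ hm2]
    have hpol : cexp (-(I * φ)) * tF k T U T ω = ((‖tF k T U T ω‖ : ℝ) : ℂ) := by
      have h9 := Complex.norm_mul_exp_arg_mul_I (tF k T U T ω)
      rw [← hφ] at h9
      calc cexp (-(I * φ)) * tF k T U T ω = cexp (-(I * φ)) * (((‖tF k T U T ω‖ : ℝ) : ℂ) * cexp (φ * I)) := by
            rw [h9]
        _ = ((‖tF k T U T ω‖ : ℝ) : ℂ) * (cexp (-(I * φ)) * cexp (φ * I)) := by ring
        _ = _ := by
            rw [← Complex.exp_add]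
            have : -(I * (φ : ℂ)) + φ * I = 0 := by ring
            rw [this, Complex.exp_zero, mul_one]
    have hg1 : g 1 = -(1 / 2) * ((‖tF k T U T ω‖ : ℝ) : ℂ) := by
      have h9 := wr_four (N := N) (m := 1) (by simpa using hN1)
      simp only [one_ne_zero, if_false, if_true] at h9
      simp only [hg]
      rw [h9, ← hpol]
      push_cast
      rw [one_mul, mul_one]
    have hg2 : g (-1) = -(1 / 2) * ((‖tF k T U T ω‖ : ℝ) : ℂ) := by
      have h9 := wr_four (N := N) (m := -1) (by simpa using hN1)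
      have n1 : (-1 : ℤ) ≠ 0 := by norm_num
      have n2 : (-1 : ℤ) ≠ 1 := by norm_num
      rw [if_neg n1, if_neg n2, if_pos rfl] at h9
      simp only [hg]
      have e1 : (((-1 : ℤ) : ℝ) * ω) = -ω := by push_cast; ring
      have e2 : cexp (-(I * ((-1 : ℤ) : ℂ) * φ)) * (starRingEnd ℂ) (tF k T U T ω) =
          (starRingEnd ℂ) (cexp (-(I * φ)) * tF k T U T ω) := by
        rw [map_mul, ← Complex.exp_conj]
        congr 2
        simp
      rw [h9, e1, tF_neg, e2, hpol, Complex.conj_ofReal]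
    set P : ℝ := C * T ^ e1 + 1 / T with hP
    have hP0 : 0 ≤ P := by positivity
    have hrest : ‖∑ m ∈ ((ix C1 T h).erase 1).erase (-1), g m‖ ≤ 2 * (C1 * Real.log T) * P := by
      have hterm : ∀ m ∈ ((ix C1 T h).erase 1).erase (-1), ‖g m‖ ≤ P := by
        intro m hm
        rw [Finset.mem_erase, Finset.mem_erase] at hm
        obtain ⟨ma, mb, mc⟩ := hm
        have m0 : m ≠ 0 := fun h0 => zero_ix C1 T h (h0 ▸ mc)
        by_cases hmN : |m| ≤ N
        · have h9 := wr_four (N := N) hmN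
          simp only [m0, ma, mb, if_false] at h9
          simp only [hg]
          rw [h9, zero_mul, norm_zero]
          exact hP0
        · push Not at hmN
          have hmN' : (N : ℝ) + 1 ≤ |(m : ℝ)| := by
            have : (((N : ℤ) + 1 : ℤ) : ℝ) ≤ ((|m| : ℤ) : ℝ) := by exact_mod_cast hmN
            rw [Int.cast_abs] at this
            push_cast at this
            exact this
          have h9 := h1 U hA (m * ω) (by
            rw [abs_mul, abs_of_pos hω0, hω]
            have : 0 < κ * Real.log T := by positivity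
            nlinarith)
          have h10 : ‖∑ r ∈ Finset.range M, ((wr M r : ℝ) : ℂ) * cexp (I * m * nd M r)‖ ≤ 1 := by
            calc ‖∑ r ∈ Finset.range M, ((wr M r : ℝ) : ℂ) * cexp (I * m * nd M r)‖
                ≤ ∑ r ∈ Finset.range M, wr M r := by
                  refine norm_sum_le_of_le _ fun r hr => ?_
                  have e : I * (m : ℂ) * ((nd M r : ℝ) : ℂ) = ((m * nd M r : ℝ) : ℂ) * I := by
                    push_cast; ring
                  rw [norm_mul, e, Complex.norm_exp_ofReal_mul_I, mul_one, Complex.norm_real,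
                    Real.norm_of_nonneg (wr_nonneg hM2 (Finset.mem_range.1 hr))]
              _ = c0 := hw0
              _ ≤ 1 := hc1
          simp only [hg]
          have e : -(I * (m : ℂ) * (φ : ℂ)) = ((-(m * φ) : ℝ) : ℂ) * I := by push_cast; ring
          rw [norm_mul, norm_mul, e, Complex.norm_exp_ofReal_mul_I, one_mul]
          calc ‖∑ r ∈ Finset.range M, ((wr M r : ℝ) : ℂ) * cexp (I * m * nd M r)‖ *
                ‖tF k T U T (m * ω)‖ ≤ 1 * P := by gcongr
            _ = P := one_mul _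
      calc ‖∑ m ∈ ((ix C1 T h).erase 1).erase (-1), g m‖
          ≤ ∑ m ∈ ((ix C1 T h).erase 1).erase (-1), P := norm_sum_le_of_le _ hterm
        _ = ((((ix C1 T h).erase 1).erase (-1)).card : ℝ) * P := by rw [Finset.sum_const, nsmul_eq_mul]
        _ ≤ ((ix C1 T h).card : ℝ) * P := by
            gcongr
            exact (Finset.erase_subset _ _).trans (Finset.erase_subset _ _)
        _ ≤ 2 * (C1 * Real.log T) * P := by
            gcongr
            exact card_ix hC1 (by linarith) hh0 hh1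
    have hre : ∑ r ∈ Finset.range M, wr M r * (D r - I0) ≤ -‖tF k T U T ω‖ + 2 * (C1 * Real.log T) * P + 1 / T := by
      rw [hsplit, hg1, hg2] at hwsum
      set X := ∑ r ∈ Finset.range M, wr M r * (D r - I0) with hX
      set R := ∑ m ∈ ((ix C1 T h).erase 1).erase (-1), g m with hR
      have e : ((X : ℝ) : ℂ) - (-(1 / 2) * ((‖tF k T U T ω‖ : ℝ) : ℂ) +
          (-(1 / 2) * ((‖tF k T U T ω‖ : ℝ) : ℂ) + R)) = ((X + ‖tF k T U T ω‖ : ℝ) : ℂ) - R := by
        push_cast; ring
      rw [e] at hwsum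
      have h9 : ‖((X + ‖tF k T U T ω‖ : ℝ) : ℂ)‖ ≤ 1 / T + ‖R‖ := by
        calc ‖((X + ‖tF k T U T ω‖ : ℝ) : ℂ)‖ = ‖(((X + ‖tF k T U T ω‖ : ℝ) : ℂ) - R) + R‖ := by
              rw [sub_add_cancel]
          _ ≤ _ := (norm_add_le _ _).trans (by linarith)
      rw [Complex.norm_real, Real.norm_eq_abs] at h9
      have := le_abs_self (X + ‖tF k T U T ω‖)
      linarith
    have h8 := h6 ω
    rw [pow_one] at h8
    have e : fF k T U ω = (fF k T U ω - tF k T U T ω) + tF k T U T ω := by ring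
    rw [e]
    refine (norm_add_le _ _).trans ?_
    have h9 : Real.pi / T ≤ 4 / T := by
      gcongr
      exact Real.pi_lt_four.le
    have h10 : 4 / T + 1 / T = 5 / T := by ring
    linarith

end

end Q80.SF
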