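import Pool.Agent.Q80.SF.Shp
import Pool.Agent.Q97.QQ.Blk
import Pool.Agent.Q97.QQ.Pol

set_option autoImplicit false

/-! Sharp cut-offs, and the equivalence of the asymptotic formulas. -/

namespace Q80.SF

open MeasureTheory Set Filter Topology Complex
open scoped ENNReal
open Q97.MM (Adm)
open Q97.QQ

noncomputable section

/-- from smooth windows to a sharp cut-off, for two measures, with an integrated error -/
theorem sharp' {μ ν : Measure ℝ} [SFinite μ] [SFinite ν] {T₀ T : ℝ} (hT : T₀ ≤ T) {E : ℝ≥0∞}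
    (h : (∫⁻ u in Ioc T₀ T, (∫⁻ t, gw u t ∂μ)) ≤ (∫⁻ u in Ioc T₀ T, (∫⁻ t, gw u t ∂ν)) + E) :
    μ (Ioc T₀ T) ≤ ν (Ioc T₀ T) + (∫⁻ t, gw T t ∂μ + ∫⁻ t, gw T₀ t ∂μ) +
      (∫⁻ t, gw T t ∂ν + ∫⁻ t, gw T₀ t ∂ν) + E := by
  set c : ℝ≥0∞ := ENNReal.ofReal √Real.pi with hc
  have hc1 : 1 ≤ c := by
    rw [hc, ← ENNReal.ofReal_one]
    apply ENNReal.ofReal_le_ofReal
    rw [Real.one_le_sqrt]
    linarith [Real.pi_gt_three]
  have hc0 : c ≠ 0 := (zero_lt_one.trans_le hc1).ne'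
  have hct : c ≠ ∞ := ENNReal.ofReal_ne_top
  have hI : ∀ ρ : Measure ℝ, ∫⁻ t, c * (Ioc T₀ T).indicator (fun _ => (1 : ℝ≥0∞)) t ∂ρ =
      c * ρ (Ioc T₀ T) := by
    intro ρ
    rw [lintegral_const_mul _ (measurable_const.indicator measurableSet_Ioc),
      lintegral_indicator measurableSet_Ioc, lintegral_const, one_mul,
      Measure.restrict_apply_univ]
  have hW : ∀ ρ : Measure ℝ, ∫⁻ t, c * (gw T t + gw T₀ t) ∂ρ =
      c * (∫⁻ t, gw T t ∂ρ + ∫⁻ t, gw T₀ t ∂ρ) := by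
    intro ρ
    rw [lintegral_const_mul c (f := fun t => gw T t + gw T₀ t) ((gw_meas T).add (gw_meas T₀)),
      lintegral_add_left (gw_meas T)]
  have hsw : ∀ ρ : Measure ℝ, SFinite ρ → ∫⁻ t, (∫⁻ u in Ioc T₀ T, gw u t) ∂ρ =
      ∫⁻ u in Ioc T₀ T, (∫⁻ t, gw u t ∂ρ) := by
    intro ρ hρ
    exact lintegral_lintegral_swap (gw_meas2.comp measurable_swap).aemeasurable
  have hGm : Measurable (fun t => ∫⁻ u in Ioc T₀ T, gw u t) :=
    Measurable.lintegral_prod_left gw_meas2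
  have s1 : c * μ (Ioc T₀ T) ≤ (∫⁻ u in Ioc T₀ T, (∫⁻ t, gw u t ∂μ)) +
      c * (∫⁻ t, gw T t ∂μ + ∫⁻ t, gw T₀ t ∂μ) := by
    rw [← hI, ← hW, ← hsw μ inferInstance, ← lintegral_add_left hGm]
    exact lintegral_mono fun t => G_lower hT t
  have s3 : (∫⁻ u in Ioc T₀ T, (∫⁻ t, gw u t ∂ν)) ≤ c * ν (Ioc T₀ T) +
      c * (∫⁻ t, gw T t ∂ν + ∫⁻ t, gw T₀ t ∂ν) := by
    rw [← hI, ← hW, ← hsw ν inferInstance, ← lintegral_add_left
      ((measurable_const.indicator measurableSet_Ioc).const_mul c)]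
    exact lintegral_mono fun t => G_upper t
  have s4 : c * μ (Ioc T₀ T) ≤ c * (ν (Ioc T₀ T) + (∫⁻ t, gw T t ∂μ + ∫⁻ t, gw T₀ t ∂μ) +
      (∫⁻ t, gw T t ∂ν + ∫⁻ t, gw T₀ t ∂ν) + E) := by
    refine s1.trans ?_
    calc (∫⁻ u in Ioc T₀ T, (∫⁻ t, gw u t ∂μ)) + c * (∫⁻ t, gw T t ∂μ + ∫⁻ t, gw T₀ t ∂μ)
        ≤ (c * ν (Ioc T₀ T) + c * (∫⁻ t, gw T t ∂ν + ∫⁻ t, gw T₀ t ∂ν) +
            c * E) + c * (∫⁻ t, gw T t ∂μ + ∫⁻ t, gw T₀ t ∂μ) := by
          gcongr
          refine h.trans ?_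
          gcongr
          calc E = 1 * E := (one_mul _).symm
            _ ≤ _ := by gcongr
      _ = _ := by ring
  exact (ENNReal.mul_le_mul_iff_right hc0 hct).mp s4

/-- The Riemann sum and the integral differ by at most the edge term and `T^a`. -/
theorem edge' {k : ℕ} (hk : 1 ≤ k) {δ a : ℝ} (hδ : 0 < δ) (ha : 1 / 2 < a)
    (hδa : δ * (k + 1 - 2 * a) < 1) :
    ∃ C : ℝ, 0 < C ∧ ∀ᶠ T : ℝ in atTop, ∀ h : ℝ, 0 < h → h ≤ 2 * Real.pi * δ / Real.log T →
      |DD k T h - FF0 k T| ≤ 2 * EE k T + C * T ^ a := by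
  obtain ⟨T₀, C, h3, hC, hlong⟩ := long hk hδ ha hδa
  have hπ := Real.pi_pos
  have hE0 := EE_nonneg k T₀
  set C₀ := T₀ * (180 ^ (2 * k) * (1 + T₀) ^ (4 * k)) with hC₀
  have hC0 : 0 < C₀ := by positivity
  have hF0 := FF0_nonneg k (show 0 ≤ T₀ by linarith)
  refine ⟨2 * C + 2 + 2 * EE k T₀ + C₀ + FF0 k T₀, by positivity, ?_⟩
  filter_upwards [eventually_ge_atTop T₀] with T hT h hh hhL
  have hT3 : 3 ≤ T := h3.trans hT
  obtain ⟨hw, hpi, hint⟩ := hlong T hT h hh hhL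
  have hqi := EE_ii k (by linarith : (0 : ℝ) ≤ T₀) hT
  have hTa : 1 ≤ T ^ a := Real.one_le_rpow (by linarith) (by linarith)
  have hT₀a : T₀ ^ a ≤ T ^ a := Real.rpow_le_rpow (by linarith) hT (by linarith)
  have hE := EE_nonneg k T
  have w : ∀ u : ℝ, T₀ ≤ u → u ≤ T → ∫⁻ t, gw u t ∂m0 k = ENNReal.ofReal (EE k u) ∧
      ∫⁻ t, gw u t ∂mh k h ≤ ENNReal.ofReal (EE k u + T ^ a) := by
    intro u hu huT
    refine ⟨m0_gw k (fw_one_int k u).1, ?_⟩
    obtain ⟨a1, a2⟩ := hw u hu huT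
    rw [a1]
    apply ENNReal.ofReal_le_ofReal
    have a3 : u ^ a ≤ T ^ a := Real.rpow_le_rpow (by linarith) huT (by linarith)
    have := (abs_le.mp a2).2
    linarith
  -- the integrated windows
  have I1 : ∫⁻ u in Ioc T₀ T, (∫⁻ t, gw u t ∂mh k h) = ENNReal.ofReal (∫ u in T₀..T, pE k h u) := by
    rw [intervalIntegral.integral_of_le hT, ofReal_integral_eq_lintegral_ofReal
      ((intervalIntegrable_iff_integrableOn_Ioc_of_le hT).1 hpi)
      (Eventually.of_forall fun u => pE_nonneg k hh u)]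
    exact setLIntegral_congr_fun measurableSet_Ioc fun u hu => (hw u hu.1.le hu.2).1
  have I2 : ∫⁻ u in Ioc T₀ T, (∫⁻ t, gw u t ∂m0 k) = ENNReal.ofReal (∫ u in T₀..T, EE k u) := by
    rw [intervalIntegral.integral_of_le hT, ofReal_integral_eq_lintegral_ofReal
      ((intervalIntegrable_iff_integrableOn_Ioc_of_le hT).1 hqi)
      (Eventually.of_forall fun u => EE_nonneg k u)]
    exact setLIntegral_congr_fun measurableSet_Ioc fun u hu => (w u hu.1.le hu.2).1
  have n1 : 0 ≤ ∫ u in T₀..T, pE k h u :=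
    intervalIntegral.integral_nonneg hT fun u _ => pE_nonneg k hh u
  have n2 : 0 ≤ ∫ u in T₀..T, EE k u :=
    intervalIntegral.integral_nonneg hT fun u _ => EE_nonneg k u
  rw [intervalIntegral.integral_sub hpi hqi] at hint
  obtain ⟨hi1, hi2⟩ := abs_le.mp hint
  have hCT : 0 ≤ C * T ^ a := by positivity
  obtain ⟨w1, w2⟩ := w T hT le_rfl
  obtain ⟨w3, w4⟩ := w T₀ le_rfl hT
  obtain ⟨d1, d2⟩ := mh_Ioc k (a := T₀) (b := T) (by linarith) hT hh
  have f2 := m0_Ioc k hT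
  have f1 := FF0_mono k (show 0 ≤ T₀ by linarith) hT
  have s1 := sharp' (μ := mh k h) (ν := m0 k) (T₀ := T₀) (T := T) hT
    (E := ENNReal.ofReal (C * T ^ a)) (by
      rw [I1, I2, ← ENNReal.ofReal_add n2 hCT]
      apply ENNReal.ofReal_le_ofReal
      linarith)
  have s2 := sharp' (μ := m0 k) (ν := mh k h) (T₀ := T₀) (T := T) hT
    (E := ENNReal.ofReal (C * T ^ a)) (by
      rw [I1, I2, ← ENNReal.ofReal_add n1 hCT]
      apply ENNReal.ofReal_le_ofReal
      linarith)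
  rw [d2, f2, w1, w3] at s1 s2
  have r1 : DD k T h - DD k T₀ h ≤ (FF0 k T - FF0 k T₀) + ((EE k T + T ^ a) + (EE k T₀ + T ^ a)) +
      (EE k T + EE k T₀) + C * T ^ a := by
    have p0 : 0 ≤ FF0 k T - FF0 k T₀ := by linarith
    rw [← ENNReal.ofReal_le_ofReal_iff (by positivity)]
    rw [ENNReal.ofReal_add (by positivity) (by positivity),
      ENNReal.ofReal_add (by positivity) (by positivity),
      ENNReal.ofReal_add p0 (by positivity),
      ENNReal.ofReal_add (by positivity) (by positivity),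
      ENNReal.ofReal_add hE hE0]
    refine s1.trans ?_
    gcongr
  have r2 : FF0 k T - FF0 k T₀ ≤ (DD k T h - DD k T₀ h) + (EE k T + EE k T₀) +
      ((EE k T + T ^ a) + (EE k T₀ + T ^ a)) + C * T ^ a := by
    have p0 : 0 ≤ DD k T h - DD k T₀ h := by linarith
    rw [← ENNReal.ofReal_le_ofReal_iff (by positivity)]
    rw [ENNReal.ofReal_add (by positivity) (by positivity),
      ENNReal.ofReal_add (by positivity) (by positivity),
      ENNReal.ofReal_add p0 (by positivity),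
      ENNReal.ofReal_add hE hE0,
      ENNReal.ofReal_add (p := EE k T + T ^ a) (by positivity) (by positivity)]
    refine s2.trans ?_
    gcongr
  have r3 := DD_bd k (T := T₀) (h := h) (by linarith) hh
  have r4 := DD_nonneg k (T := T₀) hh
  rw [← hC₀] at r3
  have hC0T : C₀ ≤ C₀ * T ^ a := le_mul_of_one_le_right hC0.le hTa
  have hF0T : FF0 k T₀ ≤ FF0 k T₀ * T ^ a := le_mul_of_one_le_right hF0 hTa
  have hE0T : EE k T₀ ≤ EE k T₀ * T ^ a := le_mul_of_one_le_right hE0 hTa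
  rw [abs_le]
  constructor
  · nlinarith
  · nlinarith

/-- The asymptotic formula for the integral is equivalent to the one for Riemann sums. -/
theorem equiv' {k : ℕ} (hk : 1 ≤ k) {δ a : ℝ} (hδ : 0 < δ) (ha : 1 / 2 < a)
    (hδa : δ * (k + 1 - 2 * a) < 1)
    (J : ℝ → ℝ) (hJ : ∃ C : ℝ, ∀ᶠ T : ℝ in atTop, |J (T + 1) - J T| ≤ C * T ^ a) :
    (∃ C : ℝ, ∀ᶠ T : ℝ in atTop, |FF0 k T - J T| ≤ C * T ^ a) ↔
    (∃ C : ℝ, ∀ᶠ T : ℝ in atTop, ∀ h : ℝ, 0 < h → h ≤ 2 * Real.pi * δ / Real.log T →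
      |DD k T h - J T| ≤ C * T ^ a) := by
  obtain ⟨CJ, hJ⟩ := hJ
  obtain ⟨S, hS, hblk⟩ := blocks (3 * Real.pi * (180 ^ (2 * k) * 2 ^ (4 * k))) (by positivity) (4 * k)
  obtain ⟨Ce, hCe, hedge⟩ := edge' hk hδ ha hδa
  obtain ⟨u₀, Cx, hu₀3, hCx, hlg⟩ := long hk hδ ha hδa
  have ha0 : 0 ≤ a := by linarith
  have hπ := Real.pi_pos
  have hlog : Tendsto (fun T : ℝ => 2 * Real.pi * δ / Real.log (2 * T + 1)) atTop (𝓝 0) := by
    apply Tendsto.const_div_atTop
    apply Real.tendsto_log_atTop.comp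
    exact tendsto_atTop_add_const_right _ _ (tendsto_id.const_mul_atTop two_pos)
  -- a bound for the increments
  have hinc : ∀ (A : ℝ → ℝ) (C X : ℝ), 1 ≤ X → 0 ≤ C → ∀ T : ℝ, 2 * X ≤ T →
      (∀ x : ℝ, X ≤ x → x ≤ 2 * T + 1 → |A x - J x| ≤ C * x ^ a) →
      (∀ x : ℝ, X ≤ x → |J (x + 1) - J x| ≤ |CJ| * x ^ a) →
      ∀ x : ℝ, T / 2 ≤ x → x ≤ 2 * T → A (x + 1) - A x ≤ (2 * C + |CJ|) * (3 * T) ^ a := by
    intro A C X hX hC T hT h1 h2 x hx1 hx2
    have a1 := h1 x (by linarith) (by linarith)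
    have a2 := h1 (x + 1) (by linarith) (by linarith)
    have a3 := h2 x (by linarith)
    have hx0 : 0 ≤ x := by linarith
    have b1 : x ^ a ≤ (3 * T) ^ a := Real.rpow_le_rpow hx0 (by linarith) ha0
    have b2 : (x + 1) ^ a ≤ (3 * T) ^ a := Real.rpow_le_rpow (by linarith) (by linarith) ha0
    have c1 := (abs_le.mp a1).1
    have c2 := (abs_le.mp a2).2
    have c3 := (abs_le.mp a3).2
    have d1 : C * x ^ a ≤ C * (3 * T) ^ a := by gcongr
    have d2 : C * (x + 1) ^ a ≤ C * (3 * T) ^ a := by gcongr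
    have d3 : |CJ| * x ^ a ≤ |CJ| * (3 * T) ^ a := by gcongr
    linarith
  have h3T : ∀ T : ℝ, 0 ≤ T → (3 * T) ^ a = 3 ^ a * T ^ a := fun T hT =>
    Real.mul_rpow (by norm_num) hT
  constructor
  · rintro ⟨C, hC⟩
    obtain ⟨X₁, hX₁⟩ := eventually_atTop.mp hC
    obtain ⟨X₂, hX₂⟩ := eventually_atTop.mp hJ
    set X := max (max X₁ X₂) 1 with hX
    have hX1 : 1 ≤ X := le_max_right _ _
    refine ⟨2 * (S * ((2 * |C| + |CJ|) * 3 ^ a + 1)) + Ce + |C|, ?_⟩
    filter_upwards [hedge, eventually_ge_atTop (max (2 * X) 3)] with T e1 hT h hh hhL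
    have hTX : 2 * X ≤ T := (le_max_left _ _).trans hT
    have hT3 : 3 ≤ T := (le_max_right _ _).trans hT
    have hTa : 1 ≤ T ^ a := Real.one_le_rpow (by linarith) ha0
    have hE := EE_nonneg k T
    set K : ℝ := (2 * |C| + |CJ|) * (3 * T) ^ a with hK
    have hK0 : 0 ≤ K := by positivity
    have i1 := hinc (FF0 k) |C| X hX1 (abs_nonneg _) T hTX
      (fun x hx _ => (hX₁ x ((le_max_left _ _).trans ((le_max_left _ _).trans hx))).trans (by
        have : 0 ≤ x ^ a := Real.rpow_nonneg (by linarith) _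
        nlinarith [le_abs_self C]))
      (fun x hx => (hX₂ x ((le_max_right _ _).trans ((le_max_left _ _).trans hx))).trans (by
        have : 0 ≤ x ^ a := Real.rpow_nonneg (by linarith) _
        nlinarith [le_abs_self CJ]))
    have b1 := hblk (m0 k) (m0_poly k) T K (by linarith) hK0 (fun x hx1 hx2 => by
      rw [m0_Ioc k (by linarith)]
      exact ENNReal.ofReal_le_ofReal (i1 x hx1 hx2))
    rw [m0_gw k (fw_one_int k T).1, ENNReal.ofReal_le_ofReal_iff (by positivity)] at b1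
    have b2 := e1 h hh hhL
    have b3 : |FF0 k T - J T| ≤ |C| * T ^ a := (hX₁ T (by
      have := le_max_left X₁ X₂
      have := le_max_left (max X₁ X₂) 1
      linarith)).trans (by nlinarith [le_abs_self C])
    have b4 : |DD k T h - J T| ≤ |DD k T h - FF0 k T| + |FF0 k T - J T| := by
      have := abs_add_le (DD k T h - FF0 k T) (FF0 k T - J T)
      rwa [sub_add_sub_cancel] at this
    have b5 : S * (K + 1) ≤ S * ((2 * |C| + |CJ|) * 3 ^ a + 1) * T ^ a := by
      rw [hK, h3T T (by linarith)]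
      nlinarith
    nlinarith
  · rintro ⟨C, hC⟩
    obtain ⟨X₁, hX₁⟩ := eventually_atTop.mp hC
    obtain ⟨X₂, hX₂⟩ := eventually_atTop.mp hJ
    set X := max (max X₁ X₂) 2 with hX
    have hX2 : 2 ≤ X := le_max_right _ _
    refine ⟨2 * (S * ((2 * |C| + |CJ|) * 3 ^ a + 1) + 1) + Ce + |C|, ?_⟩
    filter_upwards [hedge, eventually_ge_atTop (max (2 * X) (max 3 u₀)),
      hlog.eventually (gt_mem_nhds one_pos)] with T e1 hT hlT
    have hTX : 2 * X ≤ T := (le_max_left _ _).trans hT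
    have hT3 : 3 ≤ T := (le_max_left _ _).trans ((le_max_right _ _).trans hT)
    have hTu : u₀ ≤ T := (le_max_right _ _).trans ((le_max_right _ _).trans hT)
    have hTa : 1 ≤ T ^ a := Real.one_le_rpow (by linarith) ha0
    have hE := EE_nonneg k T
    set h : ℝ := 2 * Real.pi * δ / Real.log (2 * T + 1) with hh
    have hlp : 0 < Real.log (2 * T + 1) := Real.log_pos (by linarith)
    have hh0 : 0 < h := by positivity
    have hhx : ∀ x : ℝ, X ≤ x → x ≤ 2 * T + 1 → h ≤ 2 * Real.pi * δ / Real.log x := by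
      intro x hx1 hx2
      apply div_le_div_of_nonneg_left (by positivity) (Real.log_pos (by linarith))
      exact Real.log_le_log (by linarith) hx2
    have hhT : h ≤ 2 * Real.pi * δ / Real.log T := hhx T (by linarith) (by linarith)
    set K : ℝ := (2 * |C| + |CJ|) * (3 * T) ^ a with hK
    have hK0 : 0 ≤ K := by positivity
    have i1 := hinc (fun x => DD k x h) |C| X (by linarith) (abs_nonneg _) T hTX
      (fun x hx hx2 => (hX₁ x ((le_max_left _ _).trans ((le_max_left _ _).trans hx)) h hh0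
        (hhx x hx hx2)).trans (by
          have : 0 ≤ x ^ a := Real.rpow_nonneg (by linarith) _
          nlinarith [le_abs_self C]))
      (fun x hx => (hX₂ x ((le_max_right _ _).trans ((le_max_left _ _).trans hx))).trans (by
        have : 0 ≤ x ^ a := Real.rpow_nonneg (by linarith) _
        nlinarith [le_abs_self CJ]))
    have b1 := hblk (mh k h) (mh_poly k hh0 hlT.le) T K (by linarith) hK0 (fun x hx1 hx2 => by
      rw [(mh_Ioc k (a := x) (b := x + 1) (by linarith) (by linarith) hh0).2]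
      exact ENNReal.ofReal_le_ofReal (i1 x hx1 hx2))
    have b1' : EE k T ≤ S * (K + 1) + T ^ a := by
      obtain ⟨c0, -, -⟩ := hlg T hTu h hh0 hhT
      obtain ⟨c1, c2⟩ := c0 T hTu le_rfl
      rw [c1, ENNReal.ofReal_le_ofReal_iff (by positivity)] at b1
      have := (abs_le.mp c2).1
      linarith
    have b2 := e1 h hh0 hhT
    have b3 : |DD k T h - J T| ≤ |C| * T ^ a := (hX₁ T (by
      have := le_max_left X₁ X₂
      have := le_max_left (max X₁ X₂) 2
      linarith) h hh0 hhT).trans (by nlinarith [le_abs_self C])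
    have b4 : |FF0 k T - J T| ≤ |DD k T h - FF0 k T| + |DD k T h - J T| := by
      have := abs_add_le (-(DD k T h - FF0 k T)) (DD k T h - J T)
      rw [abs_neg] at this
      have e : -(DD k T h - FF0 k T) + (DD k T h - J T) = FF0 k T - J T := by ring
      rwa [e] at this
    have b5 : S * (K + 1) ≤ S * ((2 * |C| + |CJ|) * 3 ^ a + 1) * T ^ a := by
      rw [hK, h3T T (by linarith)]
      nlinarith
    nlinarith

end

end Q80.SF
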