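import Mathlib

set_option autoImplicit false

/-! Oscillatory integrals of functions with a logarithmic derivative which grows linearly away from
one point. -/

namespace Q80.SF

open MeasureTheory Set Filter Topology Complex

noncomputable section

theorem inv_sq_int {x y t0 R : ℝ} (hxy : x ≤ y) (hR : 0 < R)
    (hside : (∀ t ∈ Icc x y, t0 + R ≤ t) ∨ (∀ t ∈ Icc x y, t ≤ t0 - R)) :
    IntervalIntegrable (fun t => ((t - t0) ^ 2)⁻¹) volume x y ∧
      ∫ t in x..y, ((t - t0) ^ 2)⁻¹ ≤ 1 / R := by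
  have hne : ∀ t ∈ Icc x y, t - t0 ≠ 0 := by
    intro t ht
    rcases hside with h | h
    · have := h t ht
      intro h0
      linarith
    · have := h t ht
      intro h0
      linarith
  have hder : ∀ t ∈ uIcc x y, HasDerivAt (fun t => -(t - t0)⁻¹) (((t - t0) ^ 2)⁻¹) t := by
    intro t ht
    rw [uIcc_of_le hxy] at ht
    have h1 := ((hasDerivAt_id t).sub_const t0).inv (hne t ht)
    have h2 := h1.neg
    have e : ((t - t0) ^ 2)⁻¹ = -(-1 / (t - t0) ^ 2) := by
      rw [neg_div, neg_neg, one_div]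
    rw [e]
    exact h2
  have hc : ContinuousOn (fun t => ((t - t0) ^ 2)⁻¹) (uIcc x y) := by
    refine ContinuousOn.inv₀ (by fun_prop) fun t ht => ?_
    rw [uIcc_of_le hxy] at ht
    exact pow_ne_zero _ (hne t ht)
  have hi : IntervalIntegrable (fun t => ((t - t0) ^ 2)⁻¹) volume x y := hc.intervalIntegrable
  refine ⟨hi, ?_⟩
  rw [intervalIntegral.integral_eq_sub_of_hasDerivAt hder hi]
  have hx := hne x (left_mem_Icc.2 hxy)
  have hy := hne y (right_mem_Icc.2 hxy)
  rcases hside with h | h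
  · have h1 := h x (left_mem_Icc.2 hxy)
    have h2 := h y (right_mem_Icc.2 hxy)
    have h3 : (x - t0)⁻¹ ≤ 1 / R := by
      rw [one_div]
      exact inv_anti₀ hR (by linarith)
    have h4 : 0 ≤ (y - t0)⁻¹ := inv_nonneg.2 (by linarith)
    linarith
  · have h1 := h x (left_mem_Icc.2 hxy)
    have h2 := h y (right_mem_Icc.2 hxy)
    have h3 : -(y - t0)⁻¹ ≤ 1 / R := by
      rw [← inv_neg, one_div]
      exact inv_anti₀ hR (by linarith)
    have h4 : (x - t0)⁻¹ ≤ 0 := inv_nonpos.2 (by linarith)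
    linarith

theorem osc_piece {f lam lam' : ℝ → ℂ} {x y t0 A c0 C0 R : ℝ} (hxy : x ≤ y) (hR : 0 < R)
    (hc0 : 0 < c0) (hC0 : 0 ≤ C0) (hA : 0 ≤ A)
    (hside : (∀ t ∈ Icc x y, t0 + R ≤ t) ∨ (∀ t ∈ Icc x y, t ≤ t0 - R))
    (hf : ∀ t ∈ Icc x y, HasDerivAt f (I * lam t * f t) t)
    (hl : ∀ t ∈ Icc x y, HasDerivAt lam (lam' t) t) (hlc : ContinuousOn lam' (Icc x y))
    (hAf : ∀ t ∈ Icc x y, ‖f t‖ ≤ A) (hlam : ∀ t ∈ Icc x y, c0 * |t - t0| ≤ ‖lam t‖)
    (hlam' : ∀ t ∈ Icc x y, ‖lam' t‖ ≤ C0) :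
    ‖∫ t in x..y, f t‖ ≤ A * (2 / (c0 * R) + C0 / (c0 ^ 2 * R)) := by
  obtain ⟨hi, hib⟩ := inv_sq_int hxy hR hside
  have hfar : ∀ t ∈ Icc x y, R ≤ |t - t0| := by
    intro t ht
    rcases hside with h | h
    · have := h t ht
      exact le_trans (by linarith) (le_abs_self _)
    · have := h t ht
      exact le_trans (by linarith) (neg_le_abs _)
  have hlow : ∀ t ∈ Icc x y, c0 * R ≤ ‖lam t‖ := fun t ht =>
    (mul_le_mul_of_nonneg_left (hfar t ht) hc0.le).trans (hlam t ht)
  have hne : ∀ t ∈ Icc x y, lam t ≠ 0 := by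
    intro t ht h0
    have := hlow t ht
    rw [h0, norm_zero] at this
    have : 0 < c0 * R := by positivity
    linarith
  have hfc : ContinuousOn f (Icc x y) := fun t ht => (hf t ht).continuousAt.continuousWithinAt
  have hlc0 : ContinuousOn lam (Icc x y) := fun t ht => (hl t ht).continuousAt.continuousWithinAt
  set G : ℝ → ℂ := fun t => f t / (I * lam t) with hG
  set E : ℝ → ℂ := fun t => f t * lam' t / (I * lam t ^ 2) with hE
  have hGd : ∀ t ∈ uIcc x y, HasDerivAt G (f t - E t) t := by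
    intro t ht
    rw [uIcc_of_le hxy] at ht
    have hn : I * lam t ≠ 0 := mul_ne_zero I_ne_zero (hne t ht)
    have h1 := (hf t ht).div ((hl t ht).const_mul I) hn
    have h3 := hne t ht
    have e : f t - E t = (I * lam t * f t * (I * lam t) - f t * (I * lam' t)) / (I * lam t) ^ 2 := by
      show f t - f t * lam' t / (I * lam t ^ 2) = _
      field_simp
    rw [e]
    exact h1
  have hEc : ContinuousOn E (uIcc x y) := by
    rw [uIcc_of_le hxy]
    refine (hfc.mul hlc).div (continuousOn_const.mul (hlc0.pow 2)) fun t ht => ?_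
    exact mul_ne_zero I_ne_zero (pow_ne_zero _ (hne t ht))
  have hfc' : ContinuousOn f (uIcc x y) := by rwa [uIcc_of_le hxy]
  have hint := intervalIntegral.integral_eq_sub_of_hasDerivAt hGd (hfc'.sub hEc).intervalIntegrable
  rw [intervalIntegral.integral_sub hfc'.intervalIntegrable hEc.intervalIntegrable] at hint
  have e1 : ∫ t in x..y, f t = (G y - G x) + ∫ t in x..y, E t := by
    rw [← hint]; ring
  have hGb : ∀ t ∈ Icc x y, ‖G t‖ ≤ A / (c0 * R) := by
    intro t ht
    rw [hG]
    simp only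
    rw [norm_div, norm_mul, norm_I, one_mul]
    exact div_le_div₀ hA (hAf t ht) (by positivity) (hlow t ht)
  have hEb : ‖∫ t in x..y, E t‖ ≤ A * (C0 / (c0 ^ 2 * R)) := by
    have h1 : ∀ t ∈ Icc x y, ‖E t‖ ≤ (A * C0 / c0 ^ 2) * ((t - t0) ^ 2)⁻¹ := by
      intro t ht
      rw [hE]
      simp only
      rw [norm_div, norm_mul, norm_mul, norm_I, one_mul, norm_pow]
      have h2 : 0 < |t - t0| := lt_of_lt_of_le hR (hfar t ht)
      have h3 : (c0 * |t - t0|) ^ 2 ≤ ‖lam t‖ ^ 2 := pow_le_pow_left₀ (by positivity) (hlam t ht) 2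
      have h4 : ‖f t‖ * ‖lam' t‖ ≤ A * C0 :=
        mul_le_mul (hAf t ht) (hlam' t ht) (norm_nonneg _) hA
      refine (div_le_div₀ (by positivity) h4 (by positivity) h3).trans (le_of_eq ?_)
      rw [mul_pow, sq_abs]
      field_simp
    refine (intervalIntegral.norm_integral_le_of_norm_le hxy
      (Eventually.of_forall fun t ht => h1 t (Ioc_subset_Icc_self ht)) (hi.const_mul _)).trans ?_
    rw [intervalIntegral.integral_const_mul]
    calc A * C0 / c0 ^ 2 * ∫ t in x..y, ((t - t0) ^ 2)⁻¹ ≤ A * C0 / c0 ^ 2 * (1 / R) := by gcongr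
      _ = _ := by field_simp
  rw [e1]
  refine (norm_add_le _ _).trans ?_
  have h5 := hGb y (right_mem_Icc.2 hxy)
  have h6 := hGb x (left_mem_Icc.2 hxy)
  have h7 := norm_sub_le (G y) (G x)
  have e2 : A * (2 / (c0 * R) + C0 / (c0 ^ 2 * R)) =
      A / (c0 * R) + A / (c0 * R) + A * (C0 / (c0 ^ 2 * R)) := by ring
  rw [e2]
  linarith

theorem osc_total {f lam lam' : ℝ → ℂ} {a b t0 A c0 C0 R : ℝ} (hab : a ≤ b) (hR : 0 < R)
    (hc0 : 0 < c0) (hC0 : 0 ≤ C0) (hA : 0 ≤ A)
    (hf : ∀ t ∈ Icc a b, HasDerivAt f (I * lam t * f t) t)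
    (hl : ∀ t ∈ Icc a b, HasDerivAt lam (lam' t) t) (hlc : ContinuousOn lam' (Icc a b))
    (hAf : ∀ t ∈ Icc a b, ‖f t‖ ≤ A)
    (hlam : ∀ t ∈ Icc a b, R ≤ |t - t0| → c0 * |t - t0| ≤ ‖lam t‖)
    (hlam' : ∀ t ∈ Icc a b, ‖lam' t‖ ≤ C0) :
    ‖∫ t in a..b, f t‖ ≤ A * (2 * R + 2 * (2 / (c0 * R) + C0 / (c0 ^ 2 * R))) := by
  set p : ℝ := min b (max a (t0 - R)) with hp
  set q : ℝ := min b (max a (t0 + R)) with hq
  have hap : a ≤ p := le_min hab (le_max_left _ _)
  have hpb : p ≤ b := min_le_left _ _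
  have hqb : q ≤ b := min_le_left _ _
  have hpq : p ≤ q := by
    refine min_le_min le_rfl (max_le_max le_rfl (by linarith))
  have haq : a ≤ q := hap.trans hpq
  have hqp : q - p ≤ 2 * R := by
    have h1 : q ≤ p + 2 * R := by
      rw [hp, ← min_add_add_right, ← max_add_add_right]
      refine min_le_min (by linarith) (max_le_max (by linarith) (by linarith))
    linarith
  have hfc : ContinuousOn f (Icc a b) := fun t ht => (hf t ht).continuousAt.continuousWithinAt
  have hint : ∀ x y : ℝ, a ≤ x → x ≤ y → y ≤ b → IntervalIntegrable f volume x y := by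
    intro x y h1 h2 h3
    refine ContinuousOn.intervalIntegrable ?_
    rw [uIcc_of_le h2]
    exact hfc.mono (Icc_subset_Icc h1 h3)
  have e1 : ∫ t in a..b, f t = (∫ t in a..p, f t) + (∫ t in p..q, f t) + ∫ t in q..b, f t := by
    rw [intervalIntegral.integral_add_adjacent_intervals (hint a p le_rfl hap hpb)
      (hint p q hap hpq hqb), intervalIntegral.integral_add_adjacent_intervals
      (hint a q le_rfl haq hqb) (hint q b haq hqb le_rfl)]
  set Z : ℝ := 2 / (c0 * R) + C0 / (c0 ^ 2 * R) with hZ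
  have hZ0 : 0 ≤ Z := by positivity
  have b1 : ‖∫ t in a..p, f t‖ ≤ A * Z := by
    rcases hap.eq_or_lt with h | h
    · rw [← h, intervalIntegral.integral_same, norm_zero]
      positivity
    · have hpt : p ≤ t0 - R := by
        have h1 : a < max a (t0 - R) := lt_of_lt_of_le h (min_le_right _ _)
        have h2 : max a (t0 - R) = t0 - R := by
          rcases le_total a (t0 - R) with h3 | h3
          · exact max_eq_right h3
          · rw [max_eq_left h3] at h1
            exact absurd h1 (lt_irrefl _)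
        rw [hp, h2]
        exact min_le_right _ _
      have hs : Icc a p ⊆ Icc a b := Icc_subset_Icc le_rfl hpb
      refine osc_piece (t0 := t0) hap hR hc0 hC0 hA (Or.inr fun t ht => ht.2.trans hpt)
        (fun t ht => hf t (hs ht)) (fun t ht => hl t (hs ht)) (hlc.mono hs)
        (fun t ht => hAf t (hs ht)) (fun t ht => hlam t (hs ht) ?_) fun t ht => hlam' t (hs ht)
      have := ht.2
      exact le_trans (by linarith) (neg_le_abs _)
  have b3 : ‖∫ t in q..b, f t‖ ≤ A * Z := by
    rcases hqb.eq_or_lt with h | h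
    · rw [h, intervalIntegral.integral_same, norm_zero]
      positivity
    · have hqt : t0 + R ≤ q := by
        have h1 : q = max a (t0 + R) := by
          rw [hq]
          refine min_eq_right ?_
          by_contra hcon
          push Not at hcon
          rw [hq, min_eq_left hcon.le] at h
          exact lt_irrefl _ h
        rw [h1]
        exact le_max_right _ _
      have hs : Icc q b ⊆ Icc a b := Icc_subset_Icc haq le_rfl
      refine osc_piece (t0 := t0) hqb hR hc0 hC0 hA (Or.inl fun t ht => hqt.trans ht.1)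
        (fun t ht => hf t (hs ht)) (fun t ht => hl t (hs ht)) (hlc.mono hs)
        (fun t ht => hAf t (hs ht)) (fun t ht => hlam t (hs ht) ?_) fun t ht => hlam' t (hs ht)
      have := ht.1
      exact le_trans (by linarith) (le_abs_self _)
  have b2 : ‖∫ t in p..q, f t‖ ≤ A * (2 * R) := by
    have h1 : ∀ t ∈ uIoc p q, ‖f t‖ ≤ A := by
      intro t ht
      rw [uIoc_of_le hpq] at ht
      exact hAf t ⟨hap.trans ht.1.le, ht.2.trans hqb⟩
    refine (intervalIntegral.norm_integral_le_of_norm_le_const h1).trans ?_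
    rw [abs_of_nonneg (by linarith)]
    gcongr
  rw [e1]
  refine (norm_add_le _ _).trans ?_
  have := norm_add_le (∫ t in a..p, f t) (∫ t in p..q, f t)
  have e2 : A * (2 * R + 2 * Z) = A * Z + A * (2 * R) + A * Z := by ring
  rw [e2]
  linarith

/-- partial integration against a weight -/
theorem osc_weight {f w w' : ℝ → ℂ} {a b B V W : ℝ} (hab : a ≤ b) (hf : ContinuousOn f (Icc a b))
    (hw : ∀ t ∈ Icc a b, HasDerivAt w (w' t) t) (hwc : ContinuousOn w' (Icc a b))
    (hB : ∀ y ∈ Icc a b, ‖∫ t in a..y, f t‖ ≤ B) (hB0 : 0 ≤ B)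
    (hV : ‖w b‖ ≤ V) (hW : ∫ t in a..b, ‖w' t‖ ≤ W) :
    ‖∫ t in a..b, f t * w t‖ ≤ B * (V + W) := by
  set H : ℝ → ℂ := fun y => ∫ t in a..y, f t with hH
  have hu : uIcc a b = Icc a b := uIcc_of_le hab
  have hfi : IntervalIntegrable f volume a b := (hu ▸ hf).intervalIntegrable
  have hHc : ContinuousOn H (uIcc a b) :=
    intervalIntegral.continuousOn_primitive_interval' hfi left_mem_uIcc
  have hwi : IntervalIntegrable w' volume a b := (hu ▸ hwc).intervalIntegrable
  have hHd : ∀ t ∈ Ioo (min a b) (max a b), HasDerivWithinAt H (f t) (Ioi t) t := by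
    intro t ht
    rw [min_eq_left hab, max_eq_right hab] at ht
    have hfa : ContinuousAt f t := hf.continuousAt (Icc_mem_nhds ht.1 ht.2)
    have hm : StronglyMeasurableAtFilter f (𝓝 t) volume := by
      refine ⟨Icc a b, Icc_mem_nhds ht.1 ht.2, ?_⟩
      exact hf.aestronglyMeasurable measurableSet_Icc
    have hi : IntervalIntegrable f volume a t := by
      refine ContinuousOn.intervalIntegrable ?_
      rw [uIcc_of_le ht.1.le]
      exact hf.mono (Icc_subset_Icc le_rfl ht.2.le)
    exact (intervalIntegral.integral_hasDerivAt_right hi hm hfa).hasDerivWithinAt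
  have hwcont : ContinuousOn w (uIcc a b) := by
    rw [hu]
    exact fun t ht => (hw t ht).continuousAt.continuousWithinAt
  have hwd : ∀ t ∈ Ioo (min a b) (max a b), HasDerivWithinAt w (w' t) (Ioi t) t := by
    intro t ht
    rw [min_eq_left hab, max_eq_right hab] at ht
    exact (hw t (Ioo_subset_Icc_self ht)).hasDerivWithinAt
  have hparts := intervalIntegral.integral_mul_deriv_eq_deriv_mul_of_hasDeriv_right hwcont hHc
    hwd hHd hwi hfi
  have e1 : ∫ t in a..b, f t * w t = w b * H b - ∫ t in a..b, w' t * H t := by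
    have h0 : H a = 0 := by rw [hH]; simp
    rw [h0, mul_zero, sub_zero] at hparts
    rw [← hparts]
    refine intervalIntegral.integral_congr fun t _ => ?_
    exact mul_comm _ _
  rw [e1]
  refine (norm_sub_le _ _).trans ?_
  have h1 : ‖w b * H b‖ ≤ V * B := by
    rw [norm_mul]
    exact mul_le_mul hV (hB b (right_mem_Icc.2 hab)) (norm_nonneg _) ((norm_nonneg _).trans hV)
  have h2 : ‖∫ t in a..b, w' t * H t‖ ≤ W * B := by
    refine (intervalIntegral.norm_integral_le_of_norm_le (g := fun t => ‖w' t‖ * B) hab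
      (Eventually.of_forall fun t ht => ?_) (hwi.norm.mul_const B)).trans ?_
    · rw [norm_mul]
      exact mul_le_mul_of_nonneg_left (hB t (Ioc_subset_Icc_self ht)) (norm_nonneg _)
    · rw [intervalIntegral.integral_mul_const]
      gcongr
  nlinarith

end

end Q80.SF
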