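import Pool.Agent.Q80.SF.Win

set_option autoImplicit false

/-! Windows with sharp edges. -/

namespace Q80.SF

open MeasureTheory Set Filter Topology Complex
open Pool.Agent.W188.QS
open Q97.MM (Adm)

noncomputable section

theorem swap {g : ℝ → ℂ} {a b T1 T2 c : ℝ} (hc : 1 / 2 ≤ c) (hc3 : c ≤ 3) (hab : a ≤ b) (hT : T1 ≤ T2)
    (hg : ContinuousOn g (Icc a b)) :
    IntervalIntegrable (fun u => ∫ t in a..b, g t * GG u 1 (pl c t)) volume T1 T2 ∧
      ∫ u in T1..T2, ∫ t in a..b, g t * GG u 1 (pl c t) = ∫ t in a..b, g t * pw c T1 T2 t := by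
  have hg1 : Integrable g (volume.restrict (Ioc a b)) :=
    (hg.integrableOn_Icc).mono_set Ioc_subset_Icc_self
  have h1 : Integrable (fun _ : ℝ => (1 : ℂ)) (volume.restrict (Ioc T1 T2)) := integrable_const _
  have h2 := h1.mul_prod hg1
  have hG : Continuous (fun z : ℝ × ℝ => GG z.1 1 (pl c z.2)) := by
    have e : (fun z : ℝ × ℝ => GG z.1 1 (pl c z.2)) = fun z => ev c (z.2 - z.1) :=
      funext fun z => GG_ev_one _ _ _
    rw [e]
    exact (ev_cont c).comp (continuous_snd.sub continuous_fst)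
  have h3 : Integrable (fun z : ℝ × ℝ => g z.2 * GG z.1 1 (pl c z.2))
      ((volume.restrict (Ioc T1 T2)).prod (volume.restrict (Ioc a b))) := by
    have h4 := h2.mul_bdd (c := Real.exp 7) (g := fun z : ℝ × ℝ => GG z.1 1 (pl c z.2))
      hG.aestronglyMeasurable (Eventually.of_forall fun z => by
        refine (GG_norm z.1 c z.2 le_rfl hc hc3).trans ?_
        have : Real.exp (-(((z.2 - z.1) / 1) ^ 2)) ≤ 1 := by
          apply Real.exp_le_one_iff.2
          have : 0 ≤ ((z.2 - z.1) / 1) ^ 2 := sq_nonneg _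
          linarith
        nlinarith [Real.exp_pos 7])
    refine h4.congr (Eventually.of_forall fun z => ?_)
    simp
  have h5 := h3.integral_prod_left
  constructor
  · rw [intervalIntegrable_iff_integrableOn_Ioc_of_le hT]
    refine h5.congr (Eventually.of_forall fun u => ?_)
    exact (intervalIntegral.integral_of_le hab).symm
  · rw [intervalIntegral.integral_of_le hT, intervalIntegral.integral_of_le hab]
    have h6 := integral_integral_swap (f := fun u t => g t * GG u 1 (pl c t)) h3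
    simp only [intervalIntegral.integral_of_le hab]
    rw [h6]
    refine integral_congr_ae (Eventually.of_forall fun t => ?_)
    simp only
    rw [integral_const_mul, pw, intervalIntegral.integral_of_le hT]

theorem tF_cont (k : ℕ) (T ω : ℝ) : Continuous (fun u => tF k u 1 T ω) := by
  unfold tF
  apply intervalIntegral.continuous_parametric_intervalIntegral_of_continuous'
  have h1 : Continuous (fun y : ℝ => riemannZeta (Q97.BS.pt y)) :=
    Q97.MM.zeta_line_cont (by norm_num)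
  unfold Function.uncurry Q97.QQ.fw Q97.MM.wt
  simp only
  have h2 : Continuous (fun z : ℝ × ℝ => ‖riemannZeta (Q97.BS.pt z.2)‖) :=
    (h1.comp continuous_snd).norm
  fun_prop

theorem adm_one {u : ℝ} (hu : 3 ≤ u) : Adm u 1 := by
  refine ⟨hu, le_rfl, ?_⟩
  have hL : 0 < Real.log u := Real.log_pos (by linarith)
  rw [le_div_iff₀ hL, one_mul]
  have := Real.log_le_sub_one_of_pos (show 0 < u by linarith)
  linarith

/-- windows with sharp edges -/
theorem plat {k : ℕ} (hk : 1 ≤ k) {c : ℝ} (hc : 1 < c) (hc3 : c ≤ 3) (B : ℕ) : ∃ C : ℝ, 0 < C ∧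
    ∀ᶠ T : ℝ in atTop, ∀ T1 T2 : ℝ, T / 2 ≤ T1 → T1 ≤ T2 → T2 ≤ T → ∀ ω : ℝ, 0 ≤ ω →
      ‖∫ u in T1..T2, tF k u 1 T ω‖ ≤
        C * T ^ (k * (c - 1 / 2) + 1 / 2) * Real.exp (-(ω * (c - 1 / 2))) + 1 / T ^ B := by
  obtain ⟨C, hC, hs⟩ := ser_osc hk hc hc3
  have hK := Q97.MM.KK_nonneg 0
  refine ⟨C * (Real.exp 7 * Q97.MM.KK 0 + 2 * (Real.exp 7 * Q97.MM.KK 0)) + 1, by positivity, ?_⟩
  filter_upwards [tF_lF k (B + 1) (c := c) (by linarith) hc3, eventually_ge_atTop (896 ^ 2)] with T h1 hT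
    T1 T2 hT1 hT12 hT2 ω hω
  have hT0 : 0 < T := by linarith
  obtain ⟨w', hw1, hw2, hw3, hw4⟩ := var_pw (c := c) (T1 := T1) (T2 := T2) (a := T / 4) (b := 2 * T)
    (by linarith) hc3 hT12 (by linarith)
  have h3 := hs T hT ω (T / 4) (2 * T) le_rfl (by linarith) le_rfl (pw c T1 T2) w'
    (Real.exp 7 * Q97.MM.KK 0) (2 * (Real.exp 7 * Q97.MM.KK 0)) (by positivity) (by positivity)
    (fun t _ => hw1 t) hw2.continuousOn (hw4 _) hw3
  set g : ℝ → ℂ := fun t => riemannZeta (pl c t) ^ (2 * k) * ff k c ω t with hg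
  have hgc : ContinuousOn g (Icc (T / 4) (2 * T)) := by
    intro t ht
    have ht1 : 1 ≤ t := by linarith [ht.1]
    have hs : 1 ≤ (pl c t).im := by rw [pl_im]; exact ht1
    have a1 : ContinuousAt riemannZeta (pl c t) :=
      ((Pool.Agent.W22.QS.qs_basic (pl c t) hs).2.2.1).continuousAt
    have a2 : ContinuousAt (fun t => riemannZeta (pl c t)) t :=
      ContinuousAt.comp (f := pl c) a1 (pl_deriv c t).continuousAt
    exact ((a2.pow _).mul (ff_deriv c ω ht1).continuousAt).continuousWithinAt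
  obtain ⟨s1, s2⟩ := swap (g := g) (c := c) (by linarith) hc3 (show T / 4 ≤ 2 * T by linarith) hT12 hgc
  have e1 : ∀ u : ℝ, lF k u 1 T ω c = ((Real.exp (-(ω * (c - 1 / 2))) : ℝ) : ℂ) *
      ∫ t in (T / 4)..(2 * T), g t * GG u 1 (pl c t) := by
    intro u
    unfold lF
    simp only [HH_line]
    rw [intervalIntegral.integral_const_mul]
    congr 1
    refine intervalIntegral.integral_congr fun t _ => ?_
    simp only [hg]
    ring
  have hli : IntervalIntegrable (fun u => lF k u 1 T ω c) volume T1 T2 := by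
    simp only [e1]
    exact s1.const_mul _
  have e2 : ∫ u in T1..T2, lF k u 1 T ω c = ((Real.exp (-(ω * (c - 1 / 2))) : ℝ) : ℂ) *
      ∫ t in (T / 4)..(2 * T), riemannZeta (pl c t) ^ (2 * k) * (ff k c ω t * pw c T1 T2 t) := by
    simp only [e1]
    rw [intervalIntegral.integral_const_mul, s2]
    congr 1
    refine intervalIntegral.integral_congr fun t _ => ?_
    simp only [hg]
    ring
  have hti : IntervalIntegrable (fun u => tF k u 1 T ω) volume T1 T2 :=
    (tF_cont k T ω).intervalIntegrable _ _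
  have h4 : ‖∫ u in T1..T2, lF k u 1 T ω c‖ ≤ C * (Real.exp 7 * Q97.MM.KK 0 +
      2 * (Real.exp 7 * Q97.MM.KK 0)) * T ^ (k * (c - 1 / 2) + 1 / 2) *
        Real.exp (-(ω * (c - 1 / 2))) := by
    rw [e2, norm_mul, Complex.norm_real, Real.norm_of_nonneg (Real.exp_pos _).le]
    have h5 := mul_le_mul_of_nonneg_left h3 (Real.exp_pos (-(ω * (c - 1 / 2)))).le
    refine h5.trans (le_of_eq ?_)
    ring
  have h6 : ‖∫ u in T1..T2, (tF k u 1 T ω - lF k u 1 T ω c)‖ ≤ 1 / T ^ (B + 1) * |T2 - T1| := by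
    refine intervalIntegral.norm_integral_le_of_norm_le_const fun u hu => ?_
    rw [uIoc_of_le hT12] at hu
    have hu3 : 3 ≤ u := by linarith [hu.1]
    exact h1 u 1 (by linarith [hu.1]) (hu.2.trans hT2) (adm_one hu3) ω hω
  have h7 : 1 / T ^ (B + 1) * |T2 - T1| ≤ 1 / T ^ B := by
    rw [abs_of_nonneg (by linarith), pow_succ]
    calc 1 / (T ^ B * T) * (T2 - T1) ≤ 1 / (T ^ B * T) * T := by
          gcongr
          linarith
      _ = _ := by field_simp
  have e3 : ∫ u in T1..T2, tF k u 1 T ω = (∫ u in T1..T2, (tF k u 1 T ω - lF k u 1 T ω c)) +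
      ∫ u in T1..T2, lF k u 1 T ω c := by
    rw [intervalIntegral.integral_sub hti hli]
    ring
  rw [e3]
  refine (norm_add_le _ _).trans ?_
  have h8 : C * (Real.exp 7 * Q97.MM.KK 0 + 2 * (Real.exp 7 * Q97.MM.KK 0)) *
      T ^ (k * (c - 1 / 2) + 1 / 2) * Real.exp (-(ω * (c - 1 / 2))) ≤
      (C * (Real.exp 7 * Q97.MM.KK 0 + 2 * (Real.exp 7 * Q97.MM.KK 0)) + 1) *
      T ^ (k * (c - 1 / 2) + 1 / 2) * Real.exp (-(ω * (c - 1 / 2))) := by
    gcongr
    linarith
  linarith

end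

end Q80.SF
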