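import Pool.Agent.Q80.SF.Tru

set_option autoImplicit false

/-! Quadrature with a power saving, beyond the band of the moment. -/

namespace Q80.SF

open MeasureTheory Set Filter Topology Complex
open Q97.MM (Adm)
open Q97.BS (ee ee_norm)
open Q97.QQ (fw fw_nonneg fw_cont EE mh m0 gw)

noncomputable section

theorem tF_neg (k : ℕ) (u U T ω : ℝ) : tF k u U T (-ω) = (starRingEnd ℂ) (tF k u U T ω) := by
  unfold tF
  rw [← intervalIntegral.intervalIntegral_conj]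
  refine intervalIntegral.integral_congr fun t _ => ?_
  rw [map_mul, Complex.conj_ofReal, ← Complex.exp_conj]
  congr 2
  rw [map_neg, map_mul, map_mul, Complex.conj_I, Complex.conj_ofReal, Complex.conj_ofReal]
  push_cast
  ring

theorem tF_abs (k : ℕ) (u U T ω : ℝ) : ‖tF k u U T |ω|‖ = ‖tF k u U T ω‖ := by
  rcases le_total 0 ω with h | h
  · rw [abs_of_nonneg h]
  · rw [abs_of_nonpos h, tF_neg, RCLike.norm_conj]

theorem ptF_abs (k : ℕ) (T T1 T2 ω : ℝ) : ‖∫ u in T1..T2, tF k u 1 T |ω|‖ = ‖∫ u in T1..T2, tF k u 1 T ω‖ := by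
  rcases le_total 0 ω with h | h
  · rw [abs_of_nonneg h]
  · rw [abs_of_nonpos h]
    simp only [tF_neg]
    rw [intervalIntegral.intervalIntegral_conj, RCLike.norm_conj]

theorem sum_exp {y : ℝ} (hy : 1 ≤ y) (s : Finset ℤ) (hs : (0 : ℤ) ∉ s) :
    ∑ m ∈ s, Real.exp (-(y * |(m : ℝ)|)) ≤ 2 * Real.exp (-y) * S0 := by
  have h1 : ∀ m ∈ s, Real.exp (-(y * |(m : ℝ)|)) ≤ 2 * Real.exp (-y) * (1 / (m : ℝ) ^ 2) := by
    intro m hm
    have hm0 : m ≠ 0 := fun h => hs (h ▸ hm)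
    have h1 : 1 ≤ m.natAbs := Int.natAbs_pos.mpr hm0
    have h2 := Q97.QQ.nat_exp m.natAbs h1 hy
    have h3 : ((m.natAbs : ℕ) : ℝ) = |(m : ℝ)| := by
      rw [Nat.cast_natAbs, Int.cast_abs]
    rw [h3, sq_abs] at h2
    exact h2
  refine (Finset.sum_le_sum h1).trans ?_
  rw [← Finset.mul_sum]
  have h2 : ∑ m ∈ s, 1 / (m : ℝ) ^ 2 ≤ S0 := S0_sum.sum_le_tsum s (fun m _ => by positivity)
  gcongr

theorem zero_ix (C1 T h : ℝ) : (0 : ℤ) ∉ ix C1 T h := by simp [ix]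

theorem card_ix {C1 T h : ℝ} (hC : 0 < C1) (hT : 1 ≤ T) (hh : 0 < h) (h1 : h ≤ 1) :
    ((ix C1 T h).card : ℝ) ≤ 2 * (C1 * Real.log T) := by
  have hL := Real.log_nonneg hT
  unfold ix
  set N : ℕ := ⌊C1 * Real.log T * h⌋₊ with hN
  have hmem : (0 : ℤ) ∈ Finset.Icc (-(N : ℤ)) N := by
    rw [Finset.mem_Icc]; omega
  rw [Finset.card_erase_of_mem hmem, Int.card_Icc]
  have h2 : ((N : ℤ) + 1 - -(N : ℤ)).toNat - 1 = 2 * N := by omega
  rw [h2]
  push_cast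
  have h3 : (N : ℝ) ≤ C1 * Real.log T * h := Nat.floor_le (by positivity)
  have h4 : C1 * Real.log T * h ≤ C1 * Real.log T * 1 := by gcongr
  linarith

/-- the choice of the line -/
theorem choose_c {k : ℕ} (hk : 1 ≤ k) {δ a : ℝ} (hδ : 0 < δ) (ha : 1 / 2 < a) (hδa : δ * (k + 1 - 2 * a) < 1) :
    ∃ c : ℝ, 1 < c ∧ c ≤ 3 ∧ (k - 1 / δ) * (c - 1 / 2) + 1 / 2 < a := by
  have hk0 : (1 : ℝ) ≤ k := by exact_mod_cast hk
  have h1 : (k + 1 - 2 * a : ℝ) < 1 / δ := by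
    rw [lt_div_iff₀ hδ]
    linarith
  set gap : ℝ := a - (k + 1 - 1 / δ) / 2 with hgap
  have hg : 0 < gap := by
    rw [hgap]
    linarith
  set η : ℝ := min 1 (gap / (2 * k)) with hη
  have hη0 : 0 < η := lt_min one_pos (by positivity)
  have hη1 : η ≤ 1 := min_le_left _ _
  have hη2 : η ≤ gap / (2 * k) := min_le_right _ _
  refine ⟨1 + η, by linarith, by linarith, ?_⟩
  rcases le_total ((k : ℝ) - 1 / δ) 0 with h | h
  · have : ((k : ℝ) - 1 / δ) * (1 + η - 1 / 2) ≤ 0 := mul_nonpos_of_nonpos_of_nonneg h (by linarith)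
    linarith
  · have hd : 0 < 1 / δ := by positivity
    have h2 : ((k : ℝ) - 1 / δ) * η ≤ k * (gap / (2 * k)) := by
      apply mul_le_mul _ hη2 hη0.le (by linarith)
      linarith
    have h3 : (k : ℝ) * (gap / (2 * k)) = gap / 2 := by field_simp
    rw [h3] at h2
    have e : ((k : ℝ) - 1 / δ) * (1 + η - 1 / 2) + 1 / 2 = (k + 1 - 1 / δ) / 2 + ((k : ℝ) - 1 / δ) * η := by
      ring
    rw [e]
    linarith

/-- summation of the bounds over the index set -/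
theorem sum_bd {k : ℕ} (hk : 1 ≤ k) {δ a : ℝ} (hδ : 0 < δ) (ha : 1 / 2 < a) (hδa : δ * (k + 1 - 2 * a) < 1)
    {c : ℝ} (hc : 1 < c) (hca : (k - 1 / δ) * (c - 1 / 2) + 1 / 2 < a) (C C1 : ℝ) (hC : 0 < C)
    (hC1 : 0 < C1) : ∀ᶠ T : ℝ in atTop, ∀ h : ℝ, 0 < h → h ≤ 2 * Real.pi * δ / Real.log T →
      h ≤ 1 ∧ ∀ A : ℤ → ℝ, (∀ m : ℤ, A m ≤ C * T ^ (k * (c - 1 / 2) + 1 / 2) *
        Real.exp (-(|2 * Real.pi * (m / h)| * (c - 1 / 2))) + 1 / T ^ 1) →
        ∑ m ∈ ix C1 T h, A m + 1 / T ^ 1 ≤ T ^ a := by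
  have hπ := Real.pi_pos
  have hS := S0_nonneg
  set e1 : ℝ := (k - 1 / δ) * (c - 1 / 2) + 1 / 2 with he1
  have hlog : Tendsto (fun T : ℝ => 2 * Real.pi * δ / Real.log T) atTop (𝓝 0) :=
    Real.tendsto_log_atTop.const_div_atTop _
  have h2 : ∀ᶠ T : ℝ in atTop, 2 * C * S0 * T ^ e1 + 2 * (C1 * Real.log T) * (1 / T ^ 1) + 1 / T ^ 1 ≤ T ^ a := by
    have i1 : Tendsto (fun T : ℝ => T ^ (a - e1)) atTop atTop := tendsto_rpow_atTop (by linarith)
    have i2 := Real.isLittleO_log_id_atTop.bound (c := 1) one_pos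
    have i3 : Tendsto (fun T : ℝ => T ^ a) atTop atTop := tendsto_rpow_atTop (by linarith)
    filter_upwards [i1.eventually_ge_atTop (4 * C * S0), i2, i3.eventually_ge_atTop (4 * C1 + 2),
      eventually_ge_atTop 1] with T j1 j2 j3 hT
    have hT0 : 0 < T := by linarith
    rw [Real.norm_of_nonneg (Real.log_nonneg hT), id, Real.norm_of_nonneg hT0.le, one_mul] at j2
    have k1 : 2 * C * S0 * T ^ e1 ≤ T ^ a / 2 := by
      have : T ^ a = T ^ (a - e1) * T ^ e1 := by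
        rw [← Real.rpow_add hT0]; congr 1; ring
      rw [this]
      have : 0 < T ^ e1 := Real.rpow_pos_of_pos hT0 _
      nlinarith
    have k2 : 2 * (C1 * Real.log T) * (1 / T ^ 1) ≤ 2 * C1 := by
      rw [pow_one, mul_one_div, div_le_iff₀ hT0]
      nlinarith
    have k3 : 1 / T ^ 1 ≤ 1 := by
      rw [pow_one, div_le_one hT0]
      exact hT
    linarith
  have h3 : ∀ᶠ T : ℝ in atTop, 1 ≤ 1 / δ * Real.log T * (c - 1 / 2) := by
    have i1 : Tendsto (fun T : ℝ => 1 / δ * Real.log T * (c - 1 / 2)) atTop atTop := by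
      have : 0 < c - 1 / 2 := by linarith
      exact (Real.tendsto_log_atTop.const_mul_atTop (by positivity)).atTop_mul_const this
    exact i1.eventually_ge_atTop 1
  filter_upwards [h2, h3, hlog.eventually (gt_mem_nhds one_pos), eventually_ge_atTop 3] with T j1 j2 j3 hT3
    h hh hhL
  have hT0 : 0 < T := by linarith
  have hL : 0 < Real.log T := Real.log_pos (by linarith)
  have hh1 : h ≤ 1 := hhL.trans j3.le
  refine ⟨hh1, fun A hA => ?_⟩
  have hfreq : 1 / δ * Real.log T ≤ 2 * Real.pi / h := by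
    rw [le_div_iff₀ hh]
    calc 1 / δ * Real.log T * h ≤ 1 / δ * Real.log T * (2 * Real.pi * δ / Real.log T) := by gcongr
      _ = 2 * Real.pi := by field_simp
  set y := 1 / δ * Real.log T * (c - 1 / 2) with hy
  have hA2 : ∀ m ∈ ix C1 T h, A m ≤ C * T ^ (k * (c - 1 / 2) + 1 / 2) *
      Real.exp (-(y * |(m : ℝ)|)) + 1 / T ^ 1 := by
    intro m _
    refine (hA m).trans ?_
    have h4 : y * |(m : ℝ)| ≤ |2 * Real.pi * (m / h)| * (c - 1 / 2) := by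
      rw [abs_mul, abs_div, abs_of_pos hh, abs_of_pos (by positivity : 0 < 2 * Real.pi), hy]
      have hc0 : 0 ≤ c - 1 / 2 := by linarith
      calc 1 / δ * Real.log T * (c - 1 / 2) * |(m : ℝ)| = 1 / δ * Real.log T * ((c - 1 / 2) * |(m : ℝ)|) := by
            ring
        _ ≤ 2 * Real.pi / h * ((c - 1 / 2) * |(m : ℝ)|) := by gcongr
        _ = _ := by ring
    have h5 : Real.exp (-(|2 * Real.pi * (m / h)| * (c - 1 / 2))) ≤ Real.exp (-(y * |(m : ℝ)|)) :=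
      Real.exp_le_exp.2 (by linarith)
    gcongr
  have h6 := Finset.sum_le_sum hA2
  rw [Finset.sum_add_distrib, Finset.sum_const, nsmul_eq_mul, ← Finset.mul_sum] at h6
  have h7 := sum_exp j2 (ix C1 T h) (zero_ix C1 T h)
  have h8 := card_ix hC1 (by linarith : (1 : ℝ) ≤ T) hh hh1
  have h9 : T ^ (k * (c - 1 / 2) + 1 / 2) * Real.exp (-y) = T ^ e1 := by
    have : Real.exp (-y) = T ^ (-(1 / δ * (c - 1 / 2))) := by
      rw [Real.rpow_def_of_pos hT0]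
      congr 1
      rw [hy]; ring
    rw [this, ← Real.rpow_add hT0]
    congr 1
    rw [he1]; ring
  have h10 : C * T ^ (k * (c - 1 / 2) + 1 / 2) * ∑ m ∈ ix C1 T h, Real.exp (-(y * |(m : ℝ)|)) ≤
      2 * C * S0 * T ^ e1 := by
    calc C * T ^ (k * (c - 1 / 2) + 1 / 2) * ∑ m ∈ ix C1 T h, Real.exp (-(y * |(m : ℝ)|))
        ≤ C * T ^ (k * (c - 1 / 2) + 1 / 2) * (2 * Real.exp (-y) * S0) := by gcongr
      _ = 2 * C * S0 * (T ^ (k * (c - 1 / 2) + 1 / 2) * Real.exp (-y)) := by ring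
      _ = _ := by rw [h9]
  have h11 : ((ix C1 T h).card : ℝ) * (1 / T ^ 1) ≤ 2 * (C1 * Real.log T) * (1 / T ^ 1) := by gcongr
  linarith

/-- Quadrature in Gaussian windows. -/
theorem quad_w {k : ℕ} (hk : 1 ≤ k) {δ a : ℝ} (hδ : 0 < δ) (ha : 1 / 2 < a)
    (hδa : δ * (k + 1 - 2 * a) < 1) : ∀ᶠ T : ℝ in atTop, ∀ U : ℝ, Adm T U → Integrable (fw k T U) ∧
      ∀ h : ℝ, 0 < h → h ≤ 2 * Real.pi * δ / Real.log T → ∀ θ : ℝ,
        Summable (fun n : ℤ => fw k T U (θ + n * h)) ∧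
        |h * ∑' n : ℤ, fw k T U (θ + n * h) - ∫ y, fw k T U y| ≤ T ^ a := by
  obtain ⟨c, hc, hc3, hca⟩ := choose_c hk hδ ha hδa
  obtain ⟨C, hC, hs⟩ := single hk hc hc3 1
  obtain ⟨C1, hC1k, ht⟩ := trunc hk 1
  have hC1 : 0 < C1 := lt_of_lt_of_le (by exact_mod_cast hk) hC1k
  filter_upwards [hs, ht, sum_bd hk hδ ha hδa hc hca C C1 hC hC1, eventually_ge_atTop 3] with T h1 h2 h3
    hT3 U hA
  obtain ⟨g1, g2⟩ := h2 T U (by linarith) le_rfl hA
  refine ⟨g1, fun h hh hhL θ => ?_⟩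
  obtain ⟨hh1, h4⟩ := h3 h hh hhL
  obtain ⟨g3, g4⟩ := g2 h hh hh1 θ
  refine ⟨g3, ?_⟩
  have h5 := h4 (fun m => ‖tF k T U T (2 * Real.pi * (m / h))‖) (fun m => by
    rw [← tF_abs]
    exact h1 U hA |2 * Real.pi * (m / h)| (abs_nonneg _))
  refine le_trans ?_ h5
  rw [← Real.norm_eq_abs, ← Complex.norm_real]
  set E : ℂ := ((h * ∑' n : ℤ, fw k T U (θ + n * h) - ∫ y, fw k T U y : ℝ) : ℂ) with hE
  have e : E = (E - ∑ m ∈ ix C1 T h, ee (θ * (m / h)) * tF k T U T (2 * Real.pi * (m / h))) +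
      ∑ m ∈ ix C1 T h, ee (θ * (m / h)) * tF k T U T (2 * Real.pi * (m / h)) := by ring
  rw [e]
  refine (norm_add_le _ _).trans ?_
  have h6 : ‖∑ m ∈ ix C1 T h, ee (θ * (m / h)) * tF k T U T (2 * Real.pi * (m / h))‖ ≤
      ∑ m ∈ ix C1 T h, ‖tF k T U T (2 * Real.pi * (m / h))‖ := by
    refine norm_sum_le_of_le _ fun m _ => ?_
    rw [norm_mul, ee_norm, one_mul]
  linarith

end

end Q80.SF
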