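import Pool.Agent.Q80.SF.Ser
import Pool.Agent.W723.QS.Edge
import Pool.Agent.Q97.QQ.Exq

set_option autoImplicit false

/-! Shift of the line of integration, for the density of the moment against a Gaussian and a character. -/

namespace Q80.SF

open MeasureTheory Set Filter Topology Complex
open Pool.Agent.W188.QS
open Q97.MM (Adm)

noncomputable section

/-- the integrand -/
def HH (k : ℕ) (u U ω : ℝ) (s : ℂ) : ℂ := FF k s * GG u U s * cexp (-(ω * (s - 1 / 2)))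

theorem pl_half (t : ℝ) : pl (1 / 2) t = cp t := by
  unfold pl cp
  push_cast
  ring

theorem pt_eq (t : ℝ) : Q97.BS.pt t = cp t := by
  rw [← pl_half]
  rfl

theorem HH_crit (k : ℕ) (u U ω : ℝ) {t : ℝ} (ht : 1 ≤ t) :
    HH k u U ω (pl (1 / 2) t) = ((Q97.QQ.fw k u U t : ℝ) : ℂ) * cexp (-(I * ω * t)) := by
  unfold HH
  rw [pl_half, Pool.Agent.W338.QS.FF_line ht, Pool.Agent.W338.QS.GG_line]
  have e1 : -((ω : ℂ) * (cp t - 1 / 2)) = -(I * ω * t) := by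
    unfold cp; ring
  rw [e1]
  unfold Q97.QQ.fw Zk
  rw [pt_eq]
  push_cast
  rfl

theorem HH_line (k : ℕ) (u U ω c t : ℝ) :
    HH k u U ω (pl c t) = ((Real.exp (-(ω * (c - 1 / 2))) : ℝ) : ℂ) *
      (riemannZeta (pl c t) ^ (2 * k) * (ff k c ω t * GG u U (pl c t))) := by
  unfold HH FF ff
  have e1 : -((ω : ℂ) * (pl c t - 1 / 2)) = ((-(ω * (c - 1 / 2)) : ℝ) : ℂ) + -(I * ω * t) := by
    unfold pl; push_cast; ring
  rw [e1, Complex.exp_add, Complex.ofReal_exp]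
  ring

theorem GG_diff (u U : ℝ) : Differentiable ℂ (GG u U) := by
  unfold GG
  fun_prop

theorem HH_diff (k : ℕ) (u U ω : ℝ) {s : ℂ} (hs : 1 ≤ s.im) : DifferentiableAt ℂ (HH k u U ω) s := by
  have h1 : DifferentiableAt ℂ riemannZeta s := (Pool.Agent.W22.QS.qs_basic s hs).2.2.1
  have h2 := XX_d hs
  have h3 : DifferentiableAt ℂ (GG u U) s := GG_diff u U s
  have h4 : DifferentiableAt ℂ (fun s : ℂ => cexp (-((ω : ℂ) * (s - 1 / 2)))) s := by fun_prop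
  have h5 : DifferentiableAt ℂ (FF k) s := by
    unfold FF
    exact (h1.pow _).mul (h2.pow _)
  unfold HH
  exact (h5.mul h3).mul h4

theorem hor (k B : ℕ) : ∀ᶠ u : ℝ in atTop, ∀ U : ℝ, Adm u U → ∀ ω : ℝ, 0 ≤ ω → ∀ x t : ℝ, 1 / 2 ≤ x →
    x ≤ 3 → 1 ≤ t → t ≤ 4 * u → u / 4 ≤ |t - u| → ‖HH k u U ω (⟨x, t⟩ : ℂ)‖ ≤ 1 / u ^ B := by
  obtain ⟨-, -, -, -, -, -, -, -, ⟨K, hK, hX⟩, -⟩ := Pool.Agent.W338.QS.qs_line
  have h1 := (Q97.MM.tail_tendsto (5 * k + B) (η := √(1 / 8)) (Real.sqrt_pos.2 (by norm_num))).const_mul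
    ((112896 * Real.exp K) ^ k * Real.exp 7)
  rw [mul_zero] at h1
  filter_upwards [h1.eventually (gt_mem_nhds one_pos), eventually_ge_atTop 3] with u h2 hu U hA ω hω
    x t hx1 hx3 ht1 ht4 htu
  have hu0 : 0 < u := by linarith
  have hL := hA.log
  have hU1 := hA.2.1
  have hU0 : 0 < U := by linarith
  have hUu : U * Real.log u ≤ u := by
    have := hA.2.2
    rwa [le_div_iff₀ (by linarith)] at this
  have e0 : (√(1 / 8) * Real.log u) ^ 2 / 2 = Real.log u ^ 2 / 16 := by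
    rw [mul_pow, Real.sq_sqrt (by norm_num)]
    ring
  rw [e0] at h2
  have hz : ‖riemannZeta (⟨x, t⟩ : ℂ)‖ ≤ 42 * u := by
    have h1 := Pool.Agent.H388LH.zeta_growth (s := (⟨x, t⟩ : ℂ)) (by simp only; linarith)
      (by simpa using ht1)
    have h2 : ‖(⟨x, t⟩ : ℂ)‖ ≤ |x| + |t| := Complex.norm_le_abs_re_add_abs_im _
    rw [abs_of_nonneg (by linarith), abs_of_nonneg (by linarith)] at h2
    linarith
  have hx : ‖XX (⟨x, t⟩ : ℂ)‖ ≤ Real.exp K * (4 * u) ^ 3 := by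
    have h1 := (hX (⟨x, t⟩ : ℂ) hx1 (by simp only; linarith) ht1).2
    simp only at h1
    refine h1.trans (mul_le_mul_of_nonneg_left ?_ (Real.exp_pos K).le)
    calc t ^ (x - 1 / 2) ≤ (4 * u) ^ (x - 1 / 2) :=
          Real.rpow_le_rpow (by linarith) ht4 (by linarith)
      _ ≤ (4 * u) ^ (3 : ℝ) := Real.rpow_le_rpow_of_exponent_le (by linarith) (by linarith)
      _ = (4 * u) ^ 3 := by
          rw [show (3 : ℝ) = ((3 : ℕ) : ℝ) by norm_num, Real.rpow_natCast]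
  have hF : ‖FF k (⟨x, t⟩ : ℂ)‖ ≤ (112896 * Real.exp K) ^ k * u ^ (5 * k) := by
    unfold FF
    rw [norm_mul, norm_pow, norm_pow, pow_mul]
    calc (‖riemannZeta (⟨x, t⟩ : ℂ)‖ ^ 2) ^ k * ‖XX (⟨x, t⟩ : ℂ)‖ ^ k
        ≤ ((42 * u) ^ 2) ^ k * (Real.exp K * (4 * u) ^ 3) ^ k := by gcongr
      _ = (112896 * Real.exp K * u ^ 5) ^ k := by
          rw [← mul_pow]
          congr 1
          ring
      _ = _ := by rw [mul_pow, ← pow_mul]
  have hG : ‖GG u U (⟨x, t⟩ : ℂ)‖ ≤ Real.exp 7 * Real.exp (-(Real.log u ^ 2 / 16)) := by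
    rw [Pool.Agent.W723.QS.norm_GG u U x t hU0, ← Real.exp_add]
    apply Real.exp_le_exp.2
    rw [sub_div]
    have a1 : (x - 1 / 2) ^ 2 / U ^ 2 ≤ 7 := by
      rw [div_le_iff₀ (by positivity)]
      nlinarith
    have a2 : Real.log u ^ 2 / 16 ≤ (t - u) ^ 2 / U ^ 2 := by
      rw [div_le_div_iff₀ (by norm_num) (by positivity)]
      have b1 : (U * Real.log u) ^ 2 ≤ u ^ 2 := pow_le_pow_left₀ (by positivity) hUu 2
      have b2 : (u / 4) ^ 2 ≤ |t - u| ^ 2 := pow_le_pow_left₀ (by positivity) htu 2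
      rw [sq_abs] at b2
      nlinarith
    linarith
  have hE : ‖cexp (-((ω : ℂ) * ((⟨x, t⟩ : ℂ) - 1 / 2)))‖ ≤ 1 := by
    rw [Complex.norm_exp]
    apply Real.exp_le_one_iff.2
    have e : (-((ω : ℂ) * ((⟨x, t⟩ : ℂ) - 1 / 2))).re = -(ω * (x - 1 / 2)) := by
      rw [neg_re, re_ofReal_mul, sub_re]
      norm_num
    rw [e]
    have : 0 ≤ ω * (x - 1 / 2) := mul_nonneg hω (by linarith)
    linarith
  unfold HH
  rw [norm_mul, norm_mul]
  have h3 : u ^ (5 * k + B) ≤ (1 + u) ^ (5 * k + B) := pow_le_pow_left₀ hu0.le (by linarith) _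
  calc ‖FF k (⟨x, t⟩ : ℂ)‖ * ‖GG u U (⟨x, t⟩ : ℂ)‖ * ‖cexp (-((ω : ℂ) * ((⟨x, t⟩ : ℂ) - 1 / 2)))‖
      ≤ ((112896 * Real.exp K) ^ k * u ^ (5 * k)) *
        (Real.exp 7 * Real.exp (-(Real.log u ^ 2 / 16))) * 1 := by gcongr
    _ = (112896 * Real.exp K) ^ k * Real.exp 7 * (u ^ (5 * k + B) * Real.exp (-(Real.log u ^ 2 / 16))) *
        (1 / u ^ B) := by
        rw [pow_add]
        field_simp
    _ ≤ (112896 * Real.exp K) ^ k * Real.exp 7 *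
        ((1 + u) ^ (5 * k + B) * Real.exp (-(Real.log u ^ 2 / 16))) * (1 / u ^ B) := by
        gcongr
    _ ≤ 1 * (1 / u ^ B) := by
        gcongr
    _ = _ := one_mul _

/-- the shift -/
theorem rect {k : ℕ} {u U ω T c M : ℝ} (hc : 1 / 2 ≤ c) (hc3 : c ≤ 3) (hT : 4 ≤ T)
    (hM1 : ∀ x : ℝ, 1 / 2 ≤ x → x ≤ 3 → ‖HH k u U ω (⟨x, T / 4⟩ : ℂ)‖ ≤ M)
    (hM2 : ∀ x : ℝ, 1 / 2 ≤ x → x ≤ 3 → ‖HH k u U ω (⟨x, 2 * T⟩ : ℂ)‖ ≤ M) :
    ‖(∫ t in (T / 4)..(2 * T), HH k u U ω (pl (1 / 2) t)) -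
      ∫ t in (T / 4)..(2 * T), HH k u U ω (pl c t)‖ ≤ 5 * M := by
  have hM0 : 0 ≤ M := (norm_nonneg _).trans (hM1 (1 / 2) le_rfl (by norm_num))
  have h := Complex.integral_boundary_rect_eq_zero_of_differentiableOn (HH k u U ω)
    (⟨1 / 2, T / 4⟩ : ℂ) (⟨c, 2 * T⟩ : ℂ) (by
      intro s hs
      have h1 : s.im ∈ uIcc (T / 4) (2 * T) := hs.2
      rw [uIcc_of_le (by linarith)] at h1
      exact (HH_diff k u U ω (by linarith [h1.1])).differentiableWithinAt)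
  simp only at h
  have e1 : ∀ y : ℝ, (((1 / 2 : ℝ) : ℂ) + (y : ℂ) * I) = pl (1 / 2) y := fun y => rfl
  have e2 : ∀ y : ℝ, ((c : ℂ) + (y : ℂ) * I) = pl c y := fun y => rfl
  have e3 : ∀ x y : ℝ, ((x : ℂ) + (y : ℂ) * I) = (⟨x, y⟩ : ℂ) := fun x y => by
    rw [Complex.mk_eq_add_mul_I]
  have h3 : ‖∫ x in (1 / 2 : ℝ)..c, HH k u U ω ((x : ℂ) + ((T / 4 : ℝ) : ℂ) * I)‖ ≤ M * |c - 1 / 2| := by
    refine intervalIntegral.norm_integral_le_of_norm_le_const fun x hx => ?_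
    rw [uIoc_of_le hc] at hx
    rw [e3]
    exact hM1 x hx.1.le (hx.2.trans hc3)
  have h4 : ‖∫ x in (1 / 2 : ℝ)..c, HH k u U ω ((x : ℂ) + ((2 * T : ℝ) : ℂ) * I)‖ ≤ M * |c - 1 / 2| := by
    refine intervalIntegral.norm_integral_le_of_norm_le_const fun x hx => ?_
    rw [uIoc_of_le hc] at hx
    rw [e3]
    exact hM2 x hx.1.le (hx.2.trans hc3)
  rw [smul_eq_mul, smul_eq_mul] at h
  have h5 : I * ((∫ t in (T / 4)..(2 * T), HH k u U ω (pl (1 / 2) t)) -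
      ∫ t in (T / 4)..(2 * T), HH k u U ω (pl c t)) =
      (∫ x in (1 / 2 : ℝ)..c, HH k u U ω ((x : ℂ) + ((T / 4 : ℝ) : ℂ) * I)) -
      ∫ x in (1 / 2 : ℝ)..c, HH k u U ω ((x : ℂ) + ((2 * T : ℝ) : ℂ) * I) := by
    unfold pl
    linear_combination (-1 : ℂ) * h
  have h6 := congrArg norm h5
  rw [norm_mul, norm_I, one_mul] at h6
  rw [h6]
  refine (norm_sub_le _ _).trans ?_
  have h7 : |c - 1 / 2| ≤ 5 / 2 := by
    rw [abs_of_nonneg (by linarith)]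
    linarith
  nlinarith

end

end Q80.SF
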