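import Pool.Agent.Q80.SF.XXf
import Pool.Agent.W32.QS.Div

set_option autoImplicit false

/-! The integral on the line `Re s = c > 1`, term by term. -/

namespace Q80.SF

open MeasureTheory Set Filter Topology Complex
open Pool.Agent.W188.QS

noncomputable section

/-- divisor function, as a real number -/
def dk (k n : ℕ) : ℝ := (((ArithmeticFunction.zeta ^ (2 * k) : ArithmeticFunction ℕ) n : ℕ) : ℝ)

theorem dk_nonneg (k n : ℕ) : 0 ≤ dk k n := Nat.cast_nonneg _

theorem dk_zero (k : ℕ) : dk k 0 = 0 := by simp [dk]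

theorem dk_sum {k : ℕ} (hk : 1 ≤ k) {c : ℝ} (hc : 1 < c) :
    Summable (fun n : ℕ => dk k n * (n : ℝ) ^ (-c)) := by
  obtain ⟨-, -, -, -, h⟩ := Pool.Agent.W32.QS.qs_div (2 * k) (by omega)
  have h1 := (h (c : ℂ) (by simpa using hc)).1.norm
  refine h1.congr fun n => ?_
  rcases Nat.eq_zero_or_pos n with rfl | hn
  · rw [dk_zero]
    simp
  · rw [LSeries.term_of_ne_zero hn.ne', norm_div, Complex.norm_natCast,
      Complex.norm_natCast_cpow_of_pos hn, ofReal_re, Real.rpow_neg (Nat.cast_nonneg n), dk]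
    rfl

theorem zeta_ser {k : ℕ} (hk : 1 ≤ k) {c : ℝ} (hc : 1 < c) (t : ℝ) :
    HasSum (fun n : ℕ => ((dk k n * (n : ℝ) ^ (-c) : ℝ) : ℂ) * cexp (-(I * (Real.log n : ℝ) * t)))
      (riemannZeta (pl c t) ^ (2 * k)) := by
  obtain ⟨-, -, -, -, h⟩ := Pool.Agent.W32.QS.qs_div (2 * k) (by omega)
  obtain ⟨h1, h2⟩ := h (pl c t) (by rw [pl_re]; exact hc)
  rw [h2]
  have e : ∀ n : ℕ, (((ArithmeticFunction.zeta ^ (2 * k) : ArithmeticFunction ℕ) n : ℕ) : ℂ) *
      (n : ℂ) ^ (-pl c t) =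
      ((dk k n * (n : ℝ) ^ (-c) : ℝ) : ℂ) * cexp (-(I * (Real.log n : ℝ) * t)) := by
    intro n
    rcases Nat.eq_zero_or_pos n with rfl | hn
    · rw [dk_zero]
      simp
    · have hn0 : (0 : ℝ) < n := by exact_mod_cast hn
      have hnC : (n : ℂ) ≠ 0 := by exact_mod_cast hn.ne'
      have e1 : -pl c t = ((-c : ℝ) : ℂ) + -(t : ℂ) * I := by
        unfold pl; push_cast; ring
      rw [e1, Complex.cpow_add _ _ hnC]
      have e2 : (n : ℂ) ^ ((-c : ℝ) : ℂ) = (((n : ℝ) ^ (-c) : ℝ) : ℂ) := by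
        rw [Complex.ofReal_cpow hn0.le]
        simp
      have e3 : (n : ℂ) ^ (-(t : ℂ) * I) = cexp (-(I * (Real.log n : ℝ) * t)) := by
        rw [Complex.cpow_def_of_ne_zero hnC, ← Complex.natCast_log]
        congr 1
        ring
      rw [e2, e3, dk]
      push_cast
      ring
  have h3 : Summable (fun n : ℕ => (((ArithmeticFunction.zeta ^ (2 * k) : ArithmeticFunction ℕ) n : ℕ) : ℂ) *
      (n : ℂ) ^ (-pl c t)) := by
    refine h1.congr fun n => ?_
    rcases Nat.eq_zero_or_pos n with rfl | hn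
    · simp
    · rw [LSeries.term_of_ne_zero hn.ne', Complex.cpow_neg, div_eq_mul_inv]
  have h4 := h3.hasSum
  simp only [e] at h4 ⊢
  exact h4

/-- the integral on the line `Re s = c` against a weight of bounded variation -/
theorem ser_osc {k : ℕ} (hk : 1 ≤ k) {c : ℝ} (hc : 1 < c) (hc3 : c ≤ 3) :
    ∃ C : ℝ, 0 < C ∧ ∀ T : ℝ, 896 ^ 2 ≤ T → ∀ ω a b : ℝ, T / 4 ≤ a → a ≤ b → b ≤ 2 * T →
      ∀ (w w' : ℝ → ℂ) (V W : ℝ), 0 ≤ V → 0 ≤ W → (∀ t ∈ Icc a b, HasDerivAt w (w' t) t) →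
        ContinuousOn w' (Icc a b) → ‖w b‖ ≤ V → ∫ t in a..b, ‖w' t‖ ≤ W →
        ‖∫ t in a..b, riemannZeta (pl c t) ^ (2 * k) * (ff k c ω t * w t)‖ ≤
          C * T ^ (k * (c - 1 / 2) + 1 / 2) * (V + W) := by
  obtain ⟨C, hC, hx⟩ := xx_osc hk (c := c) (by linarith) hc3
  have hds := dk_sum hk hc
  set S : ℝ := ∑' n : ℕ, dk k n * (n : ℝ) ^ (-c) with hS
  have hS0 : 0 ≤ S := tsum_nonneg fun n => mul_nonneg (dk_nonneg _ _) (Real.rpow_nonneg (Nat.cast_nonneg _) _)
  refine ⟨C * (S + 1), by positivity, ?_⟩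
  intro T hT ω a b ha hab hb w w' V W hV hW hw hwc hwb hwW
  have hT0 : 0 < T := by linarith
  have hu : uIcc a b = Icc a b := uIcc_of_le hab
  have h1 : ∀ t ∈ Icc a b, 1 < t := fun t ht => by linarith [ht.1]
  have hfc : ∀ ω', ContinuousOn (ff k c ω') (Icc a b) := fun ω' t ht =>
    (ff_deriv c ω' (h1 t ht).le).continuousAt.continuousWithinAt
  have hwcont : ContinuousOn w (Icc a b) := fun t ht => (hw t ht).continuousAt.continuousWithinAt
  have hfw : ∀ ω', ContinuousOn (fun t => ff k c ω' t * w t) (Icc a b) := fun ω' => (hfc ω').mul hwcont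
  obtain ⟨M, hM⟩ := isCompact_Icc.exists_bound_of_continuousOn (hfw ω)
  have hterm : ∀ (n : ℕ) (t : ℝ), ((dk k n * (n : ℝ) ^ (-c) : ℝ) : ℂ) *
      cexp (-(I * (Real.log n : ℝ) * t)) * (ff k c ω t * w t) =
      ((dk k n * (n : ℝ) ^ (-c) : ℝ) : ℂ) * (ff k c (ω + Real.log n) t * w t) := by
    intro n t
    have e : ff k c (ω + Real.log n) t = cexp (-(I * (Real.log n : ℝ) * t)) * ff k c ω t := by
      unfold ff
      have : cexp (-(I * ((ω + Real.log n : ℝ) : ℂ) * t)) =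
          cexp (-(I * (Real.log n : ℝ) * t)) * cexp (-(I * ω * t)) := by
        rw [← Complex.exp_add]
        congr 1
        push_cast
        ring
      rw [this]
      ring
    rw [e]
    ring
  have hsum := intervalIntegral.hasSum_integral_of_dominated_convergence (μ := volume) (a := a) (b := b)
    (F := fun (n : ℕ) t => ((dk k n * (n : ℝ) ^ (-c) : ℝ) : ℂ) * (ff k c (ω + Real.log n) t * w t))
    (f := fun t => riemannZeta (pl c t) ^ (2 * k) * (ff k c ω t * w t))
    (fun (n : ℕ) _ => dk k n * (n : ℝ) ^ (-c) * M)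
    (fun n => by
      refine ContinuousOn.aestronglyMeasurable ?_ measurableSet_uIoc
      refine (continuousOn_const.mul (hfw _)).mono ?_
      rw [← hu]
      exact uIoc_subset_uIcc)
    (fun n => Eventually.of_forall fun t ht => by
      have ht' : t ∈ Icc a b := by
        rw [← hu]
        exact uIoc_subset_uIcc ht
      rw [← hterm, norm_mul, norm_mul]
      have e : -(I * ((Real.log n : ℝ) : ℂ) * (t : ℂ)) = ((-(Real.log n * t) : ℝ) : ℂ) * I := by
        push_cast; ring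
      rw [e, Complex.norm_exp_ofReal_mul_I, mul_one, Complex.norm_real,
        Real.norm_of_nonneg (mul_nonneg (dk_nonneg _ _) (Real.rpow_nonneg (Nat.cast_nonneg _) _))]
      exact mul_le_mul_of_nonneg_left (hM t ht')
        (mul_nonneg (dk_nonneg _ _) (Real.rpow_nonneg (Nat.cast_nonneg _) _)))
    (Eventually.of_forall fun t _ => hds.mul_right M)
    intervalIntegrable_const
    (Eventually.of_forall fun t _ => by
      have h2 := (zeta_ser hk hc t).mul_right (ff k c ω t * w t)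
      refine h2.congr_fun ?_
      intro n
      exact (hterm n t).symm)
  have hb1 : ∀ n : ℕ, ‖∫ t in a..b, ((dk k n * (n : ℝ) ^ (-c) : ℝ) : ℂ) *
      (ff k c (ω + Real.log n) t * w t)‖ ≤
      dk k n * (n : ℝ) ^ (-c) * (C * T ^ (k * (c - 1 / 2) + 1 / 2) * (V + W)) := by
    intro n
    rw [intervalIntegral.integral_const_mul, norm_mul, Complex.norm_real,
      Real.norm_of_nonneg (mul_nonneg (dk_nonneg _ _) (Real.rpow_nonneg (Nat.cast_nonneg _) _))]
    refine mul_le_mul_of_nonneg_left ?_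
      (mul_nonneg (dk_nonneg _ _) (Real.rpow_nonneg (Nat.cast_nonneg _) _))
    refine osc_weight hab (hfc _) hw hwc (fun y hy => ?_) (by positivity) hwb hwW
    exact hx T hT _ a y ha hy.1 (hy.2.trans hb)
  rw [← hsum.tsum_eq]
  refine (tsum_of_norm_bounded (hds.mul_right _).hasSum hb1).trans ?_
  rw [tsum_mul_right, ← hS]
  have h3 : 0 ≤ C * T ^ (k * (c - 1 / 2) + 1 / 2) * (V + W) := by positivity
  calc S * (C * T ^ (k * (c - 1 / 2) + 1 / 2) * (V + W))
      ≤ (S + 1) * (C * T ^ (k * (c - 1 / 2) + 1 / 2) * (V + W)) := by gcongr; linarith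
    _ = _ := by ring

end

end Q80.SF
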