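import Pool.Agent.Q80.SF.Qua

set_option autoImplicit false

/-! Quadrature with a power saving for windows with sharp edges. -/

namespace Q80.SF

open MeasureTheory Set Filter Topology Complex
open scoped ENNReal
open Q97.MM (Adm)
open Q97.BS (ee ee_norm)
open Q97.QQ (fw fw_nonneg fw_cont EE EE_nonneg mh m0 gw m0_gw mh_gw)

noncomputable section

theorem fw_one_bd (k : ℕ) (u y : ℝ) : fw k u 1 y ≤ 180 ^ (2 * k) * (1 + |u|) ^ (4 * k) *
    ((1 + |(y - u) / 1|) ^ (4 * k) * Real.exp (-(((y - u) / 1) ^ 2 / 2))) := by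
  rw [Q97.QQ.fw_one, Q97.QQ.wt_one]
  have h1 := Q97.QQ.zf_bd k y
  have h2 : 1 + |y| ≤ (1 + |u|) * (1 + |(y - u) / 1|) := by
    rw [div_one]
    have h3 : |y| ≤ |y - u| + |u| := by
      have := abs_add_le (y - u) u
      rwa [sub_add_cancel] at this
    nlinarith [mul_nonneg (abs_nonneg u) (abs_nonneg (y - u))]
  have h3 : (1 + |y|) ^ (4 * k) ≤ ((1 + |u|) * (1 + |(y - u) / 1|)) ^ (4 * k) :=
    pow_le_pow_left₀ (by positivity) h2 _
  rw [mul_pow] at h3
  have h4 : Real.exp (-(u - y) ^ 2) ≤ Real.exp (-(((y - u) / 1) ^ 2 / 2)) := by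
    apply Real.exp_le_exp.2
    rw [div_one]
    nlinarith [sq_nonneg (u - y)]
  calc Q97.QQ.zf k y * Real.exp (-(u - y) ^ 2)
      ≤ (180 ^ (2 * k) * ((1 + |u|) ^ (4 * k) * (1 + |(y - u) / 1|) ^ (4 * k))) *
        Real.exp (-(((y - u) / 1) ^ 2 / 2)) := by
        gcongr
        exact h1.trans (by gcongr)
    _ = _ := by ring

theorem fw_one_int (k : ℕ) (u : ℝ) : Integrable (fw k u 1) ∧
    EE k u ≤ 180 ^ (2 * k) * (1 + |u|) ^ (4 * k) * Q97.MM.KK (4 * k) := by
  have hi := (Q97.MM.scaled_integrable (4 * k) u one_pos).const_mul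
    (180 ^ (2 * k) * (1 + |u|) ^ (4 * k))
  refine ⟨hi.mono' (fw_cont k u 1).aestronglyMeasurable (Eventually.of_forall fun y => ?_), ?_⟩
  · rw [Real.norm_of_nonneg (fw_nonneg _ _ _ _)]
    exact fw_one_bd k u y
  · unfold EE
    refine (integral_mono_of_nonneg (Eventually.of_forall fun y => fw_nonneg _ _ _ _) hi
      (Eventually.of_forall fun y => fw_one_bd k u y)).trans (le_of_eq ?_)
    rw [integral_const_mul, Q97.MM.scaled_integral (4 * k) u one_pos, one_mul]

theorem EE_meas (k : ℕ) : Measurable (EE k) := by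
  have h1 : Continuous (fun y : ℝ => riemannZeta (Q97.BS.pt y)) :=
    Q97.MM.zeta_line_cont (by norm_num)
  have h2 : Continuous (fun z : ℝ × ℝ => ‖riemannZeta (Q97.BS.pt z.2)‖) :=
    (h1.comp continuous_snd).norm
  have h3 : Continuous (Function.uncurry fun u t => fw k u 1 t) := by
    unfold Function.uncurry Q97.QQ.fw Q97.MM.wt
    fun_prop
  exact (StronglyMeasurable.integral_prod_right (ν := volume) h3.stronglyMeasurable).measurable

theorem EE_ii (k : ℕ) {T1 T2 : ℝ} (h0 : 0 ≤ T1) (h : T1 ≤ T2) : IntervalIntegrable (EE k) volume T1 T2 := by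
  rw [intervalIntegrable_iff_integrableOn_Ioc_of_le h]
  refine Measure.integrableOn_of_bounded (M := 180 ^ (2 * k) * (1 + T2) ^ (4 * k) * Q97.MM.KK (4 * k))
    (by simp) (EE_meas k).aestronglyMeasurable ?_
  rw [ae_restrict_iff' measurableSet_Ioc]
  refine Eventually.of_forall fun u hu => ?_
  rw [Real.norm_of_nonneg (EE_nonneg k u)]
  refine (fw_one_int k u).2.trans ?_
  have hK := Q97.MM.KK_nonneg (4 * k)
  have : |u| ≤ T2 := by
    rw [abs_of_nonneg (by linarith [hu.1])]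
    exact hu.2
  gcongr

/-- the Riemann sum of the unit window -/
def pE (k : ℕ) (h u : ℝ) : ℝ := h * ∑' n : ℤ, fw k u 1 (n * h)

theorem pE_nonneg (k : ℕ) {h : ℝ} (hh : 0 < h) (u : ℝ) : 0 ≤ pE k h u :=
  mul_nonneg hh.le (tsum_nonneg fun n => fw_nonneg _ _ _ _)

theorem pE_ii {k : ℕ} (hk : 1 ≤ k) {δ a : ℝ} (hδ : 0 < δ) (ha : 1 / 2 < a)
    (hδa : δ * (k + 1 - 2 * a) < 1) : ∃ u₀ : ℝ, 3 ≤ u₀ ∧ ∀ T2 : ℝ, ∀ h : ℝ, 0 < h →
      h ≤ 2 * Real.pi * δ / Real.log T2 →
      (∀ u : ℝ, u₀ ≤ u → u ≤ T2 → ∫⁻ t, gw u t ∂mh k h = ENNReal.ofReal (pE k h u) ∧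
        |pE k h u - EE k u| ≤ u ^ a) ∧
      ∀ T1 : ℝ, u₀ ≤ T1 → T1 ≤ T2 → IntervalIntegrable (pE k h) volume T1 T2 := by
  obtain ⟨u₁, h₁⟩ := eventually_atTop.mp (quad_w hk hδ ha hδa)
  refine ⟨max u₁ 3, le_max_right _ _, fun T2 h hh hhL => ?_⟩
  have hπ := Real.pi_pos
  have key : ∀ u : ℝ, max u₁ 3 ≤ u → u ≤ T2 → ∫⁻ t, gw u t ∂mh k h = ENNReal.ofReal (pE k h u) ∧
        |pE k h u - EE k u| ≤ u ^ a := by
    intro u hu hu2
    have hu3 : 3 ≤ u := (le_max_right _ _).trans hu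
    have hlu : 0 < Real.log u := Real.log_pos (by linarith)
    have hhu : h ≤ 2 * Real.pi * δ / Real.log u := by
      refine hhL.trans ?_
      apply div_le_div_of_nonneg_left (by positivity) hlu
      exact Real.log_le_log (by linarith) hu2
    obtain ⟨-, g2⟩ := h₁ u ((le_max_left _ _).trans hu) 1 (adm_one hu3)
    obtain ⟨g3, g4⟩ := g2 h hh hhu 0
    simp only [zero_add] at g3 g4
    exact ⟨mh_gw k hh g3, g4⟩
  refine ⟨key, fun T1 hT1 hT12 => ?_⟩
  have hT13 : 3 ≤ T1 := (le_max_right _ _).trans hT1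
  rw [intervalIntegrable_iff_integrableOn_Ioc_of_le hT12]
  have hm : Measurable (fun u => (∫⁻ t, gw u t ∂mh k h).toReal) :=
    (Measurable.lintegral_prod_right Q97.QQ.gw_meas2).ennreal_toReal
  have hEi : IntegrableOn (fun u => EE k u + T2 ^ a) (Ioc T1 T2) := by
    have h1 := EE_ii k (by linarith : (0 : ℝ) ≤ T1) hT12
    rw [intervalIntegrable_iff_integrableOn_Ioc_of_le hT12] at h1
    exact h1.add (by simp)
  have hP : IntegrableOn (fun u => (∫⁻ t, gw u t ∂mh k h).toReal) (Ioc T1 T2) := by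
    refine hEi.mono' hm.aestronglyMeasurable ?_
    rw [ae_restrict_iff' measurableSet_Ioc]
    refine Eventually.of_forall fun u hu => ?_
    obtain ⟨k1, k2⟩ := key u (hT1.trans hu.1.le) hu.2
    rw [k1, ENNReal.toReal_ofReal (pE_nonneg k hh u), Real.norm_of_nonneg (pE_nonneg k hh u)]
    have h2 := (abs_le.mp k2).2
    have h3 : u ^ a ≤ T2 ^ a := Real.rpow_le_rpow (by linarith [hu.1]) hu.2 (by linarith)
    linarith
  refine hP.congr_fun (fun u hu => ?_) measurableSet_Ioc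
  obtain ⟨k1, -⟩ := key u (hT1.trans hu.1.le) hu.2
  show (∫⁻ t, gw u t ∂mh k h).toReal = pE k h u
  rw [k1, ENNReal.toReal_ofReal (pE_nonneg k hh u)]

/-- one dyadic block -/
theorem block {k : ℕ} (hk : 1 ≤ k) {δ a : ℝ} (hδ : 0 < δ) (ha : 1 / 2 < a)
    (hδa : δ * (k + 1 - 2 * a) < 1) : ∃ u₀ : ℝ, 3 ≤ u₀ ∧ ∀ T T1 T2 : ℝ, u₀ ≤ T1 → T / 2 ≤ T1 → T1 ≤ T2 →
      T2 ≤ T → ∀ h : ℝ, 0 < h → h ≤ 2 * Real.pi * δ / Real.log T →
        |∫ u in T1..T2, (pE k h u - EE k u)| ≤ T ^ a := by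
  obtain ⟨c, hc, hc3, hca⟩ := choose_c hk hδ ha hδa
  obtain ⟨C, hC, hs⟩ := plat hk hc hc3 1
  obtain ⟨C1, hC1k, ht⟩ := trunc hk 2
  have hC1 : 0 < C1 := lt_of_lt_of_le (by exact_mod_cast hk) hC1k
  obtain ⟨u₁, hu₁, hii⟩ := pE_ii hk hδ ha hδa
  obtain ⟨u₂, h₂⟩ := eventually_atTop.mp (hs.and (ht.and (sum_bd hk hδ ha hδa hc hca C C1 hC hC1)))
  refine ⟨max u₁ u₂, hu₁.trans (le_max_left _ _), ?_⟩
  intro T T1 T2 hT1 hTT1 hT12 hT2 h hh hhL
  have hu1 : u₁ ≤ T1 := (le_max_left _ _).trans hT1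
  have hu2 : u₂ ≤ T := by
    have := le_max_right u₁ u₂
    linarith
  have hT3 : 3 ≤ T := by linarith
  have hT0 : 0 < T := by linarith
  have hπ := Real.pi_pos
  obtain ⟨h1, h2, h3⟩ := h₂ T hu2
  obtain ⟨hh1, h4⟩ := h3 h hh hhL
  have hhL2 : h ≤ 2 * Real.pi * δ / Real.log T2 := by
    refine hhL.trans ?_
    apply div_le_div_of_nonneg_left (by positivity) (Real.log_pos (by linarith))
    exact Real.log_le_log (by linarith) hT2
  obtain ⟨-, hp⟩ := hii T2 h hh hhL2
  have hpi := hp T1 hu1 hT12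
  have hqi := EE_ii k (by linarith : (0 : ℝ) ≤ T1) hT12
  have hEi : IntervalIntegrable (fun u => ((pE k h u - EE k u : ℝ) : ℂ)) volume T1 T2 := by
    have h0 := hpi.sub hqi
    exact ⟨h0.1.ofReal, h0.2.ofReal⟩
  set Sm : ℝ → ℂ := fun u => ∑ m ∈ ix C1 T h, ee (0 * (m / h)) * tF k u 1 T (2 * Real.pi * (m / h)) with hSm
  have hti : ∀ m : ℤ, IntervalIntegrable (fun u => ee (0 * (m / h)) * tF k u 1 T (2 * Real.pi * (m / h)))
      volume T1 T2 := fun m => ((tF_cont k T _).intervalIntegrable _ _).const_mul _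
  have hSi : IntervalIntegrable Sm volume T1 T2 := by
    have hcont : Continuous Sm := by
      simp only [hSm]
      exact continuous_finsetSum _ fun m _ => continuous_const.mul (tF_cont k T _)
    exact hcont.intervalIntegrable _ _
  have h5 := h4 (fun m => ‖∫ u in T1..T2, tF k u 1 T (2 * Real.pi * (m / h))‖) (fun m => by
    rw [← ptF_abs]
    exact h1 T1 T2 hTT1 hT12 hT2 |2 * Real.pi * (m / h)| (abs_nonneg _))
  refine le_trans ?_ h5
  rw [← Real.norm_eq_abs, ← Complex.norm_real, ← intervalIntegral.integral_ofReal]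
  have e : ∫ u in T1..T2, ((pE k h u - EE k u : ℝ) : ℂ) =
      (∫ u in T1..T2, (((pE k h u - EE k u : ℝ) : ℂ) - Sm u)) + ∫ u in T1..T2, Sm u := by
    rw [intervalIntegral.integral_sub hEi hSi]
    ring
  rw [e]
  refine (norm_add_le _ _).trans ?_
  have h6 : ‖∫ u in T1..T2, (((pE k h u - EE k u : ℝ) : ℂ) - Sm u)‖ ≤ 1 / T ^ 2 * |T2 - T1| := by
    refine intervalIntegral.norm_integral_le_of_norm_le_const fun u hu => ?_
    rw [uIoc_of_le hT12] at hu
    obtain ⟨-, g2⟩ := h2 u 1 (by linarith [hu.1]) (hu.2.trans hT2) (adm_one (by linarith [hu.1]))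
    obtain ⟨-, g4⟩ := g2 h hh hh1 0
    simp only [zero_add] at g4
    exact g4
  have h7 : 1 / T ^ 2 * |T2 - T1| ≤ 1 / T ^ 1 := by
    rw [abs_of_nonneg (by linarith), pow_two, pow_one]
    calc 1 / (T * T) * (T2 - T1) ≤ 1 / (T * T) * T := by
          gcongr
          linarith
      _ = _ := by field_simp
  have h8 : ‖∫ u in T1..T2, Sm u‖ ≤
      ∑ m ∈ ix C1 T h, ‖∫ u in T1..T2, tF k u 1 T (2 * Real.pi * (m / h))‖ := by
    simp only [hSm]
    rw [intervalIntegral.integral_finsetSum fun m _ => hti m]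
    refine norm_sum_le_of_le _ fun m _ => ?_
    rw [intervalIntegral.integral_const_mul, norm_mul, ee_norm, one_mul]
  linarith

/-- the whole range -/
theorem long {k : ℕ} (hk : 1 ≤ k) {δ a : ℝ} (hδ : 0 < δ) (ha : 1 / 2 < a)
    (hδa : δ * (k + 1 - 2 * a) < 1) : ∃ u₀ C : ℝ, 3 ≤ u₀ ∧ 0 < C ∧ ∀ T : ℝ, u₀ ≤ T →
      ∀ h : ℝ, 0 < h → h ≤ 2 * Real.pi * δ / Real.log T →
        (∀ u : ℝ, u₀ ≤ u → u ≤ T → ∫⁻ t, gw u t ∂mh k h = ENNReal.ofReal (pE k h u) ∧
          |pE k h u - EE k u| ≤ u ^ a) ∧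
        IntervalIntegrable (pE k h) volume u₀ T ∧
        |∫ u in u₀..T, (pE k h u - EE k u)| ≤ C * T ^ a := by
  obtain ⟨u₁, hu₁, hb⟩ := block hk hδ ha hδa
  obtain ⟨u₂, hu₂, hii⟩ := pE_ii hk hδ ha hδa
  set u₀ := max u₁ u₂ with hu₀
  have hu₀3 : 3 ≤ u₀ := hu₁.trans (le_max_left _ _)
  have hπ := Real.pi_pos
  set x : ℝ := (1 / 2 : ℝ) ^ a with hx
  have hx0 : 0 < x := by positivity
  have hx1 : x < 1 := Real.rpow_lt_one (by norm_num) (by norm_num) (by linarith)
  set C : ℝ := 1 / (1 - x) with hC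
  have h1x : 0 < 1 - x := by linarith
  have hC0 : 0 < C := by positivity
  have hC1 : 1 ≤ C := by
    rw [hC, le_div_iff₀ h1x]
    linarith
  refine ⟨u₀, C, hu₀3, hC0, ?_⟩
  have key : ∀ n : ℕ, ∀ T : ℝ, u₀ ≤ T → T ≤ 2 ^ n * u₀ → ∀ h : ℝ, 0 < h →
      h ≤ 2 * Real.pi * δ / Real.log T → |∫ u in u₀..T, (pE k h u - EE k u)| ≤ C * T ^ a := by
    intro n
    induction n with
    | zero =>
      intro T hT hT2 h hh hhL
      rw [pow_zero, one_mul] at hT2
      have : T = u₀ := le_antisymm hT2 hT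
      rw [this, intervalIntegral.integral_same, abs_zero]
      positivity
    | succ n ih =>
      intro T hT hT2 h hh hhL
      have hTa : 0 < T ^ a := Real.rpow_pos_of_pos (by linarith) _
      rcases le_total T (2 * u₀) with hc | hc
      · refine (hb T u₀ T (le_max_left _ _) (by linarith) hT le_rfl h hh hhL).trans ?_
        nlinarith
      · have hT' : u₀ ≤ T / 2 := by linarith
        have hhL' : h ≤ 2 * Real.pi * δ / Real.log (T / 2) := by
          refine hhL.trans ?_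
          apply div_le_div_of_nonneg_left (by positivity) (Real.log_pos (by linarith))
          exact Real.log_le_log (by linarith) (by linarith)
        have h1 := ih (T / 2) hT' (by rw [pow_succ] at hT2; linarith) h hh hhL'
        have h2 := hb T (T / 2) T ((le_max_left _ _).trans hT') le_rfl (by linarith) le_rfl h hh hhL
        obtain ⟨-, hp⟩ := hii T h hh hhL
        have i1 : IntervalIntegrable (fun u => pE k h u - EE k u) volume u₀ T :=
          (hp u₀ (le_max_right _ _) hT).sub (EE_ii k (by linarith) hT)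
        have i2 : IntervalIntegrable (fun u => pE k h u - EE k u) volume u₀ (T / 2) := by
          refine i1.mono_set ?_
          rw [uIcc_of_le hT, uIcc_of_le hT']
          exact Icc_subset_Icc le_rfl (by linarith)
        have i3 : IntervalIntegrable (fun u => pE k h u - EE k u) volume (T / 2) T := by
          refine i1.mono_set ?_
          rw [uIcc_of_le hT, uIcc_of_le (by linarith)]
          exact Icc_subset_Icc hT' le_rfl
        rw [← intervalIntegral.integral_add_adjacent_intervals i2 i3]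
        refine (abs_add_le _ _).trans ((add_le_add h1 h2).trans ?_)
        have e : (T / 2) ^ a = x * T ^ a := by
          rw [hx, ← Real.mul_rpow (by norm_num) (by linarith)]
          congr 1
          ring
        rw [e]
        have e2 : C * x + 1 = C := by
          rw [hC]
          field_simp
          ring
        calc C * (x * T ^ a) + T ^ a = (C * x + 1) * T ^ a := by ring
          _ ≤ C * T ^ a := by rw [e2]
  intro T hT h hh hhL
  obtain ⟨q1, q2⟩ := hii T h hh hhL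
  refine ⟨fun u hu huT => q1 u ((le_max_right _ _).trans hu) huT, q2 u₀ (le_max_right _ _) hT, ?_⟩
  obtain ⟨n, hn⟩ := pow_unbounded_of_one_lt (T / u₀) (by norm_num : (1 : ℝ) < 2)
  refine key n T hT ?_ h hh hhL
  rw [div_lt_iff₀ (by linarith)] at hn
  exact hn.le

end

end Q80.SF
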