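import Pool.Agent.Q80.SF.Pla
import Pool.Agent.Q97.QQ.Mh

set_option autoImplicit false

/-! Poisson summation with finitely many terms. -/

namespace Q80.SF

open MeasureTheory Set Filter Topology Complex FourierTransform
open Q97.MM (Adm)
open Q97.BS (ee ee_norm ee_add tR tR_int fourier_ee)
open Q97.QQ (fw fw_nonneg fw_cont psi psi_cont psi_cmp psi_fourier psi_summable tR_sum' tR_nonneg)

noncomputable section

/-- `∑ 1/m²` -/
def S0 : ℝ := ∑' m : ℤ, 1 / (m : ℝ) ^ 2

theorem S0_sum : Summable (fun m : ℤ => 1 / (m : ℝ) ^ 2) :=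
  Real.summable_one_div_int_pow.mpr (by norm_num)

theorem S0_nonneg : 0 ≤ S0 := tsum_nonneg fun m => by positivity

theorem split_tsum {F : ℤ → ℂ} {P : ℝ} {N : ℕ} (hs : Summable F) (hP : 0 ≤ P)
    (hb : ∀ m : ℤ, m ∉ Finset.Icc (-(N : ℤ)) N → ‖F m‖ ≤ P * (1 / (m : ℝ) ^ 2)) :
    ‖∑' m, F m - ∑ m ∈ Finset.Icc (-(N : ℤ)) N, F m‖ ≤ P * S0 := by
  classical
  set s := Finset.Icc (-(N : ℤ)) N with hs'
  have h1 : HasSum (fun m => if m ∈ s then F m else 0) (∑ m ∈ s, F m) := by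
    have h2 : HasSum (fun m => if m ∈ s then F m else 0) (∑ m ∈ s, (if m ∈ s then F m else 0)) :=
      hasSum_sum_of_ne_finset_zero (fun m hm => by simp [hm])
    have e : ∑ m ∈ s, (if m ∈ s then F m else 0) = ∑ m ∈ s, F m :=
      Finset.sum_congr rfl fun m hm => by simp [hm]
    rwa [e] at h2
  have h3 := hs.hasSum.sub h1
  rw [← h3.tsum_eq, S0, ← tsum_mul_left]
  refine tsum_of_norm_bounded (S0_sum.mul_left P).hasSum ?_ |>.trans (le_of_eq ?_)
  · intro m
    by_cases hm : m ∈ s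
    · simp only [hm, if_true, sub_self, norm_zero]
      positivity
    · simp only [hm, if_false, sub_zero]
      exact hb m hm
  · rfl

/-- the density is very small far from the centre -/
theorem tail (k D : ℕ) : ∀ᶠ u : ℝ in atTop, ∀ U : ℝ, Adm u U → ∀ y : ℝ, u / 4 ≤ |y - u| →
    fw k u U y ≤ tR D u y := by
  filter_upwards [Q97.QQ.gen (4 * k) D (180 ^ (2 * k)) (c := 3 / 64) (by norm_num),
    eventually_ge_atTop 3] with u h1 hu U hA y hy
  have hu0 : 0 < u := by linarith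
  have hU := hA.pos
  have hL := hA.log
  have hUu : U * Real.log u ≤ u := by
    have := hA.2.2
    rwa [le_div_iff₀ (by linarith)] at this
  set z := (y - u) / U with hz
  have hz2 : Real.log u ^ 2 / 16 ≤ z ^ 2 := by
    rw [hz, div_pow, div_le_div_iff₀ (by norm_num) (by positivity)]
    have b1 : (U * Real.log u) ^ 2 ≤ u ^ 2 := pow_le_pow_left₀ (by positivity) hUu 2
    have b2 : (u / 4) ^ 2 ≤ |y - u| ^ 2 := pow_le_pow_left₀ (by positivity) hy 2
    rw [sq_abs] at b2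
    nlinarith
  have h2 := h1 U hA y (Real.exp (-(3 / 4 * z ^ 2))) (Real.exp_pos _).le (by
    apply Real.exp_le_exp.2
    linarith)
  refine le_trans ?_ h2
  have h3 := Q97.QQ.zf_bd k y
  have e1 : fw k u U y = Q97.QQ.zf k y * Real.exp (-(z ^ 2)) := by
    unfold fw Q97.QQ.zf Q97.MM.wt
    rfl
  have e2 : Real.exp (-(z ^ 2)) = Real.exp (-(z ^ 2 / 4)) * Real.exp (-(3 / 4 * z ^ 2)) := by
    rw [← Real.exp_add]
    congr 1
    ring
  rw [e1, e2, ← mul_assoc]
  gcongr

/-- integrability and summability, comparison of the quadrature errors -/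
theorem cmp {k : ℕ} (hk : 1 ≤ k) (D : ℕ) : ∀ᶠ u : ℝ in atTop, ∀ U : ℝ, Adm u U →
    Integrable (fw k u U) ∧ (∀ ν : ℝ, ‖𝓕 (psi k u U) ν - 𝓕 (fun y => ((fw k u U y : ℝ) : ℂ)) ν‖ ≤
      Real.pi / u ^ D) ∧ ∀ h : ℝ, 0 < h → h ≤ 1 → ∀ θ : ℝ,
        Summable (fun n : ℤ => fw k u U (θ + n * h)) ∧
        ‖((h * ∑' n : ℤ, fw k u U (θ + n * h) - ∫ y, fw k u U y : ℝ) : ℂ) -
          ((h : ℂ) * ∑' n : ℤ, psi k u U (θ + n * h) - ∫ y, psi k u U y)‖ ≤ 5 * Real.pi / u ^ D := by
  filter_upwards [psi_cmp hk D, eventually_ge_atTop 3] with u h1 hu U hA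
  have hu0 : 0 < u := by linarith
  have hπ := Real.pi_pos
  obtain ⟨t3, t4⟩ := tR_int D hu0
  have hd : ∀ y, ‖psi k u U y - ((fw k u U y : ℝ) : ℂ)‖ ≤ tR D u y := h1 U hA
  have hfc : Continuous (fun y => ((fw k u U y : ℝ) : ℂ)) :=
    Complex.continuous_ofReal.comp (fw_cont k u U)
  have p2 : Integrable (psi k u U) := (psi_summable hk hA one_pos le_rfl 0).2
  have d2 : Integrable (fun y => psi k u U y - ((fw k u U y : ℝ) : ℂ)) :=
    t3.mono' ((psi_cont k u U).sub hfc).aestronglyMeasurable (Eventually.of_forall hd)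
  have f2c : Integrable (fun y => ((fw k u U y : ℝ) : ℂ)) := by
    refine (p2.sub d2).congr (Eventually.of_forall fun y => ?_)
    simp
  have f2 : Integrable (fw k u U) := by
    refine f2c.norm.congr (Eventually.of_forall fun y => ?_)
    show ‖((fw k u U y : ℝ) : ℂ)‖ = fw k u U y
    rw [Complex.norm_real, Real.norm_of_nonneg (fw_nonneg _ _ _ _)]
  refine ⟨f2, fun ν => ?_, fun h hh hh1 θ => ?_⟩
  · rw [fourier_ee, fourier_ee]
    have hee : Continuous (fun v : ℝ => ee (-(v * ν))) := by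
      have := Q97.BS.ee_continuous
      fun_prop
    have hi1 : Integrable (fun v => ee (-(v * ν)) * psi k u U v) :=
      p2.bdd_mul (c := 1) hee.aestronglyMeasurable (Eventually.of_forall fun v => (ee_norm _).le)
    have hi2 : Integrable (fun v => ee (-(v * ν)) * ((fw k u U v : ℝ) : ℂ)) :=
      f2c.bdd_mul (c := 1) hee.aestronglyMeasurable (Eventually.of_forall fun v => (ee_norm _).le)
    rw [← integral_sub hi1 hi2]
    refine (norm_integral_le_of_norm_le t3 (Eventually.of_forall fun y => ?_)).trans t4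
    rw [← mul_sub, norm_mul, ee_norm, one_mul]
    exact hd y
  · obtain ⟨p1, -⟩ := psi_summable hk hA hh hh1 θ
    obtain ⟨t1, t2⟩ := tR_sum' D hu0 hh hh1 θ
    have d1 : Summable (fun n : ℤ => psi k u U (θ + n * h) - ((fw k u U (θ + n * h) : ℝ) : ℂ)) :=
      Summable.of_norm_bounded t1 fun n => hd _
    have f1c : Summable (fun n : ℤ => ((fw k u U (θ + n * h) : ℝ) : ℂ)) := by
      refine (p1.sub d1).congr fun n => ?_
      ring
    have f1 : Summable (fun n : ℤ => fw k u U (θ + n * h)) := Complex.summable_ofReal.mp f1c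
    refine ⟨f1, ?_⟩
    have e1 : ((h * ∑' n : ℤ, fw k u U (θ + n * h) - ∫ y, fw k u U y : ℝ) : ℂ) -
          ((h : ℂ) * ∑' n : ℤ, psi k u U (θ + n * h) - ∫ y, psi k u U y) =
        -((h : ℂ) * ∑' n : ℤ, (psi k u U (θ + n * h) - ((fw k u U (θ + n * h) : ℝ) : ℂ)) -
          ∫ y, (psi k u U y - ((fw k u U y : ℝ) : ℂ))) := by
      rw [p1.tsum_sub f1c, integral_sub p2 f2c, integral_complex_ofReal, ← Complex.ofReal_tsum]
      push_cast
      ring
    have a2 : ‖(h : ℂ) * ∑' n : ℤ, (psi k u U (θ + n * h) - ((fw k u U (θ + n * h) : ℝ) : ℂ))‖ ≤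
        3 / 2 * Real.pi / u ^ D := by
      rw [norm_mul, Complex.norm_real, Real.norm_of_nonneg hh.le]
      refine le_trans ?_ t2
      gcongr
      exact tsum_of_norm_bounded t1.hasSum fun n => hd _
    have a3 : ‖∫ y, (psi k u U y - ((fw k u U y : ℝ) : ℂ))‖ ≤ Real.pi / u ^ D :=
      (norm_integral_le_of_norm_le t3 (Eventually.of_forall hd)).trans t4
    rw [e1, norm_neg]
    refine (norm_sub_le _ _).trans ((add_le_add a2 a3).trans ?_)
    rw [← add_div]
    gcongr
    linarith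

/-- the truncated Fourier transform is close to the Fourier transform -/
theorem tF_fourier {k D : ℕ} {u U T : ℝ} (hu3 : 3 ≤ u) (hT4 : T / 2 ≤ u) (huT : u ≤ T)
    (hi : Integrable (fw k u U)) (ht : ∀ y : ℝ, u / 4 ≤ |y - u| → fw k u U y ≤ tR D u y) (ν : ℝ) :
    ‖𝓕 (fun y => ((fw k u U y : ℝ) : ℂ)) ν - tF k u U T (2 * Real.pi * ν)‖ ≤ Real.pi / u ^ D := by
  have hu0 : 0 < u := by linarith
  obtain ⟨t3, t4⟩ := tR_int D hu0
  rw [fourier_ee]
  unfold tF
  set g : ℝ → ℂ := fun y => ee (-(y * ν)) * ((fw k u U y : ℝ) : ℂ) with hg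
  have e1 : ∀ t : ℝ, ((fw k u U t : ℝ) : ℂ) * cexp (-(I * ((2 * Real.pi * ν : ℝ) : ℂ) * t)) = g t := by
    intro t
    simp only [hg]
    unfold Q97.BS.ee
    rw [mul_comm]
    congr 2
    push_cast
    ring
  simp only [e1]
  have hfc : Continuous (fun y => ((fw k u U y : ℝ) : ℂ)) :=
    Complex.continuous_ofReal.comp (fw_cont k u U)
  have hee : Continuous (fun v : ℝ => ee (-(v * ν))) := by
    have := Q97.BS.ee_continuous
    fun_prop
  have hfi : Integrable (fun y => ((fw k u U y : ℝ) : ℂ)) := hi.ofReal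
  have hgi : Integrable g :=
    hfi.bdd_mul (c := 1) hee.aestronglyMeasurable (Eventually.of_forall fun v => (ee_norm _).le)
  rw [intervalIntegral.integral_of_le (by linarith), ← integral_indicator measurableSet_Ioc,
    ← integral_sub hgi (hgi.indicator measurableSet_Ioc)]
  refine (norm_integral_le_of_norm_le t3 (Eventually.of_forall fun y => ?_)).trans t4
  by_cases hy : y ∈ Ioc (T / 4) (2 * T)
  · rw [indicator_of_mem hy, sub_self, norm_zero]
    exact tR_nonneg D hu0 y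
  · rw [indicator_of_notMem hy, sub_zero]
    have h1 : ‖g y‖ = fw k u U y := by
      simp only [hg]
      rw [norm_mul, ee_norm, one_mul, Complex.norm_real, Real.norm_of_nonneg (fw_nonneg _ _ _ _)]
    rw [h1]
    apply ht
    rw [mem_Ioc, not_and_or, not_lt, not_le] at hy
    rcases hy with hy | hy
    · rw [abs_sub_comm]
      exact le_trans (by linarith) (le_abs_self _)
    · exact le_trans (by linarith) (le_abs_self _)

/-- the index set -/
def ix (C1 T h : ℝ) : Finset ℤ := (Finset.Icc (-(⌊C1 * Real.log T * h⌋₊ : ℤ)) ⌊C1 * Real.log T * h⌋₊).erase 0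

theorem trunc {k : ℕ} (hk : 1 ≤ k) (B : ℕ) : ∃ C1 : ℝ, (k : ℝ) ≤ C1 ∧ ∀ᶠ T : ℝ in atTop, ∀ u U : ℝ,
    T / 2 ≤ u → u ≤ T → Adm u U → Integrable (fw k u U) ∧ ∀ h : ℝ, 0 < h → h ≤ 1 → ∀ θ : ℝ,
      Summable (fun n : ℤ => fw k u U (θ + n * h)) ∧
      ‖((h * ∑' n : ℤ, fw k u U (θ + n * h) - ∫ y, fw k u U y : ℝ) : ℂ) -
        ∑ m ∈ ix C1 T h, ee (θ * (m / h)) * tF k u U T (2 * Real.pi * (m / h))‖ ≤ 1 / T ^ B := by
  obtain ⟨K, hK, hF⟩ := psi_fourier hk 1 le_rfl
  set D := B + 2 with hD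
  obtain ⟨u₁, h₁⟩ := eventually_atTop.mp (cmp hk D)
  obtain ⟨u₂, h₂⟩ := eventually_atTop.mp (tail k D)
  set C1 : ℝ := (3 * k + 1 + B + 1) with hC1
  have hC1p : 0 < C1 := by positivity
  have hπ := Real.pi_pos
  have hπ3 := Real.pi_gt_three
  have hS := S0_nonneg
  -- the final inequality
  have hfin : ∀ᶠ T : ℝ in atTop, (5 * Real.pi * 2 ^ D + 4 * C1 * Real.pi * 2 ^ D + 2 * K * S0 +
      1) * (Real.log T + 1) ≤ T := by
    have h1 := Real.isLittleO_log_id_atTop.bound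
      (c := 1 / (2 * (5 * Real.pi * 2 ^ D + 4 * C1 * Real.pi * 2 ^ D + 2 * K * S0 + 1))) (by positivity)
    filter_upwards [h1, eventually_ge_atTop
      (2 * (5 * Real.pi * 2 ^ D + 4 * C1 * Real.pi * 2 ^ D + 2 * K * S0 + 1)),
      eventually_ge_atTop 1] with T h2 h3 h4
    set Y := 5 * Real.pi * 2 ^ D + 4 * C1 * Real.pi * 2 ^ D + 2 * K * S0 + 1 with hY
    have hY0 : 0 < Y := by positivity
    rw [Real.norm_of_nonneg (Real.log_nonneg h4), id, Real.norm_of_nonneg (by linarith)] at h2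
    have h5 : Y * Real.log T ≤ T / 2 := by
      calc Y * Real.log T ≤ Y * (1 / (2 * Y) * T) := by gcongr
        _ = T / 2 := by field_simp
    linarith
  refine ⟨C1, by rw [hC1]; nlinarith [Nat.cast_nonneg (α := ℝ) k, Nat.cast_nonneg (α := ℝ) B], ?_⟩
  filter_upwards [hfin, eventually_ge_atTop (max (2 * max u₁ u₂) 6)] with T hfT hT u U hu1 hu2 hA
  have hT6 : 6 ≤ T := (le_max_right _ _).trans hT
  have hT12 : 2 * max u₁ u₂ ≤ T := (le_max_left _ _).trans hT
  have hT0 : 0 < T := by linarith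
  have hu0 : 0 < u := by linarith
  have hu3 : 3 ≤ u := by linarith
  have hL : 0 < Real.log T := Real.log_pos (by linarith)
  have hL1 : 1 ≤ Real.log T := by
    have h1 : Real.exp 1 ≤ T := by linarith [Real.exp_one_lt_d9]
    have h2 := Real.log_le_log (Real.exp_pos 1) h1
    rwa [Real.log_exp] at h2
  obtain ⟨c1, c2, c3⟩ := h₁ u (by linarith [le_max_left u₁ u₂]) U hA
  have c4 := h₂ u (by linarith [le_max_right u₁ u₂]) U hA
  refine ⟨c1, fun h hh hh1 θ => ?_⟩
  obtain ⟨c5, c6⟩ := c3 h hh hh1 θ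
  refine ⟨c5, ?_⟩
  set N : ℕ := ⌊C1 * Real.log T * h⌋₊ with hN
  have huD : 1 / u ^ D ≤ 2 ^ D / T ^ D := by
    have h5 : (T / 2) ^ D ≤ u ^ D := pow_le_pow_left₀ (by linarith) hu1 _
    rw [div_pow] at h5
    rw [div_le_div_iff₀ (by positivity) (by positivity)]
    rw [div_le_iff₀ (by positivity)] at h5
    linarith
  -- Poisson
  obtain ⟨M, δ', hM, hδ', hbd⟩ := Q97.QQ.Ps_strip hk 1 hA
  have hb : ∀ y : ℝ, ‖psi k u U y‖ ≤ M * Real.exp (-δ' * y ^ 2) := fun y =>
    hbd (1 / 2) y (by norm_num) (by norm_num)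
  have hFm : ∀ m : ℤ, ‖𝓕 (psi k u U) (m / h)‖ ≤
      K * u ^ ((1 + 2) * k + 1) * Real.exp (-(2 * Real.pi / h * |(m : ℝ)|)) := by
    intro m
    refine (hF u U hA (m / h)).trans (le_of_eq ?_)
    rw [abs_div, abs_of_pos hh]
    congr 2
    push_cast
    ring
  have hbm : ∀ m : ℤ, m ≠ 0 → Real.exp (-(Real.pi / h * |(m : ℝ)|)) ≤ 2 * (1 / (m : ℝ) ^ 2) := by
    intro m hm
    have h1 : 1 ≤ m.natAbs := Int.natAbs_pos.mpr hm
    have hc1 : 1 ≤ Real.pi / h := by
      rw [le_div_iff₀ hh]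
      linarith
    have h2 := Q97.QQ.nat_exp m.natAbs h1 hc1
    have h3 : ((m.natAbs : ℕ) : ℝ) = |(m : ℝ)| := by
      rw [Nat.cast_natAbs, Int.cast_abs]
    rw [h3, sq_abs] at h2
    refine h2.trans ?_
    have h4 : Real.exp (-(Real.pi / h)) ≤ 1 := Real.exp_le_one_iff.2 (by linarith)
    have h5 : 0 ≤ 1 / (m : ℝ) ^ 2 := by positivity
    gcongr
    linarith
  have hhalf : ∀ m : ℤ, Real.exp (-(2 * Real.pi / h * |(m : ℝ)|)) =
      Real.exp (-(Real.pi / h * |(m : ℝ)|)) * Real.exp (-(Real.pi / h * |(m : ℝ)|)) := by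
    intro m
    rw [← Real.exp_add]
    congr 1
    ring
  have hsumF : Summable (fun m : ℤ => 𝓕 (psi k u U) (m / h)) := by
    refine Summable.of_norm_bounded_eventually
      (S0_sum.mul_left (K * u ^ ((1 + 2) * k + 1) * 2)) ?_
    have : ∀ᶠ m : ℤ in cofinite, m ≠ 0 := by
      have := (Set.finite_singleton (0 : ℤ)).eventually_cofinite_notMem
      filter_upwards [this] with m hm
      simpa using hm
    filter_upwards [this] with m hm
    refine (hFm m).trans ?_
    rw [hhalf, mul_assoc (K * u ^ ((1 + 2) * k + 1)) 2]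
    have h1 := hbm m hm
    have h2 : Real.exp (-(Real.pi / h * |(m : ℝ)|)) ≤ 1 := by
      apply Real.exp_le_one_iff.2
      have : 0 ≤ Real.pi / h * |(m : ℝ)| := by positivity
      linarith
    refine mul_le_mul_of_nonneg_left ?_ (by positivity)
    calc Real.exp (-(Real.pi / h * |(m : ℝ)|)) * Real.exp (-(Real.pi / h * |(m : ℝ)|))
        ≤ Real.exp (-(Real.pi / h * |(m : ℝ)|)) * 1 := by gcongr
      _ ≤ _ := by rw [mul_one]; exact h1
  have hP := Q97.QQ.poisson (psi_cont k u U) hM hδ' hb hh θ hsumF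
  set F : ℤ → ℂ := fun m => ee (θ * (m / h)) * 𝓕 (psi k u U) (m / h) with hFdef
  have hsumE : Summable F := by
    refine Summable.of_norm_bounded hsumF.norm (fun m => ?_)
    simp only [hFdef]
    rw [norm_mul, ee_norm, one_mul]
  have hTpow : u ^ ((1 + 2) * k + 1) * Real.exp (-(Real.pi * (C1 * Real.log T))) ≤ 1 / T ^ (B + 1) := by
    have e0 : ∀ n : ℕ, T ^ n = Real.exp ((n : ℝ) * Real.log T) := by
      intro n
      rw [mul_comm, Real.exp_mul, Real.exp_log hT0, Real.rpow_natCast]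
    have e2 : 1 / T ^ (B + 1) = Real.exp (-(((B + 1 : ℕ) : ℝ) * Real.log T)) := by
      rw [Real.exp_neg, ← e0, one_div]
    calc u ^ ((1 + 2) * k + 1) * Real.exp (-(Real.pi * (C1 * Real.log T)))
        ≤ T ^ ((1 + 2) * k + 1) * Real.exp (-(Real.pi * (C1 * Real.log T))) := by gcongr
      _ = Real.exp ((((1 + 2) * k + 1 : ℕ) : ℝ) * Real.log T + -(Real.pi * (C1 * Real.log T))) := by
          rw [e0, Real.exp_add]
      _ ≤ Real.exp (-(((B + 1 : ℕ) : ℝ) * Real.log T)) := by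
          apply Real.exp_le_exp.2
          push_cast
          have h1 : C1 * Real.log T ≤ Real.pi * (C1 * Real.log T) := by
            have : 0 ≤ C1 * Real.log T := by positivity
            nlinarith
          have e : C1 * Real.log T = (3 * k + 1) * Real.log T + (B + 1) * Real.log T := by
            rw [hC1]; ring
          rw [e] at h1
          rw [e]
          nlinarith
      _ = _ := e2.symm
  have hsp := split_tsum (N := N) hsumE (P := 2 * K * (1 / T ^ (B + 1))) (by positivity) (fun m hm => by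
    have hm0 : m ≠ 0 := by
      rintro rfl
      apply hm
      rw [Finset.mem_Icc]
      omega
    have hmN : (N : ℝ) + 1 ≤ |(m : ℝ)| := by
      rw [Finset.mem_Icc, not_and_or, not_le, not_le] at hm
      have h1 : (N : ℤ) + 1 ≤ |m| := by
        rcases hm with hm | hm
        · have : (N : ℤ) + 1 ≤ -m := by omega
          exact this.trans (neg_le_abs m)
        · have : (N : ℤ) + 1 ≤ m := by omega
          exact this.trans (le_abs_self m)
      have h2 : (((N : ℤ) + 1 : ℤ) : ℝ) ≤ ((|m| : ℤ) : ℝ) := by exact_mod_cast h1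
      rw [Int.cast_abs] at h2
      push_cast at h2
      exact h2
    have hmN2 : C1 * Real.log T * h ≤ |(m : ℝ)| := by
      have := Nat.lt_floor_add_one (C1 * Real.log T * h)
      rw [← hN] at this
      linarith
    have h3 : Real.exp (-(Real.pi / h * |(m : ℝ)|)) ≤ Real.exp (-(Real.pi * (C1 * Real.log T))) := by
      apply Real.exp_le_exp.2
      apply neg_le_neg
      calc Real.pi * (C1 * Real.log T) = Real.pi / h * (C1 * Real.log T * h) := by field_simp
        _ ≤ _ := by gcongr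
    simp only [hFdef]
    rw [norm_mul, ee_norm, one_mul]
    refine (hFm m).trans ?_
    rw [hhalf]
    calc K * u ^ ((1 + 2) * k + 1) * (Real.exp (-(Real.pi / h * |(m : ℝ)|)) *
          Real.exp (-(Real.pi / h * |(m : ℝ)|)))
        ≤ K * u ^ ((1 + 2) * k + 1) * (Real.exp (-(Real.pi * (C1 * Real.log T))) *
          (2 * (1 / (m : ℝ) ^ 2))) := by
          gcongr
          exact hbm m hm0
      _ = K * (u ^ ((1 + 2) * k + 1) * Real.exp (-(Real.pi * (C1 * Real.log T)))) *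
          (2 * (1 / (m : ℝ) ^ 2)) := by ring
      _ ≤ K * (1 / T ^ (B + 1)) * (2 * (1 / (m : ℝ) ^ 2)) := by gcongr
      _ = _ := by ring)
  rw [← hP] at hsp
  have hmem : (0 : ℤ) ∈ Finset.Icc (-(N : ℤ)) N := by
    rw [Finset.mem_Icc]; omega
  rw [← Finset.add_sum_erase _ _ hmem] at hsp
  have e0 : F 0 = ∫ y, psi k u U y := by
    simp only [hFdef]
    rw [fourier_ee]
    simp [Q97.BS.ee]
  rw [e0] at hsp
  have hix : ix C1 T h = (Finset.Icc (-(N : ℤ)) N).erase 0 := rfl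
  rw [hix]
  have hcard : (((Finset.Icc (-(N : ℤ)) N).erase 0).card : ℝ) ≤ 2 * (C1 * Real.log T) := by
    rw [Finset.card_erase_of_mem hmem, Int.card_Icc]
    have h1 : ((N : ℤ) + 1 - -(N : ℤ)).toNat - 1 = 2 * N := by omega
    rw [h1]
    push_cast
    have h2 : (N : ℝ) ≤ C1 * Real.log T * h := Nat.floor_le (by positivity)
    have h3 : C1 * Real.log T * h ≤ C1 * Real.log T * 1 := by gcongr
    linarith
  have hdiff : ‖(∑ m ∈ (Finset.Icc (-(N : ℤ)) N).erase 0, F m) -
      ∑ m ∈ (Finset.Icc (-(N : ℤ)) N).erase 0, ee (θ * (m / h)) * tF k u U T (2 * Real.pi * (m / h))‖ ≤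
      2 * (C1 * Real.log T) * (2 * Real.pi / u ^ D) := by
    rw [← Finset.sum_sub_distrib]
    refine (norm_sum_le_of_le _ (f := fun m : ℤ => F m - ee (θ * (m / h)) *
      tF k u U T (2 * Real.pi * (m / h))) (n := fun _ => 2 * Real.pi / u ^ D) fun m _ => ?_).trans ?_
    · simp only [hFdef]
      rw [← mul_sub, norm_mul, ee_norm, one_mul]
      have a1 := c2 (m / h)
      have a2 := tF_fourier hu3 hu1 hu2 c1 c4 (m / h)
      have e : 𝓕 (psi k u U) (m / h) - tF k u U T (2 * Real.pi * (m / h)) =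
          (𝓕 (psi k u U) (m / h) - 𝓕 (fun y => ((fw k u U y : ℝ) : ℂ)) (m / h)) +
          (𝓕 (fun y => ((fw k u U y : ℝ) : ℂ)) (m / h) - tF k u U T (2 * Real.pi * (m / h))) := by ring
      rw [e]
      refine (norm_add_le _ _).trans ((add_le_add a1 a2).trans (le_of_eq ?_))
      ring
    · rw [Finset.sum_const, nsmul_eq_mul]
      gcongr
  have etot : ((h * ∑' n : ℤ, fw k u U (θ + n * h) - ∫ y, fw k u U y : ℝ) : ℂ) -
        ∑ m ∈ (Finset.Icc (-(N : ℤ)) N).erase 0, ee (θ * (m / h)) *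
          tF k u U T (2 * Real.pi * (m / h)) =
      (((h * ∑' n : ℤ, fw k u U (θ + n * h) - ∫ y, fw k u U y : ℝ) : ℂ) -
          ((h : ℂ) * ∑' n : ℤ, psi k u U (θ + n * h) - ∫ y, psi k u U y)) +
      ((h : ℂ) * ∑' n : ℤ, psi k u U (θ + n * h) - ((∫ y, psi k u U y) +
          ∑ m ∈ (Finset.Icc (-(N : ℤ)) N).erase 0, F m)) +
      ((∑ m ∈ (Finset.Icc (-(N : ℤ)) N).erase 0, F m) -
        ∑ m ∈ (Finset.Icc (-(N : ℤ)) N).erase 0, ee (θ * (m / h)) *
          tF k u U T (2 * Real.pi * (m / h))) := by ring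
  rw [etot]
  refine (norm_add₃_le).trans ((add_le_add_three c6 hsp hdiff).trans ?_)
  have f1 : 5 * Real.pi / u ^ D ≤ 5 * Real.pi * 2 ^ D * (1 / T ^ (B + 2)) := by
    calc 5 * Real.pi / u ^ D = 5 * Real.pi * (1 / u ^ D) := by ring
      _ ≤ 5 * Real.pi * (2 ^ D / T ^ D) := by gcongr
      _ = _ := by rw [hD]; ring
  have f2 : 2 * (C1 * Real.log T) * (2 * Real.pi / u ^ D) ≤
      4 * C1 * Real.pi * 2 ^ D * Real.log T * (1 / T ^ (B + 2)) := by
    calc 2 * (C1 * Real.log T) * (2 * Real.pi / u ^ D) = 4 * C1 * Real.pi * Real.log T * (1 / u ^ D) := by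
          ring
      _ ≤ 4 * C1 * Real.pi * Real.log T * (2 ^ D / T ^ D) := by gcongr
      _ = _ := by rw [hD]; ring
  have f3 : 1 / T ^ (B + 2) ≤ 1 / T ^ (B + 1) := by
    apply one_div_le_one_div_of_le (by positivity)
    exact pow_le_pow_right₀ (by linarith) (by omega)
  have f4 : 0 < 1 / T ^ (B + 1) := by positivity
  have f5 : 1 / T ^ (B + 1) * T = 1 / T ^ B := by
    rw [pow_succ]
    field_simp
  have g1 : 0 ≤ 5 * Real.pi * 2 ^ D := by positivity
  have g2 : 0 ≤ 4 * C1 * Real.pi * 2 ^ D := by positivity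
  have g3 : 0 ≤ 2 * K * S0 := by positivity
  calc 5 * Real.pi / u ^ D + 2 * K * (1 / T ^ (B + 1)) * S0 +
        2 * (C1 * Real.log T) * (2 * Real.pi / u ^ D)
      ≤ 5 * Real.pi * 2 ^ D * (1 / T ^ (B + 1)) + 2 * K * (1 / T ^ (B + 1)) * S0 +
        4 * C1 * Real.pi * 2 ^ D * Real.log T * (1 / T ^ (B + 1)) := by
        refine add_le_add_three (f1.trans ?_) le_rfl (f2.trans ?_)
        · gcongr
        · gcongr
    _ = 1 / T ^ (B + 1) * (5 * Real.pi * 2 ^ D + 2 * K * S0 + 4 * C1 * Real.pi * 2 ^ D * Real.log T) := by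
        ring
    _ ≤ 1 / T ^ (B + 1) * T := by
        gcongr
        nlinarith
    _ = _ := f5

end

end Q80.SF
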