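import Pool.Agent.Q80.SF.Rec

set_option autoImplicit false

/-! Bounds for the Fourier transform of the density of the moment in Gaussian windows and in windows with
sharp edges. -/

namespace Q80.SF

open MeasureTheory Set Filter Topology Complex
open Pool.Agent.W188.QS
open Q97.MM (Adm)

noncomputable section

/-- the profile of the unit window on the line `Re s = c` -/
def ev (c v : ℝ) : ℂ := cexp ((((c - 1 / 2 : ℝ) : ℂ) + (v : ℂ) * I) ^ 2)

theorem ev_cont (c : ℝ) : Continuous (ev c) := by unfold ev; fun_prop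

theorem GG_ev (u U c t : ℝ) : GG u U (pl c t) = cexp (((((c - 1 / 2 : ℝ) : ℂ) + ((t - u : ℝ) : ℂ) * I) / U) ^ 2) := by
  unfold GG cp pl
  congr 3
  push_cast
  ring

theorem GG_ev_one (u c t : ℝ) : GG u 1 (pl c t) = ev c (t - u) := by
  rw [GG_ev, ev]
  simp

theorem GG_norm (u c t : ℝ) {U : ℝ} (hU : 1 ≤ U) (hc : 1 / 2 ≤ c) (hc3 : c ≤ 3) :
    ‖GG u U (pl c t)‖ ≤ Real.exp 7 * Real.exp (-(((t - u) / U) ^ 2)) := by
  rw [pl_mk, Pool.Agent.W723.QS.norm_GG u U c t (by linarith), ← Real.exp_add]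
  apply Real.exp_le_exp.2
  rw [sub_div, div_pow]
  have a1 : (c - 1 / 2) ^ 2 / U ^ 2 ≤ 7 := by
    rw [div_le_iff₀ (by positivity)]
    nlinarith
  linarith

theorem gauss_half (z : ℝ) : Real.exp (-z ^ 2) ≤ Real.exp (-(z ^ 2 / 2)) := by
  apply Real.exp_le_exp.2
  nlinarith [sq_nonneg z]

/-- the variation of the Gaussian -/
theorem var_gauss {c : ℝ} (hc : 1 / 2 ≤ c) (hc3 : c ≤ 3) {u U a b : ℝ} (hU : 1 ≤ U) (hab : a ≤ b) :
    ∃ w' : ℝ → ℂ, (∀ t, HasDerivAt (fun t => GG u U (pl c t)) (w' t) t) ∧ Continuous w' ∧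
      ∫ t in a..b, ‖w' t‖ ≤ 5 * Real.exp 7 * Q97.MM.KK 1 := by
  have hU0 : 0 < U := by linarith
  have hUC : (U : ℂ) ≠ 0 := by exact_mod_cast hU0.ne'
  refine ⟨fun t => GG u U (pl c t) * (2 * ((pl c t - cp u) / U) * (I / U)), ?_, ?_, ?_⟩
  · intro t
    have h1 : HasDerivAt (fun t => (pl c t - cp u) / (U : ℂ)) (I / U) t :=
      ((pl_deriv c t).sub_const _).div_const _
    have h2 := (h1.fun_pow 2).cexp
    have e : GG u U (pl c t) * (2 * ((pl c t - cp u) / U) * (I / U)) =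
        cexp (((pl c t - cp u) / (U : ℂ)) ^ 2) *
          ((2 : ℕ) * ((pl c t - cp u) / (U : ℂ)) ^ (2 - 1) * (I / U)) := by
      unfold GG
      norm_num
    show HasDerivAt (fun t => GG u U (pl c t)) (GG u U (pl c t) * (2 * ((pl c t - cp u) / U) * (I / U))) t
    rw [e]
    exact h2
  · have h1 : Continuous (pl c) := by unfold pl; fun_prop
    have h2 : Continuous (fun t => GG u U (pl c t)) := (GG_diff u U).continuous.comp h1
    fun_prop
  · have hb : ∀ t : ℝ, ‖GG u U (pl c t) * (2 * ((pl c t - cp u) / U) * (I / U))‖ ≤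
        5 * Real.exp 7 / U * ((1 + |(t - u) / U|) ^ 1 * Real.exp (-(((t - u) / U) ^ 2 / 2))) := by
      intro t
      have h1 := GG_norm u c t hU hc hc3
      have h2 := gauss_half ((t - u) / U)
      have h3 : ‖(2 * ((pl c t - cp u) / (U : ℂ)) * (I / U))‖ ≤ 5 / U * (1 + |(t - u) / U|) := by
        rw [norm_mul, norm_mul, norm_div, norm_div, norm_I, Complex.norm_real, Real.norm_of_nonneg hU0.le]
        have h4 : ‖pl c t - cp u‖ ≤ 5 / 2 + |t - u| := by
          have e : pl c t - cp u = ((c - 1 / 2 : ℝ) : ℂ) + ((t - u : ℝ) : ℂ) * I := by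
            unfold pl cp; push_cast; ring
          rw [e]
          refine (norm_add_le _ _).trans ?_
          rw [norm_mul, norm_I, mul_one, Complex.norm_real, Complex.norm_real, Real.norm_eq_abs,
            Real.norm_eq_abs, abs_of_nonneg (by linarith)]
          linarith
        have h5 : ‖(2 : ℂ)‖ = 2 := by norm_num
        rw [h5, abs_div, abs_of_pos hU0]
        calc 2 * (‖pl c t - cp u‖ / U) * (1 / U) ≤ 2 * ((5 / 2 + |t - u|) / U) * (1 / U) := by
              gcongr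
          _ = 1 / U * (5 / U + 2 * (|t - u| / U)) := by ring
          _ ≤ 1 / U * (5 + 5 * (|t - u| / U)) := by
              have a1 : 5 / U ≤ 5 := div_le_self (by norm_num) hU
              have a2 : 0 ≤ |t - u| / U := by positivity
              gcongr
              norm_num
          _ = _ := by ring
      rw [norm_mul]
      calc ‖GG u U (pl c t)‖ * ‖(2 * ((pl c t - cp u) / (U : ℂ)) * (I / U))‖
          ≤ (Real.exp 7 * Real.exp (-(((t - u) / U) ^ 2 / 2))) * (5 / U * (1 + |(t - u) / U|)) := by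
            gcongr
            exact h1.trans (mul_le_mul_of_nonneg_left h2 (Real.exp_pos _).le)
        _ = _ := by ring
    rw [intervalIntegral.integral_of_le hab]
    have hi := (Q97.MM.scaled_integrable 1 u hU0).const_mul (5 * Real.exp 7 / U)
    calc ∫ t in Ioc a b, ‖GG u U (pl c t) * (2 * ((pl c t - cp u) / U) * (I / U))‖
        ≤ ∫ t in Ioc a b, 5 * Real.exp 7 / U *
            ((1 + |(t - u) / U|) ^ 1 * Real.exp (-(((t - u) / U) ^ 2 / 2))) := by
          refine integral_mono_of_nonneg (Eventually.of_forall fun t => norm_nonneg _)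
            hi.integrableOn (Eventually.of_forall hb)
      _ ≤ ∫ t, 5 * Real.exp 7 / U *
            ((1 + |(t - u) / U|) ^ 1 * Real.exp (-(((t - u) / U) ^ 2 / 2))) :=
          setIntegral_le_integral hi (Eventually.of_forall fun t => by positivity)
      _ = 5 * Real.exp 7 / U * (U * Q97.MM.KK 1) := by
          rw [integral_const_mul, Q97.MM.scaled_integral 1 u hU0]
      _ = _ := by field_simp

theorem ev_norm {c : ℝ} (hc : 1 / 2 ≤ c) (hc3 : c ≤ 3) (v : ℝ) :
    ‖ev c v‖ ≤ Real.exp 7 * ((1 + |(v - 0) / 1|) ^ 0 * Real.exp (-(((v - 0) / 1) ^ 2 / 2))) := by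
  have h1 := GG_norm 0 c v le_rfl hc hc3
  rw [GG_ev_one, sub_zero, div_one] at h1
  refine h1.trans ?_
  rw [pow_zero, one_mul, sub_zero, div_one]
  exact mul_le_mul_of_nonneg_left (gauss_half v) (Real.exp_pos _).le

theorem ev_int {c : ℝ} (hc : 1 / 2 ≤ c) (hc3 : c ≤ 3) : Integrable (ev c) ∧
    ∫ v, ‖ev c v‖ ≤ Real.exp 7 * Q97.MM.KK 0 := by
  have hi := (Q97.MM.scaled_integrable 0 0 one_pos).const_mul (Real.exp 7)
  refine ⟨hi.mono' (ev_cont c).aestronglyMeasurable (Eventually.of_forall (ev_norm hc hc3)), ?_⟩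
  refine (integral_mono_of_nonneg (Eventually.of_forall fun t => norm_nonneg _) hi
    (Eventually.of_forall (ev_norm hc hc3))).trans (le_of_eq ?_)
  rw [integral_const_mul, Q97.MM.scaled_integral 0 0 one_pos, one_mul]

/-- the window with sharp edges on the line `Re s = c` -/
def pw (c T1 T2 t : ℝ) : ℂ := ∫ u in T1..T2, GG u 1 (pl c t)

theorem pw_eq (c T1 T2 t : ℝ) : pw c T1 T2 t =
    (∫ v in (0 : ℝ)..(t - T1), ev c v) - ∫ v in (0 : ℝ)..(t - T2), ev c v := by
  unfold pw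
  have e : ∀ u : ℝ, GG u 1 (pl c t) = ev c (t - u) := fun u => GG_ev_one u c t
  simp only [e]
  rw [intervalIntegral.integral_comp_sub_left (fun v => ev c v) t]
  have hii : ∀ x y : ℝ, IntervalIntegrable (ev c) volume x y := fun x y =>
    (ev_cont c).intervalIntegrable _ _
  rw [intervalIntegral.integral_interval_sub_left (hii _ _) (hii _ _)]

theorem int_sub (c a b s : ℝ) (hc : 1 / 2 ≤ c) (hc3 : c ≤ 3) (hab : a ≤ b) :
    ∫ t in a..b, ‖ev c (t - s)‖ ≤ Real.exp 7 * Q97.MM.KK 0 := by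
  obtain ⟨h1, h2⟩ := ev_int hc hc3
  rw [intervalIntegral.integral_comp_sub_right (fun v => ‖ev c v‖) s,
    intervalIntegral.integral_of_le (by linarith)]
  exact (setIntegral_le_integral h1.norm (Eventually.of_forall fun t => norm_nonneg _)).trans h2

/-- the variation of the window with sharp edges -/
theorem var_pw {c : ℝ} (hc : 1 / 2 ≤ c) (hc3 : c ≤ 3) {T1 T2 a b : ℝ} (hT : T1 ≤ T2) (hab : a ≤ b) :
    ∃ w' : ℝ → ℂ, (∀ t, HasDerivAt (pw c T1 T2) (w' t) t) ∧ Continuous w' ∧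
      ∫ t in a..b, ‖w' t‖ ≤ 2 * (Real.exp 7 * Q97.MM.KK 0) ∧
      ∀ t, ‖pw c T1 T2 t‖ ≤ Real.exp 7 * Q97.MM.KK 0 := by
  refine ⟨fun t => ev c (t - T1) - ev c (t - T2), ?_, ?_, ?_, ?_⟩
  · intro t
    have h1 : ∀ s : ℝ, HasDerivAt (fun t => ∫ v in (0 : ℝ)..(t - s), ev c v) (ev c (t - s)) t := by
      intro s
      have h2 := ((ev_cont c).integral_hasStrictDerivAt 0 (t - s)).hasDerivAt
      have h3 : HasDerivAt (fun t : ℝ => t - s) 1 t := (hasDerivAt_id t).sub_const s
      have h4 := h2.scomp t h3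
      rw [one_smul] at h4
      exact h4
    have h5 := (h1 T1).sub (h1 T2)
    have e : pw c T1 T2 = fun t => (∫ v in (0 : ℝ)..(t - T1), ev c v) -
        ∫ v in (0 : ℝ)..(t - T2), ev c v := funext fun t => pw_eq c T1 T2 t
    rw [e]
    exact h5
  · have := ev_cont c
    fun_prop
  · have hc1 : Continuous (fun t => ‖ev c (t - T1)‖) := by have := ev_cont c; fun_prop
    have hc2 : Continuous (fun t => ‖ev c (t - T2)‖) := by have := ev_cont c; fun_prop
    have hc3' : Continuous (fun t => ‖ev c (t - T1) - ev c (t - T2)‖) := by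
      have := ev_cont c; fun_prop
    calc ∫ t in a..b, ‖ev c (t - T1) - ev c (t - T2)‖
        ≤ ∫ t in a..b, (‖ev c (t - T1)‖ + ‖ev c (t - T2)‖) := by
          refine intervalIntegral.integral_mono_on hab (hc3'.intervalIntegrable _ _)
            ((hc1.add hc2).intervalIntegrable _ _) fun t _ => norm_sub_le _ _
      _ = (∫ t in a..b, ‖ev c (t - T1)‖) + ∫ t in a..b, ‖ev c (t - T2)‖ :=
          intervalIntegral.integral_add (hc1.intervalIntegrable _ _) (hc2.intervalIntegrable _ _)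
      _ ≤ _ := by
          have := int_sub c a b T1 hc hc3 hab
          have := int_sub c a b T2 hc hc3 hab
          linarith
  · intro t
    unfold pw
    have e : ∀ u : ℝ, GG u 1 (pl c t) = ev c (t - u) := fun u => GG_ev_one u c t
    simp only [e]
    refine (intervalIntegral.norm_integral_le_integral_norm hT).trans ?_
    obtain ⟨h1, h2⟩ := ev_int hc hc3
    rw [intervalIntegral.integral_comp_sub_left (fun v => ‖ev c v‖) t,
      intervalIntegral.integral_of_le (by linarith)]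
    exact (setIntegral_le_integral h1.norm (Eventually.of_forall fun t => norm_nonneg _)).trans h2

/-- the truncated Fourier transform of the density -/
def tF (k : ℕ) (u U T ω : ℝ) : ℂ :=
  ∫ t in (T / 4)..(2 * T), ((Q97.QQ.fw k u U t : ℝ) : ℂ) * cexp (-(I * ω * t))

/-- the integral on the line -/
def lF (k : ℕ) (u U T ω c : ℝ) : ℂ := ∫ t in (T / 4)..(2 * T), HH k u U ω (pl c t)

theorem tF_lF (k B : ℕ) {c : ℝ} (hc : 1 / 2 ≤ c) (hc3 : c ≤ 3) : ∀ᶠ T : ℝ in atTop, ∀ u U : ℝ,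
    T / 2 ≤ u → u ≤ T → Adm u U → ∀ ω : ℝ, 0 ≤ ω → ‖tF k u U T ω - lF k u U T ω c‖ ≤ 1 / T ^ B := by
  obtain ⟨u₀, h0⟩ := eventually_atTop.mp (hor k (B + 1))
  filter_upwards [eventually_ge_atTop (max (2 * u₀) (max 4 (5 * 2 ^ (B + 1))))] with T hT u U hu1 hu2
    hA ω hω
  have hTu : 2 * u₀ ≤ T := (le_max_left _ _).trans hT
  have hT4 : 4 ≤ T := (le_max_left _ _).trans ((le_max_right _ _).trans hT)
  have hTB : 5 * 2 ^ (B + 1) ≤ T := (le_max_right _ _).trans ((le_max_right _ _).trans hT)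
  have hT0 : 0 < T := by linarith
  have hu0 : 0 < u := by linarith
  have h1 := h0 u (by linarith) U hA ω hω
  have h2 : ∀ x : ℝ, 1 / 2 ≤ x → x ≤ 3 → ‖HH k u U ω (⟨x, T / 4⟩ : ℂ)‖ ≤ 1 / u ^ (B + 1) := by
    intro x hx1 hx3
    refine h1 x (T / 4) hx1 hx3 (by linarith) (by linarith) ?_
    rw [abs_sub_comm]
    exact le_trans (by linarith) (le_abs_self _)
  have h3 : ∀ x : ℝ, 1 / 2 ≤ x → x ≤ 3 → ‖HH k u U ω (⟨x, 2 * T⟩ : ℂ)‖ ≤ 1 / u ^ (B + 1) := by
    intro x hx1 hx3
    refine h1 x (2 * T) hx1 hx3 (by linarith) (by linarith) ?_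
    exact le_trans (by linarith) (le_abs_self _)
  have h4 := rect (k := k) (u := u) (U := U) (ω := ω) hc hc3 hT4 h2 h3
  have e : tF k u U T ω = ∫ t in (T / 4)..(2 * T), HH k u U ω (pl (1 / 2) t) := by
    unfold tF
    refine intervalIntegral.integral_congr fun t ht => ?_
    rw [uIcc_of_le (by linarith)] at ht
    exact (HH_crit k u U ω (by linarith [ht.1])).symm
  rw [e]
  unfold lF
  refine h4.trans ?_
  have h5 : (T / 2) ^ (B + 1) ≤ u ^ (B + 1) := pow_le_pow_left₀ (by linarith) hu1 _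
  calc 5 * (1 / u ^ (B + 1)) ≤ 5 * (1 / (T / 2) ^ (B + 1)) := by gcongr
    _ = 5 * 2 ^ (B + 1) * (1 / T) * (1 / T ^ B) := by
        rw [div_pow, pow_succ T]
        field_simp
    _ ≤ T * (1 / T) * (1 / T ^ B) := by gcongr
    _ = _ := by field_simp

/-- Gaussian windows -/
theorem single {k : ℕ} (hk : 1 ≤ k) {c : ℝ} (hc : 1 < c) (hc3 : c ≤ 3) (B : ℕ) : ∃ C : ℝ, 0 < C ∧
    ∀ᶠ T : ℝ in atTop, ∀ U : ℝ, Adm T U → ∀ ω : ℝ, 0 ≤ ω →
      ‖tF k T U T ω‖ ≤ C * T ^ (k * (c - 1 / 2) + 1 / 2) * Real.exp (-(ω * (c - 1 / 2))) + 1 / T ^ B := by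
  obtain ⟨C, hC, hs⟩ := ser_osc hk hc hc3
  have hK := Q97.MM.KK_nonneg 1
  refine ⟨C * (Real.exp 7 + 5 * Real.exp 7 * Q97.MM.KK 1), by positivity, ?_⟩
  filter_upwards [tF_lF k B (c := c) (by linarith) hc3, eventually_ge_atTop (896 ^ 2)] with T h1 hT U hA
    ω hω
  have hT0 : 0 < T := by linarith
  have h2 := h1 T U (by linarith) le_rfl hA ω hω
  obtain ⟨w', hw1, hw2, hw3⟩ := var_gauss (c := c) (u := T) (U := U) (a := T / 4) (b := 2 * T)
    (by linarith) hc3 hA.2.1 (by linarith)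
  have h3 := hs T hT ω (T / 4) (2 * T) le_rfl (by linarith) le_rfl (fun t => GG T U (pl c t)) w'
    (Real.exp 7) (5 * Real.exp 7 * Q97.MM.KK 1) (Real.exp_pos _).le (by positivity)
    (fun t _ => hw1 t) hw2.continuousOn (by
      refine (GG_norm T c (2 * T) hA.2.1 (by linarith) hc3).trans ?_
      have : Real.exp (-(((2 * T - T) / U) ^ 2)) ≤ 1 := by
        apply Real.exp_le_one_iff.2
        have : 0 ≤ ((2 * T - T) / U) ^ 2 := sq_nonneg _
        linarith
      nlinarith [Real.exp_pos 7]) hw3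
  have h4 : ‖lF k T U T ω c‖ ≤ C * (Real.exp 7 + 5 * Real.exp 7 * Q97.MM.KK 1) *
      T ^ (k * (c - 1 / 2) + 1 / 2) * Real.exp (-(ω * (c - 1 / 2))) := by
    unfold lF
    simp only [HH_line]
    rw [intervalIntegral.integral_const_mul, norm_mul, Complex.norm_real,
      Real.norm_of_nonneg (Real.exp_pos _).le]
    have h5 := mul_le_mul_of_nonneg_left h3 (Real.exp_pos (-(ω * (c - 1 / 2)))).le
    refine h5.trans (le_of_eq ?_)
    ring
  have e : tF k T U T ω = (tF k T U T ω - lF k T U T ω c) + lF k T U T ω c := by ring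
  rw [e]
  refine (norm_add_le _ _).trans ?_
  linarith

end

end Q80.SF
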