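import Pool.Agent.Q80.SF.Osc
import Pool.Agent.W338.QS.Line
import Pool.Agent.W22.QS.Basic

set_option autoImplicit false

/-! Oscillatory integrals of the powers of the factor of the functional equation. -/

namespace Q80.SF

open MeasureTheory Set Filter Topology Complex
open Pool.Agent.W188.QS

noncomputable section

/-- the point `c + it` -/
def pl (c t : ℝ) : ℂ := (c : ℂ) + (t : ℂ) * I

theorem pl_re (c t : ℝ) : (pl c t).re = c := by simp [pl]

theorem pl_im (c t : ℝ) : (pl c t).im = t := by simp [pl]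

theorem pl_mk (c t : ℝ) : pl c t = (⟨c, t⟩ : ℂ) := by
  apply Complex.ext
  · rw [pl_re]
  · rw [pl_im]

theorem pl_deriv (c t : ℝ) : HasDerivAt (pl c) I t := by
  unfold pl
  simpa using ((ofRealCLM.hasDerivAt (x := t)).mul_const I).const_add (c : ℂ)

theorem XX_d {s : ℂ} (hs : 1 ≤ s.im) : DifferentiableAt ℂ XX s :=
  (Pool.Agent.W22.QS.qs_basic s hs).1

theorem XX_n {s : ℂ} (hs : 1 ≤ s.im) : XX s ≠ 0 :=
  (Pool.Agent.W22.QS.qs_basic s hs).2.1

theorem isOpen_im : IsOpen {s : ℂ | 1 < s.im} := isOpen_lt continuous_const Complex.continuous_im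

theorem ld_diffOn : DifferentiableOn ℂ (logDeriv XX) {s : ℂ | 1 < s.im} := by
  have h1 : DifferentiableOn ℂ XX {s : ℂ | 1 < s.im} := fun s hs =>
    (XX_d (le_of_lt hs)).differentiableWithinAt
  have h2 := h1.deriv isOpen_im
  exact h2.div h1 fun s hs => XX_n (le_of_lt hs)

theorem ld_diff {s : ℂ} (hs : 1 < s.im) : DifferentiableAt ℂ (logDeriv XX) s :=
  ld_diffOn.differentiableAt (isOpen_im.mem_nhds hs)

theorem ld'_cont : ContinuousOn (deriv (logDeriv XX)) {s : ℂ | 1 < s.im} :=
  (ld_diffOn.deriv isOpen_im).continuousOn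

theorem ld_close {s : ℂ} (h0 : 0 < s.re) (h2 : s.re ≤ 4) (h1 : 12 ≤ s.im) :
    ‖logDeriv XX s - (Real.log (s.im / (2 * Real.pi)) : ℂ)‖ ≤ 14 / s.im :=
  Pool.Agent.W338.QS.close h0 h2 h1

theorem log_close {x t : ℝ} (ht : 20 ≤ t) (hx : |x - t| ≤ 1 / 4) : |Real.log x - Real.log t| ≤ 1 / t := by
  rw [abs_le] at hx
  have hx0 : 0 < x := by linarith
  have ht0 : 0 < t := by linarith
  rw [abs_le]
  constructor
  · have h1 := Real.one_sub_inv_le_log_of_pos (x := x / t) (by positivity)
    rw [Real.log_div hx0.ne' ht0.ne', inv_div] at h1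
    have h2 : t / x ≤ 1 + 1 / t := by
      rw [div_le_iff₀ hx0]
      have : (1 + 1 / t) * x = x + x / t := by ring
      rw [this]
      have h3 : 1 / 2 ≤ x / t := by
        rw [le_div_iff₀ ht0]
        linarith
      linarith
    linarith
  · have h1 := Real.log_le_sub_one_of_pos (x := x / t) (by positivity)
    rw [Real.log_div hx0.ne' ht0.ne'] at h1
    have h2 : x / t ≤ 1 + 1 / t := by
      rw [div_le_iff₀ ht0]
      have : (1 + 1 / t) * t = t + 1 := by field_simp
      rw [this]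
      linarith
    linarith

theorem ld'_bd {c t : ℝ} (hc : 1 / 2 ≤ c) (hc3 : c ≤ 3) (ht : 20 ≤ t) :
    ‖deriv (logDeriv XX) (pl c t)‖ ≤ 120 / t := by
  have ht0 : 0 < t := by linarith
  set g : ℂ → ℂ := fun z => logDeriv XX z - (Real.log (t / (2 * Real.pi)) : ℂ) with hg
  have hsub : ∀ z : ℂ, dist z (pl c t) ≤ 1 / 4 → |z.re - c| ≤ 1 / 4 ∧ |z.im - t| ≤ 1 / 4 := by
    intro z hz
    rw [Complex.dist_eq] at hz
    have h1 := (abs_re_le_norm (z - pl c t)).trans hz
    have h2 := (abs_im_le_norm (z - pl c t)).trans hz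
    rw [sub_re, pl_re] at h1
    rw [sub_im, pl_im] at h2
    exact ⟨h1, h2⟩
  have hd : DiffContOnCl ℂ g (Metric.ball (pl c t) (1 / 4)) := by
    apply DifferentiableOn.diffContOnCl
    intro z hz
    have hz1 : z ∈ Metric.closedBall (pl c t) (1 / 4) := Metric.closure_ball_subset_closedBall hz
    obtain ⟨-, h2⟩ := hsub z hz1
    rw [abs_le] at h2
    exact ((ld_diff (s := z) (by linarith)).sub_const _).differentiableWithinAt
  have hC : ∀ z ∈ Metric.sphere (pl c t) (1 / 4), ‖g z‖ ≤ 30 / t := by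
    intro z hz
    obtain ⟨h1, h2⟩ := hsub z (le_of_eq hz)
    have h3 := log_close ht h2
    rw [abs_le] at h1 h2
    have h4 := ld_close (s := z) (by linarith) (by linarith) (by linarith)
    have hz0 : 0 < z.im := by linarith
    have hπ := Real.pi_pos
    have e : g z = (logDeriv XX z - (Real.log (z.im / (2 * Real.pi)) : ℂ)) +
        ((Real.log z.im - Real.log t : ℝ) : ℂ) := by
      simp only [hg]
      rw [Real.log_div hz0.ne' (by positivity), Real.log_div ht0.ne' (by positivity)]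
      push_cast
      ring
    rw [e]
    refine (norm_add_le _ _).trans ?_
    rw [Complex.norm_real, Real.norm_eq_abs]
    have h5 : 14 / z.im ≤ 28 / t := by
      rw [div_le_div_iff₀ hz0 ht0]
      linarith
    have h6 : 28 / t + 1 / t ≤ 30 / t := by
      rw [← add_div]
      gcongr
      norm_num
    linarith
  have h := Complex.norm_deriv_le_of_forall_mem_sphere_norm_le (by norm_num) hd hC
  have e : deriv g (pl c t) = deriv (logDeriv XX) (pl c t) := by
    rw [hg, deriv_sub_const]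
  rw [e] at h
  refine h.trans (le_of_eq ?_)
  ring

/-- the frequency -/
def lamf (k : ℕ) (c ω t : ℝ) : ℂ := k * logDeriv XX (pl c t) - ω

def lamf' (k : ℕ) (c t : ℝ) : ℂ := k * (deriv (logDeriv XX) (pl c t) * I)

/-- the oscillating function -/
def ff (k : ℕ) (c ω t : ℝ) : ℂ := XX (pl c t) ^ k * cexp (-(I * ω * t))

theorem ff_deriv {k : ℕ} (c ω : ℝ) {t : ℝ} (ht : 1 ≤ t) :
    HasDerivAt (ff k c ω) (I * lamf k c ω t * ff k c ω t) t := by
  have hs : 1 ≤ (pl c t).im := by rw [pl_im]; exact ht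
  have h1 : HasDerivAt (fun x => XX (pl c x)) (deriv XX (pl c t) * I) t :=
    (XX_d hs).hasDerivAt.comp t (pl_deriv c t)
  have h2 := h1.fun_pow k
  have h3 : HasDerivAt (fun x : ℝ => cexp (-(I * ω * x))) (cexp (-(I * ω * t)) * (-(I * ω))) t := by
    have h4 : HasDerivAt (fun x : ℝ => -(I * ω * (x : ℂ))) (-(I * ω)) t := by
      simpa using ((ofRealCLM.hasDerivAt (x := t)).const_mul (I * (ω : ℂ))).fun_neg
    exact h4.cexp
  have h5 := h2.mul h3
  have hne := XX_n hs
  have e : I * lamf k c ω t * ff k c ω t = (k : ℂ) * XX (pl c t) ^ (k - 1) *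
      (deriv XX (pl c t) * I) * cexp (-(I * ω * t)) +
        XX (pl c t) ^ k * (cexp (-(I * ω * t)) * (-(I * ω))) := by
    unfold lamf ff
    rw [logDeriv_apply]
    rcases k with _ | k
    · simp [mul_comm]
    · rw [Nat.add_sub_cancel, pow_succ]
      field_simp
      ring
  rw [e]
  exact h5

theorem lamf_deriv {k : ℕ} (c ω : ℝ) {t : ℝ} (ht : 1 < t) :
    HasDerivAt (lamf k c ω) (lamf' k c t) t := by
  have hs : 1 < (pl c t).im := by rw [pl_im]; exact ht
  have h1 : HasDerivAt (fun x => logDeriv XX (pl c x)) (deriv (logDeriv XX) (pl c t) * I) t :=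
    (ld_diff hs).hasDerivAt.comp t (pl_deriv c t)
  exact (h1.const_mul (k : ℂ)).sub_const _

theorem lamf'_cont {k : ℕ} (c : ℝ) {a b : ℝ} (ha : 1 < a) : ContinuousOn (lamf' k c) (Icc a b) := by
  have h1 : ContinuousOn (fun t => deriv (logDeriv XX) (pl c t)) (Icc a b) := by
    refine ld'_cont.comp (f := pl c) ?_ ?_
    · have : Continuous (pl c) := by unfold pl; fun_prop
      exact this.continuousOn
    · intro t ht
      show 1 < (pl c t).im
      rw [pl_im]
      linarith [ht.1]
  unfold lamf'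
  exact continuousOn_const.mul (h1.mul continuousOn_const)

theorem lamf'_bd {k : ℕ} {c t : ℝ} (hc : 1 / 2 ≤ c) (hc3 : c ≤ 3) (ht : 20 ≤ t) :
    ‖lamf' k c t‖ ≤ k * (120 / t) := by
  unfold lamf'
  rw [norm_mul, norm_mul, norm_I, mul_one, Complex.norm_natCast]
  exact mul_le_mul_of_nonneg_left (ld'_bd hc hc3 ht) (Nat.cast_nonneg k)

/-- the stationary point, or a point to the right -/
def tst (k : ℕ) (ω T : ℝ) : ℝ := min (2 * Real.pi * Real.exp (ω / k)) (8 * T)

theorem log_low {t t0 T : ℝ} (ht : 0 < t) (ht0 : 0 < t0) (h1 : t ≤ 8 * T) (h2 : t0 ≤ 8 * T) :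
    |t - t0| / (8 * T) ≤ |Real.log t - Real.log t0| := by
  have hT : 0 < 8 * T := by linarith
  rcases le_total t0 t with h | h
  · have h3 := Real.one_sub_inv_le_log_of_pos (x := t / t0) (by positivity)
    rw [Real.log_div ht.ne' ht0.ne', inv_div] at h3
    rw [abs_of_nonneg (by linarith)]
    refine le_trans ?_ (h3.trans (le_abs_self _))
    have e : 1 - t0 / t = (t - t0) / t := by field_simp
    rw [e]
    exact div_le_div_of_nonneg_left (by linarith) ht h1
  · have h3 := Real.one_sub_inv_le_log_of_pos (x := t0 / t) (by positivity)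
    rw [Real.log_div ht0.ne' ht.ne', inv_div] at h3
    rw [abs_of_nonpos (by linarith), abs_sub_comm (Real.log t)]
    refine le_trans ?_ (h3.trans (le_abs_self _))
    have e : 1 - t / t0 = (t0 - t) / t0 := by field_simp
    rw [e]
    calc -(t - t0) / (8 * T) = (t0 - t) / (8 * T) := by ring
      _ ≤ (t0 - t) / t0 := div_le_div_of_nonneg_left (by linarith) ht0 h2

theorem lamf_low {k : ℕ} (hk : 1 ≤ k) {c ω T t : ℝ} (hc : 1 / 2 ≤ c) (hc3 : c ≤ 3)
    (hT : 896 ^ 2 ≤ T) (ht1 : T / 4 ≤ t) (ht2 : t ≤ 2 * T) (hR : √T ≤ |t - tst k ω T|) :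
    k / (16 * T) * |t - tst k ω T| ≤ ‖lamf k c ω t‖ := by
  have hk0 : (0 : ℝ) < k := by exact_mod_cast hk
  have hT0 : 0 < T := by linarith
  have ht0 : 0 < t := by linarith
  have hπ := Real.pi_pos
  have hs : 896 ≤ √T := Real.le_sqrt_of_sq_le hT
  have h1 := ld_close (s := pl c t) (by rw [pl_re]; linarith) (by rw [pl_re]; linarith)
    (by rw [pl_im]; linarith)
  rw [pl_im] at h1
  set z : ℝ := 2 * Real.pi * Real.exp (ω / k) with hz
  have hz0 : 0 < z := by positivity
  have hlz : Real.log z = Real.log (2 * Real.pi) + ω / k := by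
    rw [hz, Real.log_mul (by positivity) (Real.exp_pos _).ne', Real.log_exp]
  have h2 : |t - tst k ω T| / (8 * T) ≤ |Real.log t - Real.log z| := by
    unfold tst
    rw [← hz]
    rcases le_total z (8 * T) with h | h
    · rw [min_eq_left h]
      exact log_low ht0 hz0 (by linarith) h
    · rw [min_eq_right h]
      refine (log_low ht0 (by positivity) (by linarith) le_rfl).trans ?_
      have h3 := Real.log_le_log (by positivity) h
      have h4 := Real.log_le_log ht0 (show t ≤ 8 * T by linarith)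
      rw [abs_of_nonpos (by linarith), abs_of_nonpos (by linarith)]
      linarith
  have e1 : ((k * (Real.log t - Real.log z) : ℝ) : ℂ) =
      lamf k c ω t - k * (logDeriv XX (pl c t) - (Real.log (t / (2 * Real.pi)) : ℂ)) := by
    unfold lamf
    rw [hlz, Real.log_div ht0.ne' (by positivity)]
    have hkC : (k : ℂ) ≠ 0 := by exact_mod_cast hk0.ne'
    push_cast
    field_simp
    ring
  have h3 : k * |Real.log t - Real.log z| ≤ ‖lamf k c ω t‖ + k * (14 / t) := by
    have h4 := congrArg norm e1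
    rw [Complex.norm_real, Real.norm_eq_abs, abs_mul, abs_of_pos hk0] at h4
    rw [h4]
    refine (norm_sub_le _ _).trans ?_
    rw [norm_mul, Complex.norm_natCast]
    gcongr
  have h5 : 14 / t ≤ 56 / T := by
    rw [div_le_div_iff₀ ht0 hT0]
    linarith
  have h6 : |t - tst k ω T| / (8 * T) = |t - tst k ω T| / (16 * T) + |t - tst k ω T| / (16 * T) := by
    field_simp
    ring
  have h7 : 56 / T ≤ |t - tst k ω T| / (16 * T) := by
    rw [div_le_div_iff₀ hT0 (by positivity)]
    nlinarith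
  have h8 : k * (|t - tst k ω T| / (16 * T)) ≤ k * (|Real.log t - Real.log z| - 14 / t) := by
    apply mul_le_mul_of_nonneg_left _ hk0.le
    linarith
  calc k / (16 * T) * |t - tst k ω T| = k * (|t - tst k ω T| / (16 * T)) := by ring
    _ ≤ k * (|Real.log t - Real.log z| - 14 / t) := h8
    _ ≤ ‖lamf k c ω t‖ := by linarith

/-- The oscillatory integral of the power of `XX` over any interval in `[T/4, 2T]`, uniformly in the
frequency. -/
theorem xx_osc {k : ℕ} (hk : 1 ≤ k) {c : ℝ} (hc : 1 / 2 ≤ c) (hc3 : c ≤ 3) :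
    ∃ C : ℝ, 0 < C ∧ ∀ T : ℝ, 896 ^ 2 ≤ T → ∀ ω a b : ℝ, T / 4 ≤ a → a ≤ b → b ≤ 2 * T →
      ‖∫ t in a..b, ff k c ω t‖ ≤ C * T ^ (k * (c - 1 / 2) + 1 / 2) := by
  obtain ⟨-, -, -, -, -, -, -, -, ⟨K, hK, hX⟩, -⟩ := Pool.Agent.W338.QS.qs_line
  have hk0 : (1 : ℝ) ≤ k := by exact_mod_cast hk
  refine ⟨250000 * (Real.exp K * 2 ^ (c - 1 / 2)) ^ k, by positivity, ?_⟩
  intro T hT ω a b ha hab hb
  have hT0 : 0 < T := by linarith
  have hs0 : 0 < √T := Real.sqrt_pos.2 hT0
  have hss : √T * √T = T := Real.mul_self_sqrt hT0.le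
  set A : ℝ := (Real.exp K * (2 * T) ^ (c - 1 / 2)) ^ k with hA
  have hA0 : 0 ≤ A := by positivity
  have hin : ∀ t ∈ Icc a b, T / 4 ≤ t ∧ t ≤ 2 * T := fun t ht => ⟨ha.trans ht.1, ht.2.trans hb⟩
  have h := osc_total (f := ff k c ω) (lam := lamf k c ω) (lam' := lamf' k c) (a := a) (b := b)
    (t0 := tst k ω T) (A := A) (c0 := k / (16 * T)) (C0 := k * 480 / T) (R := √T) hab hs0
    (by positivity) (by positivity) hA0
    (fun t ht => ff_deriv c ω (by linarith [(hin t ht).1]))
    (fun t ht => lamf_deriv c ω (by linarith [(hin t ht).1]))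
    (lamf'_cont c (by linarith))
    (fun t ht => by
      obtain ⟨h1, h2⟩ := hin t ht
      unfold ff
      have e : -(I * (ω : ℂ) * (t : ℂ)) = ((-(ω * t) : ℝ) : ℂ) * I := by push_cast; ring
      rw [norm_mul, norm_pow, e, Complex.norm_exp_ofReal_mul_I, mul_one, hA]
      apply pow_le_pow_left₀ (norm_nonneg _)
      have h3 := (hX (pl c t) (by rw [pl_re]; exact hc) (by rw [pl_re]; linarith)
        (by rw [pl_im]; linarith)).2
      rw [pl_re, pl_im] at h3
      refine h3.trans (mul_le_mul_of_nonneg_left ?_ (Real.exp_pos K).le)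
      exact Real.rpow_le_rpow (by linarith) h2 (by linarith))
    (fun t ht hR => lamf_low hk hc hc3 hT (hin t ht).1 (hin t ht).2 hR)
    (fun t ht => by
      obtain ⟨h1, h2⟩ := hin t ht
      refine (lamf'_bd hc hc3 (by linarith)).trans ?_
      rw [mul_div_assoc]
      apply mul_le_mul_of_nonneg_left _ (by positivity)
      rw [div_le_div_iff₀ (by linarith) hT0]
      linarith)
  refine h.trans ?_
  have e1 : 2 * √T + 2 * (2 / (k / (16 * T) * √T) + k * 480 / T / ((k / (16 * T)) ^ 2 * √T)) =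
      √T * (2 + 245824 / k) := by
    have e2 : T = √T * √T := hss.symm
    have e3 : 2 / (k / (16 * T) * √T) = √T * (32 / k) := by
      rw [div_eq_iff (by positivity)]
      field_simp
      linear_combination (-32 : ℝ) * hss
    have e4 : k * 480 / T / ((k / (16 * T)) ^ 2 * √T) = √T * (122880 / k) := by
      rw [div_eq_iff (by positivity)]
      field_simp
      linear_combination (-122880 : ℝ) * hss
    rw [e3, e4]
    ring
  rw [e1]
  have h5 : 2 + 245824 / (k : ℝ) ≤ 250000 := by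
    have : 245824 / (k : ℝ) ≤ 245824 := div_le_self (by norm_num) hk0
    linarith
  have e6 : A = (Real.exp K * 2 ^ (c - 1 / 2)) ^ k * T ^ (k * (c - 1 / 2)) := by
    rw [hA, Real.mul_rpow (by norm_num) hT0.le, ← mul_assoc, mul_pow, mul_comm (k : ℝ),
      Real.rpow_mul hT0.le, Real.rpow_natCast]
  rw [e6, Real.rpow_add hT0, ← Real.sqrt_eq_rpow]
  calc (Real.exp K * 2 ^ (c - 1 / 2)) ^ k * T ^ (k * (c - 1 / 2)) * (√T * (2 + 245824 / k))
      ≤ (Real.exp K * 2 ^ (c - 1 / 2)) ^ k * T ^ (k * (c - 1 / 2)) * (√T * 250000) := by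
        gcongr
    _ = _ := by ring

end

end Q80.SF
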